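import Pool.Agent.Helper15.EP.St

set_option autoImplicit false

open Polynomial Pool.Agent.Helper15.FC Pool.Agent.Helper15.EP

namespace Pool.Agent.Helper53.EP

theorem mob_abs_le {F : Type} [Field F] (f : F[X]) : |(mob f : ℝ)| ≤ 1 := by
  classical
  unfold mob
  split_ifs with h
  · push_cast
    rw [abs_pow, abs_neg, abs_one, one_pow]
  · simp

theorem hCHB : StCHB := by
  classical
  intro F _ _ e h he hh
  have hq : (1 : ℝ) ≤ qr F := by
    unfold qr
    exact_mod_cast Fintype.card_pos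
  have hsub : (Dv e).filter (fun d => d ∣ h) ⊆ Dv h := by
    intro d hd
    rw [Finset.mem_filter] at hd
    rw [mem_Dv hh]
    exact ⟨((mem_Dv he.ne_zero).1 hd.1).1, hd.2⟩
  have hterm : ∀ d ∈ (Dv e).filter (fun d => d ∣ h),
      |((mob (e / d) * (Fintype.card F : ℤ) ^ d.natDegree : ℤ) : ℝ)| ≤ qr F ^ h.natDegree := by
    intro d hd
    rw [Finset.mem_filter] at hd
    have hdeg : d.natDegree ≤ h.natDegree := Polynomial.natDegree_le_of_dvd hd.2 hh
    push_cast
    rw [abs_mul]
    have h1 : |(Fintype.card F : ℝ) ^ d.natDegree| = qr F ^ d.natDegree := by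
      rw [abs_of_nonneg (by positivity)]
    rw [h1]
    calc |(mob (e / d) : ℝ)| * qr F ^ d.natDegree ≤ 1 * qr F ^ d.natDegree := by
          apply mul_le_mul_of_nonneg_right (mob_abs_le _)
          exact pow_nonneg (by linarith) _
      _ = qr F ^ d.natDegree := one_mul _
      _ ≤ qr F ^ h.natDegree := pow_le_pow_right₀ hq hdeg
  have hcr : (cram e h : ℝ) = ∑ d ∈ (Dv e).filter (fun d => d ∣ h),
      ((mob (e / d) * (Fintype.card F : ℤ) ^ d.natDegree : ℤ) : ℝ) := by
    unfold cram
    rw [Int.cast_sum]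
  calc |(cram e h : ℝ)| ≤ ∑ d ∈ (Dv e).filter (fun d => d ∣ h),
      |((mob (e / d) * (Fintype.card F : ℤ) ^ d.natDegree : ℤ) : ℝ)| := by
        rw [hcr]
        exact Finset.abs_sum_le_sum_abs _ _
    _ ≤ ∑ d ∈ (Dv e).filter (fun d => d ∣ h), qr F ^ h.natDegree := Finset.sum_le_sum hterm
    _ = (((Dv e).filter (fun d => d ∣ h)).card : ℝ) * qr F ^ h.natDegree := by
        rw [Finset.sum_const, nsmul_eq_mul]
    _ ≤ tau h * qr F ^ h.natDegree := by
        apply mul_le_mul_of_nonneg_right _ (pow_nonneg (by linarith) _)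
        unfold tau
        exact_mod_cast Finset.card_le_card hsub

end Pool.Agent.Helper53.EP
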