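import Pool.Agent.Helper53.EP.StP

/-!
# EP, module Pa: symbols and ternary forms
-/

set_option autoImplicit false

namespace Pool.Agent.Helper53.EP

open Pool.Agent.Helper54.HQ (IsSym)

private lemma one_Pa {K : Type} [Field K] {s : K → K → ZMod 2} (hs : IsSym K s) {v : K}
    (hv : v ≠ 0) : s 1 v = 0 := by
  have h := hs.mul 1 1 v one_ne_zero one_ne_zero hv
  rw [one_mul] at h
  exact left_eq_add.1 h

private lemma add_self_Pa (a : ZMod 2) : a + a = 0 := by
  revert a; decide

private lemma inv_Pa {K : Type} [Field K] {s : K → K → ZMod 2} (hs : IsSym K s) {a v : K}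
    (ha : a ≠ 0) (hv : v ≠ 0) : s a⁻¹ v = s a v := by
  have h := hs.mul a a⁻¹ v ha (inv_ne_zero ha) hv
  rw [mul_inv_cancel₀ ha, one_Pa hs hv] at h
  have h2 := add_self_Pa (s a v)
  have h3 : s a v + s a⁻¹ v = s a v + s a v := by rw [← h, h2]
  exact add_left_cancel h3

private lemma sq_Pa {K : Type} [Field K] {s : K → K → ZMod 2} (hs : IsSym K s) {a u v : K}
    (ha : a ≠ 0) (hu : u ≠ 0) (hv : v ≠ 0) : s (a * u ^ 2) v = s a v := by
  rw [hs.mul a (u ^ 2) v ha (pow_ne_zero 2 hu) hv, sq, hs.mul u u v hu hu hv, add_self_Pa,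
    add_zero]

private lemma neg_Pa {K : Type} [Field K] {s : K → K → ZMod 2} (hs : IsSym K s) {D : K}
    (hD : D ≠ 0) : s D (-D) = 0 := by
  by_cases h1 : D = 1
  · subst h1
    exact one_Pa hs (neg_ne_zero.2 one_ne_zero)
  · have hD' : D⁻¹ ≠ 0 := inv_ne_zero hD
    have h2 : 1 - D ≠ 0 := sub_ne_zero.2 (Ne.symm h1)
    have h3 : 1 - D⁻¹ ≠ 0 := by
      intro h
      apply h1
      have : D⁻¹ = 1 := (sub_eq_zero.1 h).symm
      rw [← inv_inv D, this, inv_one]
    have e : -D = (1 - D) * (1 - D⁻¹)⁻¹ := by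
      rw [eq_mul_inv_iff_mul_eq₀ h3]
      field_simp
      ring
    rw [hs.symm, e, hs.mul (1 - D) (1 - D⁻¹)⁻¹ D h2 (inv_ne_zero h3) hD, inv_Pa hs h3 hD,
      hs.symm (1 - D) D, hs.stein D (1 - D) hD h2 (by ring), zero_add, hs.symm,
      ← inv_Pa hs hD h3]
    exact hs.stein D⁻¹ (1 - D⁻¹) hD' h3 (by ring)

theorem hPa : StPa := by
  intro K _ s hs D c hD hc ⟨x, y, z, hne, h⟩
  by_cases hx : x = 0
  · subst hx
    have hz : z ≠ 0 := by
      rintro rfl
      have : y = 0 := by
        have h1 : D * y ^ 2 = 0 := by linear_combination -h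
        exact (pow_eq_zero_iff two_ne_zero).1 ((mul_eq_zero.1 h1).resolve_left hD)
      simp [this] at hne
    have hy : y ≠ 0 := by
      rintro rfl
      have h1 : c * z ^ 2 = 0 := by linear_combination -h
      exact hz ((pow_eq_zero_iff two_ne_zero).1 ((mul_eq_zero.1 h1).resolve_left hc))
    have e : c = -D * (y / z) ^ 2 := by
      field_simp
      linear_combination -h
    rw [e, hs.symm, sq_Pa hs (neg_ne_zero.2 hD) (div_ne_zero hy hz) hD, hs.symm]
    exact neg_Pa hs hD
  · by_cases hy : y = 0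
    · subst hy
      have hz : z ≠ 0 := by
        rintro rfl
        apply hx
        have h1 : x ^ 2 = 0 := by linear_combination h
        exact (pow_eq_zero_iff two_ne_zero).1 h1
      have e : c = 1 * (x / z) ^ 2 := by
        field_simp
        linear_combination -h
      rw [e, hs.symm, sq_Pa hs one_ne_zero (div_ne_zero hx hz) hD]
      exact one_Pa hs hD
    · by_cases hz : z = 0
      · subst hz
        have e : D = 1 * (x / y) ^ 2 := by
          field_simp
          linear_combination -h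
        rw [e, sq_Pa hs one_ne_zero (div_ne_zero hx hy) hc]
        exact one_Pa hs hc
      · have e : D * (y / x) ^ 2 + c * (z / x) ^ 2 = 1 := by
          field_simp
          linear_combination -h
        have hyx : y / x ≠ 0 := div_ne_zero hy hx
        have hzx : z / x ≠ 0 := div_ne_zero hz hx
        have h2 := hs.stein (D * (y / x) ^ 2) (c * (z / x) ^ 2)
          (mul_ne_zero hD (pow_ne_zero 2 hyx)) (mul_ne_zero hc (pow_ne_zero 2 hzx)) e
        rw [sq_Pa hs hD hyx (mul_ne_zero hc (pow_ne_zero 2 hzx)), hs.symm,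
          sq_Pa hs hc hzx hD, hs.symm] at h2
        exact h2

end Pool.Agent.Helper53.EP
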