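import Pool.Agent.Helper53.EP.StP
import Pool.Agent.Helper54.HQ.M_Hc0
import Pool.Agent.Helper54.HQ.M_Hc
import Pool.Agent.Helper54.HQ.M_Hd
import Pool.Agent.Helper54.HQ.M_He
import Pool.Agent.Helper54.HQ.M_Hf

/-!
# EP module Pb: Legendre's theorem with all places but one
-/

set_option autoImplicit false

namespace Pool.Agent.Helper53.EP

open Polynomial Finset IsDedekindDomain
open Pool.Agent.Helper54.HQ (Prm pz hs hs2 hsR IsSym u8 v2 ur e4 e8 StHf StHc0 StHc)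

private theorem hc0_Pb : StHc0 := Pool.Agent.Helper54.HQ.hHc0

private theorem hc_Pb : StHc := Pool.Agent.Helper54.HQ.hHc hc0_Pb

private theorem hf_Pb : StHf :=
  Pool.Agent.Helper54.HQ.hHf hc0_Pb hc_Pb (Pool.Agent.Helper54.HQ.hHd hc0_Pb)
    Pool.Agent.Helper54.HQ.hHe

private theorem fin_Pb (n : ℕ) (hn : n ≠ 0) : {P : Prm | (P : ℕ) ∣ n}.Finite := by
  apply Set.Finite.of_finite_image (f := fun P : Prm => (P : ℕ))
  · apply (n.divisors.finite_toSet).subset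
    rintro m ⟨P, hP, rfl⟩
    exact Finset.mem_coe.2 (Nat.mem_divisors.2 ⟨hP, hn⟩)
  · intro P _ Q _ h
    exact Subtype.ext h

private theorem hs2_Pb {D n : ℤ} (hD : D % 8 = 1) : hs2 ((D : ℚ) : ℚ_[2]) ((n : ℚ) : ℚ_[2]) = 0 := by
  have h2 : ¬ (2 : ℤ) ∣ D := by
    intro h
    obtain ⟨m, hm⟩ := h
    omega
  rw [Rat.cast_intCast, Rat.cast_intCast, hs2, Pool.Agent.Helper54.HQ.u8_int_Hf hc0_Pb h2,
    Pool.Agent.Helper54.HQ.v2_int_Hf 2 (by exact_mod_cast h2)]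
  have h8 : (D : ZMod 8) = 1 := by
    have h3 : (8 : ℤ) ∣ D - 1 := by omega
    have h4 : ((D - 1 : ℤ) : ZMod 8) = 0 := (ZMod.intCast_zmod_eq_zero_iff_dvd _ 8).2 (by exact_mod_cast h3)
    rw [Int.cast_sub, Int.cast_one, sub_eq_zero] at h4
    exact h4
  rw [h8, Pool.Agent.Helper54.HQ.e4_one_Hf, Pool.Agent.Helper54.HQ.e8_one_Hf]
  simp

theorem hPb (h1 : StPb1) : StPb := by
  classical
  intro D c P₀ hD hD8 hc hP₀ hloc
  have hdd : ∀ x : ZMod 2, x + x = 0 := by decide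
  set d : ℤ := (c.den : ℤ) with hd
  have hd0 : d ≠ 0 := by
    rw [hd]
    exact_mod_cast c.den_ne_zero
  set n : ℤ := c.num * d with hn
  have hn0 : n ≠ 0 := mul_ne_zero (Rat.num_ne_zero.2 hc) hd0
  have hnc : (n : ℚ) = c * ((d : ℚ) * (d : ℚ)) := by
    rw [hn, hd]
    push_cast
    rw [← mul_assoc, Rat.mul_den_eq_num]
  have hdq : (d : ℚ) ≠ 0 := by exact_mod_cast hd0
  have hDq : (D : ℚ) ≠ 0 := by exact_mod_cast hD.ne'
  -- the symbols of `D` and `n`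
  have hsn : ∀ P : Prm, (P : ℕ) ≠ 2 → P ≠ P₀ →
      hs (P : ℕ) ((D : ℚ) : ℚ_[(P : ℕ)]) ((n : ℚ) : ℚ_[(P : ℕ)]) = 0 := by
    intro P hP2 hP
    have hsym := hc_Pb (P : ℕ) hP2
    have e1 : (c : ℚ_[(P : ℕ)]) ≠ 0 := Rat.cast_ne_zero.2 hc
    have e2 : ((d : ℚ) : ℚ_[(P : ℕ)]) ≠ 0 := Rat.cast_ne_zero.2 hdq
    have e3 : ((D : ℚ) : ℚ_[(P : ℕ)]) ≠ 0 := Rat.cast_ne_zero.2 hDq
    rw [hnc, Rat.cast_mul, Rat.cast_mul, hsym.symm, hsym.mul _ _ _ e1 (mul_ne_zero e2 e2) e3,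
      hsym.mul _ _ _ e2 e2 e3, hdd, add_zero, hsym.symm]
    exact hloc P hP2 hP
  have hfin := fin_Pb (D * n).natAbs (Int.natAbs_ne_zero.2 (mul_ne_zero hD.ne' hn0))
  set S : Finset Prm := insert P₀ (hfin.toFinset.filter fun P => (P : ℕ) ≠ 2) with hS
  have hS2 : ∀ P ∈ S, (P : ℕ) ≠ 2 := by
    intro P hP
    rw [hS, Finset.mem_insert, Finset.mem_filter] at hP
    rcases hP with rfl | hP
    · exact hP₀
    · exact hP.2
  have hmem : ∀ P : Prm, (P : ℕ) ≠ 2 → (padicValRat (P : ℕ) (D : ℚ) ≠ 0 ∨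
      padicValRat (P : ℕ) (n : ℚ) ≠ 0) → P ∈ S := by
    intro P hP2 hv
    rw [hS, Finset.mem_insert, Finset.mem_filter]
    refine Or.inr ⟨?_, hP2⟩
    rw [Set.Finite.mem_toFinset]
    change (P : ℕ) ∣ (D * n).natAbs
    have key : ∀ m : ℤ, padicValRat (P : ℕ) (m : ℚ) ≠ 0 → ((P : ℕ) : ℤ) ∣ m := by
      intro m hm
      by_contra hno
      apply hm
      rw [padicValRat.of_int, padicValInt.eq_zero_of_not_dvd hno]
      rfl
    rw [← Int.natCast_dvd]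
    rcases hv with h | h
    · exact (key D h).mul_right n
    · exact (key n h).mul_left D
  have hprod := hf_Pb (D : ℚ) (n : ℚ) hDq (by exact_mod_cast hn0) S hS2 hmem
  have hR : hsR (((D : ℚ)) : ℝ) (((n : ℚ)) : ℝ) = 0 := by
    rw [hsR, if_neg]
    rintro ⟨h4, -⟩
    have h5 : (0 : ℝ) < (((D : ℚ)) : ℝ) := by
      rw [Rat.cast_intCast]
      exact_mod_cast hD
    linarith
  rw [hs2_Pb hD8, hR, add_zero, add_zero, Finset.sum_eq_single_of_mem P₀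
    (by rw [hS]; exact Finset.mem_insert_self _ _) (fun P hP hne => hsn P (hS2 P hP) hne)] at hprod
  have hall : ∀ P : Prm, (P : ℕ) ≠ 2 →
      hs (P : ℕ) ((D : ℚ) : ℚ_[(P : ℕ)]) ((n : ℚ) : ℚ_[(P : ℕ)]) = 0 := by
    intro P hP2
    by_cases hP : P = P₀
    · rw [hP]
      exact hprod
    · exact hsn P hP2 hP
  obtain ⟨x, y, z, hne, heq⟩ := h1 D n hD.ne' hn0 (Or.inl hD) hall
  refine ⟨x, y, (d : ℚ) * z, ?_, ?_⟩
  · rcases hne with h | h | h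
    · exact Or.inl h
    · exact Or.inr (Or.inl h)
    · exact Or.inr (Or.inr (mul_ne_zero hdq h))
  · rw [heq, hnc]
    ring

end Pool.Agent.Helper53.EP
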