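import Pool.Agent.Helper53.EP.StP
import Pool.Agent.Helper54.HQ.M_Hf
import Pool.Agent.Helper54.HQ.M_Hc
import Pool.Agent.Helper54.HQ.M_Hc0

/-!
# EP: Pb1, Legendre's theorem over the integers
-/

set_option autoImplicit false

namespace Pool.Agent.Helper53.EP

open Polynomial Finset IsDedekindDomain
open Pool.Agent.Helper54.HQ (Prm pz factPrm IsSym hs lg v2 ur StHc0 StHc hHc0 hHc)
open Pool.Agent.Helper54.HQ (v2_int_Hf ur_int_Hf)

/-- the condition on `a`, `b` -/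
def Cond_Pb1 (a b : ℤ) : Prop :=
  a ≠ 0 ∧ b ≠ 0 ∧ (0 < a ∨ 0 < b) ∧
    ∀ P : Prm, (P : ℕ) ≠ 2 → hs (P : ℕ) (a : ℚ_[(P : ℕ)]) (b : ℚ_[(P : ℕ)]) = 0

lemma hsSym_Pb1 (P : Prm) (hP : (P : ℕ) ≠ 2) : IsSym ℚ_[(P : ℕ)] (hs (P : ℕ)) :=
  hHc hHc0 (P : ℕ) hP

lemma cast_ne_Pb1 (P : Prm) {a : ℤ} (ha : a ≠ 0) : (a : ℚ_[(P : ℕ)]) ≠ 0 := Int.cast_ne_zero.2 ha

lemma Cond_symm_Pb1 {a b : ℤ} (h : Cond_Pb1 a b) : Cond_Pb1 b a :=
  ⟨h.2.1, h.1, h.2.2.1.symm, fun P hP => by rw [(hsSym_Pb1 P hP).symm]; exact h.2.2.2 P hP⟩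

lemma Iso_symm_Pb1 {a b : ℚ} (h : Iso3 a b) : Iso3 b a := by
  obtain ⟨x, y, z, h1, h2⟩ := h
  refine ⟨x, z, y, ?_, by rw [h2]; ring⟩
  rcases h1 with h | h | h
  · exact Or.inl h
  · exact Or.inr (Or.inr h)
  · exact Or.inr (Or.inl h)

/-- removing a square -/
lemma Cond_sq_Pb1 {a b u : ℤ} (h : Cond_Pb1 (u * u * a) b) : Cond_Pb1 a b := by
  obtain ⟨h1, h2, h3, h4⟩ := h
  have hu : u ≠ 0 := by rintro rfl; simp at h1
  have ha : a ≠ 0 := by rintro rfl; simp at h1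
  refine ⟨ha, h2, ?_, ?_⟩
  · rcases h3 with h3 | h3
    · left
      have : 0 < u * u := mul_self_pos.2 hu
      exact (mul_pos_iff_of_pos_left this).1 h3
    · right; exact h3
  · intro P hP
    have h5 := h4 P hP
    have hs' := hsSym_Pb1 P hP
    rw [Int.cast_mul, hs'.mul _ _ _ (by exact_mod_cast cast_ne_Pb1 P (mul_ne_zero hu hu))
      (cast_ne_Pb1 P ha) (cast_ne_Pb1 P h2), Int.cast_mul, hs'.mul _ _ _ (cast_ne_Pb1 P hu)
      (cast_ne_Pb1 P hu) (cast_ne_Pb1 P h2)] at h5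
    have hdd : ∀ x : ZMod 2, x + x = 0 := by decide
    rwa [hdd, zero_add] at h5

lemma Iso_sq_Pb1 {a b : ℤ} {u : ℤ} (hu : u ≠ 0) (h : Iso3 (a : ℚ) (b : ℚ)) :
    Iso3 (((u * u * a : ℤ)) : ℚ) (b : ℚ) := by
  obtain ⟨x, y, z, h1, h2⟩ := h
  have hu' : (u : ℚ) ≠ 0 := by exact_mod_cast hu
  refine ⟨u * x, y, u * z, ?_, ?_⟩
  · rcases h1 with h | h | h
    · exact Or.inl (mul_ne_zero hu' h)
    · exact Or.inr (Or.inl h)
    · exact Or.inr (Or.inr (mul_ne_zero hu' h))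
  · push_cast
    linear_combination (u : ℚ) ^ 2 * h2

/-- the valuation modulo two at a prime which divides exactly -/
lemma v2_eq_one_Pb1 (p : ℕ) [Fact p.Prime] {b : ℤ} (hb : Squarefree b) (hpb : (p : ℤ) ∣ b) :
    v2 p (b : ℚ_[p]) = 1 := by
  obtain ⟨c, rfl⟩ := hpb
  have hpc : ¬ (p : ℤ) ∣ c := by
    intro h
    have h1 : (p : ℤ) * p ∣ p * c := mul_dvd_mul_left _ h
    have h2 := hb _ h1
    have h3 : Prime (p : ℤ) := Nat.prime_iff_prime_int.1 Fact.out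
    exact h3.not_isUnit h2
  have hc0 : c ≠ 0 := by rintro rfl; exact hpc (dvd_zero _)
  have hp0 : (p : ℚ_[p]) ≠ 0 := by exact_mod_cast (Fact.out : p.Prime).ne_zero
  rw [Int.cast_mul, Int.cast_natCast, (hHc0 p).2.1 _ _ hp0 (Int.cast_ne_zero.2 hc0) |>.2,
    Pool.Agent.Helper54.HQ.v2_p_Hf, v2_int_Hf p hpc, add_zero]

/-- `a` is a square modulo the odd primes dividing `b` -/
lemma sq_mod_prime_Pb1 {a b : ℤ} (h : Cond_Pb1 a b) (hb : Squarefree b) (p : ℕ) (hp : p.Prime)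
    (hpb : (p : ℤ) ∣ b) : ∃ t : ℤ, (p : ℤ) ∣ t ^ 2 - a := by
  have : Fact p.Prime := ⟨hp⟩
  by_cases hpa : (p : ℤ) ∣ a
  · exact ⟨0, by simpa using hpa⟩
  by_cases hp2 : p = 2
  · subst hp2
    refine ⟨a, ?_⟩
    have : a ^ 2 - a = a * (a - 1) := by ring
    rw [this]
    exact_mod_cast (Int.even_mul_pred_self a).two_dvd
  · have h1 := h.2.2.2 ⟨p, hp⟩ hp2
    have h1' : hs p (a : ℚ_[p]) (b : ℚ_[p]) = 0 := h1
    rw [hs, v2_int_Hf p hpa, v2_eq_one_Pb1 p hb hpb, ur_int_Hf p hHc0 hpa, map_intCast] at h1'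
    simp only [zero_mul, one_mul, zero_add, add_zero] at h1'
    have h2 : IsSquare (a : ZMod p) := by
      by_contra hns
      rw [lg, if_neg hns] at h1'
      exact one_ne_zero h1'
    obtain ⟨s, hs⟩ := h2
    refine ⟨(s.val : ℤ), ?_⟩
    rw [← ZMod.intCast_zmod_eq_zero_iff_dvd]
    push_cast
    rw [ZMod.natCast_zmod_val, hs]
    ring

/-- Chinese remainder theorem -/
lemma sq_mod_Pb1 (a : ℤ) : ∀ n : ℕ, Squarefree n → (∀ p : ℕ, p.Prime → p ∣ n →
    ∃ t : ℤ, (p : ℤ) ∣ t ^ 2 - a) → ∃ t : ℤ, (n : ℤ) ∣ t ^ 2 - a := by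
  intro n
  induction n using Nat.strong_induction_on with
  | _ n ih =>
  intro hn h
  by_cases h1 : n = 1
  · exact ⟨0, by rw [h1]; simp⟩
  · have hqp : n.minFac.Prime := Nat.minFac_prime h1
    set q := n.minFac with hq
    obtain ⟨m, hm⟩ := Nat.minFac_dvd n
    rw [← hq] at hm
    have hn0 : n ≠ 0 := hn.ne_zero
    have hm0 : m ≠ 0 := fun h => hn0 (by rw [hm, h, mul_zero])
    have hmn : m < n := by
      have h3 : 2 ≤ q := hqp.two_le
      have h4 : 0 < m := Nat.pos_of_ne_zero hm0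
      rw [hm]
      nlinarith
    have hcop : Nat.Coprime q m := by
      rw [hm] at hn
      exact (Nat.squarefree_mul_iff.1 hn).1
    have hmsq : Squarefree m := by
      rw [hm] at hn
      exact (Nat.squarefree_mul_iff.1 hn).2.2
    obtain ⟨t1, ht1⟩ := h q hqp (by rw [hm]; exact dvd_mul_right _ _)
    obtain ⟨t2, ht2⟩ := ih m hmn hmsq (fun p hp hpm => h p hp (hpm.trans (by
      rw [hm]; exact dvd_mul_left _ _)))
    have hcz : IsCoprime (q : ℤ) (m : ℤ) := Nat.isCoprime_iff_coprime.2 hcop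
    obtain ⟨u, v, huv⟩ := hcz
    refine ⟨t2 * (u * q) + t1 * (v * m), ?_⟩
    rw [hm]
    push_cast
    apply IsCoprime.mul_dvd (Nat.isCoprime_iff_coprime.2 hcop)
    · obtain ⟨k, hk⟩ := ht1
      have e : v * (m : ℤ) = 1 - u * q := by linarith
      rw [e]
      refine ⟨k + (t2 - t1) * u * (2 * t1 + (t2 - t1) * (u * q)), ?_⟩
      linear_combination hk
    · obtain ⟨k, hk⟩ := ht2
      have e : u * (q : ℤ) = 1 - v * m := by linarith
      rw [e]
      refine ⟨k + (t1 - t2) * v * (2 * t2 + (t1 - t2) * (v * m)), ?_⟩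
      linear_combination hk

lemma exists_t_Pb1 {a b : ℤ} (h : Cond_Pb1 a b) (hb : Squarefree b) :
    ∃ t : ℤ, b ∣ t ^ 2 - a ∧ 2 * |t| ≤ |b| := by
  obtain ⟨t0, ht0⟩ := sq_mod_Pb1 a b.natAbs (Int.squarefree_natAbs.2 hb) (fun p hp hpb =>
    sq_mod_prime_Pb1 h hb p hp (Int.natCast_dvd.2 hpb))
  have hb0 : b ≠ 0 := h.2.1
  have hbpos : 0 < b.natAbs := Int.natAbs_pos.2 hb0
  have hdv : b ∣ (Int.bmod t0 b.natAbs) ^ 2 - a := by
    rw [← Int.natAbs_dvd]
    have h1 : ((b.natAbs : ℕ) : ℤ) ∣ t0 - Int.bmod t0 b.natAbs := by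
      exact Int.dvd_self_sub_bmod
    have e : (Int.bmod t0 b.natAbs) ^ 2 - a = (t0 ^ 2 - a) -
      (t0 - Int.bmod t0 b.natAbs) * (t0 + Int.bmod t0 b.natAbs) := by ring
    rw [e]
    exact dvd_sub ht0 (h1.mul_right _)
  refine ⟨Int.bmod t0 b.natAbs, hdv, ?_⟩
  have h1 := Int.le_bmod (x := t0) (m := b.natAbs) hbpos
  have h2 := Int.bmod_le (x := t0) (m := b.natAbs) hbpos
  have h3 : |b| = (b.natAbs : ℤ) := (Int.natCast_natAbs b).symm
  rw [h3]
  rcases abs_cases (Int.bmod t0 b.natAbs) with ⟨h4, _⟩ | ⟨h4, _⟩ <;> rw [h4] <;> omega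

lemma key_Pb1 (hPa : StPa) {a b : ℤ} (ih : ∀ a' b' : ℤ,
    a'.natAbs + b'.natAbs < a.natAbs + b.natAbs → Cond_Pb1 a' b' → Iso3 (a' : ℚ) (b' : ℚ))
    (hle : a.natAbs ≤ b.natAbs) (hb : Squarefree b) (h : Cond_Pb1 a b) :
    Iso3 (a : ℚ) (b : ℚ) := by
  obtain ⟨ha0, hb0, hsg, hsym⟩ := id h
  by_cases hb1 : b.natAbs = 1
  · have ha1 : a.natAbs = 1 := by
      have := Int.natAbs_pos.2 ha0
      omega
    rcases Int.natAbs_eq_iff.1 ha1 with h1 | h1
    · refine ⟨1, 1, 0, Or.inl one_ne_zero, ?_⟩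
      rw [h1]; norm_num
    · rcases Int.natAbs_eq_iff.1 hb1 with h2 | h2
      · refine ⟨1, 0, 1, Or.inl one_ne_zero, ?_⟩
        rw [h2]; norm_num
      · exfalso
        rw [h1, h2] at hsg
        simp at hsg
  · obtain ⟨t, ⟨b1, hb1'⟩, ht⟩ := exists_t_Pb1 h hb
    have hbpos := Int.natAbs_pos.2 hb0
    by_cases hz : b1 = 0
    · rw [hz, mul_zero] at hb1'
      refine ⟨t, 1, 0, Or.inr (Or.inl one_ne_zero), ?_⟩
      have : (t : ℚ) ^ 2 = a := by exact_mod_cast sub_eq_zero.1 hb1'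
      rw [this]; ring
    · have hlt : b1.natAbs < b.natAbs := by
        have h2 : (2 : ℤ) ≤ |b| := by
          rw [Int.abs_eq_natAbs]; exact_mod_cast (by omega : 2 ≤ b.natAbs)
        have h3 : |a| ≤ |b| := by
          rw [Int.abs_eq_natAbs, Int.abs_eq_natAbs]; exact_mod_cast hle
        have h4 : |b| * |b1| ≤ |t| ^ 2 + |a| := by
          rw [← abs_mul, ← hb1', sq_abs]
          calc |t ^ 2 - a| ≤ |t ^ 2| + |a| := abs_sub _ _
            _ = t ^ 2 + |a| := by rw [abs_of_nonneg (sq_nonneg t)]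
        have h5 : 4 * |t| ^ 2 ≤ |b| ^ 2 := by
          nlinarith [abs_nonneg t, abs_nonneg b]
        have h6 : |b1| < |b| := by
          by_contra hcon
          push Not at hcon
          nlinarith [abs_nonneg b, abs_nonneg b1]
        rw [Int.abs_eq_natAbs, Int.abs_eq_natAbs] at h6
        exact_mod_cast h6
      have hiso : ∀ P : Prm, Iso3 (a : ℚ_[(P : ℕ)]) ((b * b1 : ℤ) : ℚ_[(P : ℕ)]) := by
        intro P
        refine ⟨t, 1, 1, Or.inr (Or.inl one_ne_zero), ?_⟩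
        rw [← hb1']
        push_cast
        ring
      have hc : Cond_Pb1 a b1 := by
        refine ⟨ha0, hz, ?_, ?_⟩
        · rcases lt_or_gt_of_ne ha0 with h1 | h1
          · right
            have hbp : 0 < b := by
              rcases hsg with h2 | h2
              · exact absurd h2 (not_lt.2 h1.le)
              · exact h2
            have h3 : 0 < b * b1 := by
              rw [← hb1']
              nlinarith [sq_nonneg t]
            exact (mul_pos_iff_of_pos_left hbp).1 h3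
          · left; exact h1
        · intro P hP
          have hs' := hsSym_Pb1 P hP
          have h1 := hPa ℚ_[(P : ℕ)] (hs (P : ℕ)) hs' _ _ (cast_ne_Pb1 P ha0)
            (cast_ne_Pb1 P (mul_ne_zero hb0 hz)) (hiso P)
          rw [hs'.symm, Int.cast_mul, hs'.mul _ _ _ (cast_ne_Pb1 P hb0) (cast_ne_Pb1 P hz)
            (cast_ne_Pb1 P ha0), hs'.symm, hsym P hP, zero_add, hs'.symm] at h1
          exact h1
      obtain ⟨x, y, z, hne, hxyz⟩ := ih a b1 (by omega) hc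
      by_cases hz0 : z = 0
      · refine ⟨x, y, 0, ?_, ?_⟩
        · rcases hne with h | h | h
          · exact Or.inl h
          · exact Or.inr (Or.inl h)
          · exact absurd hz0 h
        · rw [hxyz, hz0]; ring
      · refine ⟨t * x + a * y, t * y + x, b1 * z, Or.inr (Or.inr (mul_ne_zero
          (by exact_mod_cast hz) hz0)), ?_⟩
        have e : (t : ℚ) ^ 2 - a = b * b1 := by exact_mod_cast hb1'
        linear_combination ((t : ℚ) ^ 2 - a) * hxyz + (b1 : ℚ) * z ^ 2 * e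

lemma main_Pb1 (hPa : StPa) : ∀ n : ℕ, ∀ a b : ℤ, a.natAbs + b.natAbs = n → Cond_Pb1 a b →
    Iso3 (a : ℚ) (b : ℚ) := by
  intro n
  induction n using Nat.strong_induction_on with
  | _ n ih =>
  intro a b hn h
  have ih' : ∀ a' b' : ℤ, a'.natAbs + b'.natAbs < a.natAbs + b.natAbs → Cond_Pb1 a' b' →
      Iso3 (a' : ℚ) (b' : ℚ) := fun a' b' hlt hc => ih _ (hn ▸ hlt) a' b' rfl hc
  have red : ∀ a b : ℤ, Cond_Pb1 a b → ¬ Squarefree a →
      ∃ u a' : ℤ, u ≠ 0 ∧ a = u * u * a' ∧ a'.natAbs < a.natAbs := by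
    intro a b h hsq
    rw [Squarefree] at hsq
    push Not at hsq
    obtain ⟨u, ⟨a', ha'⟩, hu⟩ := hsq
    have ha0 := h.1
    have hu0 : u ≠ 0 := by rintro rfl; simp at ha'; exact ha0 ha'
    have ha'0 : a' ≠ 0 := by rintro rfl; simp at ha'; exact ha0 ha'
    refine ⟨u, a', hu0, ha', ?_⟩
    rw [ha', Int.natAbs_mul, Int.natAbs_mul]
    have h1 : 2 ≤ u.natAbs := by
      have h2 := Int.natAbs_pos.2 hu0
      have h3 : u.natAbs ≠ 1 := fun h => hu (Int.isUnit_iff_natAbs_eq.2 h)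
      omega
    have h2 := Int.natAbs_pos.2 ha'0
    have h3 : 4 ≤ u.natAbs * u.natAbs := Nat.mul_le_mul h1 h1
    have h4 : 4 * a'.natAbs ≤ u.natAbs * u.natAbs * a'.natAbs := Nat.mul_le_mul_right _ h3
    omega
  by_cases hsa : Squarefree a
  · by_cases hsb : Squarefree b
    · rcases le_total a.natAbs b.natAbs with hle | hle
      · exact key_Pb1 hPa ih' hle hsb h
      · refine Iso_symm_Pb1 (key_Pb1 hPa (fun a' b' hlt hc => ih' a' b' (by omega) hc) hle hsa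
          (Cond_symm_Pb1 h))
    · obtain ⟨u, b', hu, hb', hlt⟩ := red b a (Cond_symm_Pb1 h) hsb
      have h1 : Cond_Pb1 b' a := Cond_sq_Pb1 (u := u) (by rw [← hb']; exact Cond_symm_Pb1 h)
      have h2 := ih' b' a (by omega) h1
      have h3 := Iso_sq_Pb1 hu h2
      rw [← hb'] at h3
      exact Iso_symm_Pb1 h3
  · obtain ⟨u, a', hu, ha', hlt⟩ := red a b h hsa
    have h1 : Cond_Pb1 a' b := Cond_sq_Pb1 (u := u) (by rw [← ha']; exact h)
    have h2 := ih' a' b (by omega) h1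
    have h3 := Iso_sq_Pb1 hu h2
    rwa [← ha'] at h3

theorem hPb1 (h1 : StPa) : StPb1 := by
  intro a b ha hb hsg hP
  refine main_Pb1 h1 _ a b rfl ⟨ha, hb, hsg, fun P hP2 => ?_⟩
  have := hP P hP2
  simpa using this

end Pool.Agent.Helper53.EP
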