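import Pool.Agent.Helper53.EP.StP

/-!
# EP module Pd: points near infinity
-/

set_option autoImplicit false

namespace Pool.Agent.Helper53.EP

open Polynomial Finset
open Pool.Agent.Helper54.HL (IrrBig)

theorem norm_root_Pd {K : Type} [Field K] (U : K[X]) (hU : U.Monic) :
    Algebra.norm K (AdjoinRoot.root U) = (-1) ^ U.natDegree * U.coeff 0 := by
  have h := Algebra.PowerBasis.norm_gen_eq_coeff_zero_minpoly (AdjoinRoot.powerBasis hU.ne_zero)
  rw [AdjoinRoot.minpoly_powerBasis_gen_of_monic hU, AdjoinRoot.powerBasis_gen,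
    AdjoinRoot.powerBasis_dim] at h
  exact h

theorem hPd (h1 : StPd1) (h2 : StPd2) : StPd := by
  intro p _ hp D hD n f hf hfn U V hU hUi hUb hdvd
  obtain ⟨δ, hδ⟩ := h2 p hp D hD n f hf hfn U V hU hUi hUb hdvd
  haveI : Fact (Irreducible U) := ⟨hUi⟩
  haveI : Module.Finite ℚ_[p] (AdjoinRoot U) := (AdjoinRoot.powerBasis hU.ne_zero).finite
  have hy : AdjoinRoot.root U ≠ 0 := by
    intro h0
    have hn := norm_root_Pd U hU
    rw [h0, Algebra.norm_zero] at hn
    have := mul_ne_zero (pow_ne_zero U.natDegree (neg_ne_zero.2 (one_ne_zero (α := ℚ_[p])))) hUb.1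
    exact this hn.symm
  have h3 := h1 p hp D hD (AdjoinRoot U) δ hδ (AdjoinRoot.root U) hy
  rw [norm_root_Pd U hU] at h3
  have h5 : ((-1 : ℚ_[p])).valuation = 0 := by
    have := Padic.valuation_intCast (p := p) (-1)
    push_cast at this
    rw [this]
    simp [padicValInt]
  rw [Padic.valuation_mul (pow_ne_zero _ (neg_ne_zero.2 one_ne_zero)) hUb.1,
    Padic.valuation_pow, h5, mul_zero, zero_add] at h3
  exact h3

end Pool.Agent.Helper53.EP
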