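import Pool.Agent.Helper53.EP.StP

/-!
# EP, module Pd1: norms from extensions which contain a square root of a nonsquare unit
-/

set_option autoImplicit false

namespace Pool.Agent.Helper53.EP

open Polynomial Finset

private lemma toZMod_eq_zero_Pd1 (p : ℕ) [Fact p.Prime] (x : ℤ_[p]) (h : ‖x‖ < 1) :
    PadicInt.toZMod x = 0 := by
  have h1 : x ∈ RingHom.ker (PadicInt.toZMod (p := p)) := by
    rw [PadicInt.ker_toZMod, PadicInt.maximalIdeal_eq_span_p, Ideal.mem_span_singleton,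
      ← PadicInt.norm_lt_one_iff_dvd]
    exact h
  exact h1

private lemma norm_int_Pd1 (p : ℕ) [Fact p.Prime] (D : ℤ) (hD : ¬ IsSquare (D : ZMod p)) :
    ‖((D : ℤ) : ℚ_[p])‖ = 1 := by
  have h1 : ¬ (p : ℤ) ∣ D := by
    intro h
    apply hD
    rw [(ZMod.intCast_zmod_eq_zero_iff_dvd D p).2 h]
    exact ⟨0, (mul_zero 0).symm⟩
  refine le_antisymm (Padic.norm_int_le_one D) (not_lt.1 fun h => h1 ?_)
  exact Padic.norm_intCast_lt_one_iff.1 h

private lemma norm_form_Pd1 (p : ℕ) [Fact p.Prime] (D : ℤ) (hD : ¬ IsSquare (D : ZMod p))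
    (a b : ℚ_[p]) : ‖a * a - (D : ℚ_[p]) * b * b‖ = (max ‖a‖ ‖b‖) ^ 2 := by
  have hD1 := norm_int_Pd1 p D hD
  have hn1 : ‖a * a‖ = ‖a‖ ^ 2 := by rw [norm_mul, sq]
  have hn2 : ‖-((D : ℚ_[p]) * b * b)‖ = ‖b‖ ^ 2 := by
    rw [norm_neg, norm_mul, norm_mul, hD1, one_mul, sq]
  by_cases hab : ‖a‖ = ‖b‖
  · rw [hab, max_self]
    by_cases hb : b = 0
    · have ha : a = 0 := by rw [← norm_eq_zero, hab, hb, norm_zero]
      rw [ha, hb]
      simp
    have hb0 : 0 < ‖b‖ := norm_pos_iff.2 hb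
    set t : ℚ_[p] := a / b with ht
    have htn : ‖t‖ = 1 := by rw [ht, norm_div, hab, div_self hb0.ne']
    have e1 : a * a - (D : ℚ_[p]) * b * b = b * b * (t * t - (D : ℚ_[p])) := by
      rw [ht]
      field_simp
    rw [e1, norm_mul, norm_mul]
    have h1 : ‖t * t - (D : ℚ_[p])‖ = 1 := by
      let t' : ℤ_[p] := ⟨t, htn.le⟩
      have h2 : t * t - (D : ℚ_[p]) = ((t' * t' - (D : ℤ_[p]) : ℤ_[p]) : ℚ_[p]) := by
        push_cast
        rfl
      rw [h2, ← PadicInt.norm_def]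
      refine le_antisymm (PadicInt.norm_le_one _) (not_lt.1 fun h => hD ?_)
      have h3 := toZMod_eq_zero_Pd1 p _ h
      rw [map_sub, map_mul, map_intCast, sub_eq_zero] at h3
      exact ⟨_, h3.symm⟩
    rw [h1, mul_one, sq]
  · have h1 : ‖a * a‖ ≠ ‖-((D : ℚ_[p]) * b * b)‖ := by
      rw [hn1, hn2]
      intro h
      exact hab ((sq_eq_sq₀ (norm_nonneg a) (norm_nonneg b)).1 h)
    rw [sub_eq_add_neg, Padic.add_eq_max_of_ne h1, hn1, hn2]
    rcases le_total ‖a‖ ‖b‖ with h | h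
    · rw [max_eq_right h, max_eq_right (pow_le_pow_left₀ (norm_nonneg a) h 2)]
    · rw [max_eq_left h, max_eq_left (pow_le_pow_left₀ (norm_nonneg b) h 2)]

private lemma even_Pd1 (p : ℕ) [hp : Fact p.Prime] {x c : ℚ_[p]} (hx : x ≠ 0)
    (h : ‖x‖ = ‖c‖ ^ 2) : Even x.valuation := by
  have hc : c ≠ 0 := by
    rintro rfl
    rw [norm_zero, zero_pow two_ne_zero, norm_eq_zero] at h
    exact hx h
  have hp1 : (1 : ℝ) < p := by exact_mod_cast hp.out.one_lt
  rw [Padic.norm_eq_zpow_neg_valuation hx, Padic.norm_eq_zpow_neg_valuation hc, ← zpow_natCast,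
    ← zpow_mul] at h
  have h1 := zpow_right_injective₀ (by positivity) hp1.ne' h
  refine ⟨c.valuation, ?_⟩
  push_cast at h1
  linarith

theorem hPd1 : StPd1 := by
  intro p hp hp2 D hD F _ _ _ δ hδ y hy
  let d : ℚ_[p] := (D : ℚ_[p])
  have hfact : Fact (∀ r : ℚ_[p], r ^ 2 ≠ d + 0 * r) := by
    refine ⟨fun r hr => ?_⟩
    rw [zero_mul, add_zero] at hr
    have h1 := norm_form_Pd1 p D hD r 1
    have h2 : r * r - (D : ℚ_[p]) * 1 * 1 = 0 := by
      rw [mul_one, mul_one, ← sq, hr, sub_self]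
    rw [h2, norm_zero, norm_one] at h1
    have h3 : (1 : ℝ) ≤ (max ‖r‖ 1) ^ 2 := one_le_pow₀ (le_max_right _ _)
    linarith
  let K := QuadraticAlgebra ℚ_[p] d 0
  have hδ' : δ * δ = d • (1 : F) + (0 : ℚ_[p]) • δ := by
    rw [zero_smul, add_zero, ← sq, hδ, Algebra.smul_def, mul_one]
    exact (map_intCast (algebraMap ℚ_[p] F) D).symm
  let φ : K →ₐ[ℚ_[p]] F := QuadraticAlgebra.lift ⟨δ, hδ'⟩
  letI : Algebra K F := φ.toRingHom.toAlgebra
  haveI : IsScalarTower ℚ_[p] K F := IsScalarTower.of_algebraMap_eq fun x =>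
    (φ.commutes x).symm
  have hN : Algebra.norm ℚ_[p] y = Algebra.norm ℚ_[p] (Algebra.norm K y) :=
    Algebra.norm_norm.symm
  set z : K := Algebra.norm K y with hz
  have hz2 : Algebra.norm ℚ_[p] z = z.re * z.re - (D : ℚ_[p]) * z.im * z.im := by
    have h1 : Algebra.norm ℚ_[p] z = z.norm := by
      rw [← QuadraticAlgebra.det_toLinearMap_eq_norm, Algebra.norm_apply]
      rfl
    rw [h1, QuadraticAlgebra.norm_def]
    change z.re * z.re + 0 * z.re * z.im - d * z.im * z.im = _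
    ring
  have hy' : Algebra.norm ℚ_[p] y ≠ 0 := Algebra.norm_ne_zero_iff.2 hy
  have h1 : ‖Algebra.norm ℚ_[p] y‖ = (max ‖z.re‖ ‖z.im‖) ^ 2 := by
    rw [hN, hz2, norm_form_Pd1 p D hD]
  rcases le_total ‖z.re‖ ‖z.im‖ with h | h
  · rw [max_eq_right h] at h1
    exact even_Pd1 p hy' h1
  · rw [max_eq_left h] at h1
    exact even_Pd1 p hy' h1

end Pool.Agent.Helper53.EP
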