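import Pool.Agent.Helper53.EP.StP

/-!
# EP, module Pd2 (points near infinity)

Proof: a root `u` of `U` in `PadicAlgCl p` has `‖u‖ > 1`; `V(u) / u ^ n` is close to a square root of `D`;
Krasner's lemma.
-/

set_option autoImplicit false

namespace Pool.Agent.Helper53.EP

open Polynomial Finset
open Pool.Agent.Helper54.HL (IrrBig)

/-- A root of a polynomial with dominating constant coefficient has norm larger than one. -/
private theorem one_lt_norm_Pd2 (p : ℕ) [Fact p.Prime] (U : ℚ_[p][X]) (hU : IrrBig (p : ℤ_[p]) U)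
    (u : PadicAlgCl p) (hu : aeval u U = 0) : 1 < ‖u‖ := by
  obtain ⟨h0, hl⟩ := hU
  by_contra hle
  push Not at hle
  have hp1 : ‖(p : ℚ_[p])‖ < 1 := by
    rw [Padic.norm_p]
    exact inv_lt_one_of_one_lt₀ (by exact_mod_cast (Fact.out : p.Prime).one_lt)
  have h0' : 0 < ‖U.coeff 0‖ := norm_pos_iff.mpr h0
  -- the coefficients
  have hc : ∀ l : ℕ, 1 ≤ l → ‖U.coeff l‖ ≤ ‖U.coeff 0‖ * ‖(p : ℚ_[p])‖ := by
    intro l hl1
    obtain ⟨c, hc⟩ := hl l hl1
    rw [hc, norm_mul]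
    refine mul_le_mul_of_nonneg_left ?_ (norm_nonneg _)
    rw [map_mul, norm_mul]
    have h2 : ‖algebraMap ℤ_[p] ℚ_[p] c‖ ≤ 1 := c.2
    have h3 : ‖algebraMap ℤ_[p] ℚ_[p] (p : ℤ_[p])‖ = ‖(p : ℚ_[p])‖ := by
      rw [map_natCast]
    rw [h3]
    calc ‖(p : ℚ_[p])‖ * ‖algebraMap ℤ_[p] ℚ_[p] c‖ ≤ ‖(p : ℚ_[p])‖ * 1 :=
          mul_le_mul_of_nonneg_left h2 (norm_nonneg _)
      _ = _ := mul_one _
  rw [aeval_eq_sum_range, Finset.sum_range_succ'] at hu
  have h1 : ‖∑ k ∈ range U.natDegree, U.coeff (k + 1) • u ^ (k + 1)‖ ≤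
      ‖U.coeff 0‖ * ‖(p : ℚ_[p])‖ := by
    refine IsUltrametricDist.norm_sum_le_of_forall_le_of_nonneg (by positivity) ?_
    intro k _
    rw [norm_smul, norm_pow]
    calc ‖U.coeff (k + 1)‖ * ‖u‖ ^ (k + 1) ≤ ‖U.coeff (k + 1)‖ * 1 :=
          mul_le_mul_of_nonneg_left (pow_le_one₀ (norm_nonneg _) hle) (norm_nonneg _)
      _ ≤ _ := by rw [mul_one]; exact hc _ (by omega)
  have h2 : U.coeff 0 • u ^ 0 = - ∑ k ∈ range U.natDegree, U.coeff (k + 1) • u ^ (k + 1) := by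
    linear_combination hu
  have h3 : ‖U.coeff 0‖ ≤ ‖U.coeff 0‖ * ‖(p : ℚ_[p])‖ := by
    have h4 : ‖U.coeff 0 • u ^ 0‖ = ‖U.coeff 0‖ := by
      rw [norm_smul, pow_zero, norm_one, mul_one]
    have h5 : ‖U.coeff 0 • u ^ 0‖ ≤ ‖U.coeff 0‖ * ‖(p : ℚ_[p])‖ := by
      rw [h2, norm_neg]
      exact h1
    rw [h4] at h5
    exact h5
  nlinarith

/-- `f(u)` is close to `u ^ m` for a monic polynomial of degree `m` over `ℤ_p`. -/
private theorem norm_sub_lt_Pd2 (p : ℕ) [Fact p.Prime] (f : ℤ_[p][X]) (hf : f.Monic)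
    (u : PadicAlgCl p) (hu : 1 < ‖u‖) :
    ‖aeval u (f.map (algebraMap ℤ_[p] ℚ_[p])) - u ^ f.natDegree‖ < ‖u‖ ^ f.natDegree := by
  have hpos : 0 < ‖u‖ := by linarith
  have hfm : (f.map (algebraMap ℤ_[p] ℚ_[p])).Monic := hf.map _
  have hdeg : (f.map (algebraMap ℤ_[p] ℚ_[p])).natDegree = f.natDegree := hf.natDegree_map _
  rw [aeval_eq_sum_range, Finset.sum_range_succ, hdeg]
  have hlc : (f.map (algebraMap ℤ_[p] ℚ_[p])).coeff f.natDegree = 1 := by
    rw [← hdeg]; exact hfm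
  rw [hlc, one_smul, add_sub_cancel_right]
  rcases Nat.eq_zero_or_pos f.natDegree with h | h
  · rw [h]
    simp
  have h1 : ‖∑ x ∈ range f.natDegree, (f.map (algebraMap ℤ_[p] ℚ_[p])).coeff x • u ^ x‖ ≤
      ‖u‖ ^ (f.natDegree - 1) := by
    refine IsUltrametricDist.norm_sum_le_of_forall_le_of_nonneg (by positivity) ?_
    intro k hk
    have hk' := Finset.mem_range.mp hk
    rw [norm_smul, norm_pow, coeff_map]
    have h2 : ‖algebraMap ℤ_[p] ℚ_[p] (f.coeff k)‖ ≤ 1 := (f.coeff k).2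
    calc ‖algebraMap ℤ_[p] ℚ_[p] (f.coeff k)‖ * ‖u‖ ^ k ≤ 1 * ‖u‖ ^ k :=
          mul_le_mul_of_nonneg_right h2 (by positivity)
      _ = ‖u‖ ^ k := one_mul _
      _ ≤ _ := pow_le_pow_right₀ hu.le (by omega)
  refine lt_of_le_of_lt h1 ?_
  exact pow_lt_pow_right₀ hu (by omega)

theorem hPd2 : StPd2 := by
  intro p hp hp2 D hD n f hfm hfd U V hUm hUi hUb hdvd
  have : Fact (Irreducible U) := ⟨hUi⟩
  have : Module.Finite ℚ_[p] (AdjoinRoot U) := hUm.finite_adjoinRoot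
  let φ : AdjoinRoot U →ₐ[ℚ_[p]] PadicAlgCl p := IsAlgClosed.lift
  set u : PadicAlgCl p := φ (AdjoinRoot.root U) with hu
  have hroot : aeval u U = 0 := by
    rw [hu, aeval_algHom_apply, AdjoinRoot.aeval_eq, AdjoinRoot.mk_self, map_zero]
  have hu1 : 1 < ‖u‖ := one_lt_norm_Pd2 p U hUb u hroot
  have hupos : 0 < ‖u‖ := by linarith
  have hu0 : u ≠ 0 := norm_pos_iff.mp hupos
  have hf1 := norm_sub_lt_Pd2 p f hfm u hu1
  rw [hfd] at hf1
  -- the equation `D f(u) = V(u) ^ 2`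
  have heq : (D : PadicAlgCl p) * aeval u (f.map (algebraMap ℤ_[p] ℚ_[p])) = (aeval u V) ^ 2 := by
    obtain ⟨q, hq⟩ := hdvd
    have := congrArg (aeval u) hq
    rw [map_sub, map_mul, map_mul, hroot, zero_mul, aeval_C, map_intCast, map_pow] at this
    linear_combination this
  -- `‖D‖ = 1`
  have hDn : ‖(D : PadicAlgCl p)‖ = 1 := by
    have h1 : ‖(D : ℚ_[p])‖ = 1 := by
      have h2 : ¬ ((p : ℤ) ∣ D) := by
        intro h
        apply hD
        rw [(ZMod.intCast_zmod_eq_zero_iff_dvd D p).mpr h]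
        exact ⟨0, by simp⟩
      have h3 : ‖(D : ℚ_[p])‖ ≤ 1 := Padic.norm_int_le_one D
      rcases lt_or_eq_of_le h3 with h | h
      · exact absurd (Padic.norm_intCast_lt_one_iff.mp h) h2
      · exact h
    rw [← map_intCast (algebraMap ℚ_[p] (PadicAlgCl p)), PadicAlgCl.norm_extends, h1]
  have h2n : ‖(2 : PadicAlgCl p)‖ = 1 := by
    have h1 : ‖((2 : ℤ) : ℚ_[p])‖ = 1 := by
      have h2 : ¬ ((p : ℤ) ∣ 2) := by
        intro h
        have h' : p ∣ 2 := by exact_mod_cast h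
        rcases (Nat.dvd_prime Nat.prime_two).mp h' with h | h
        · exact hp.out.one_lt.ne' h
        · exact hp2 h
      have h3 : ‖((2 : ℤ) : ℚ_[p])‖ ≤ 1 := Padic.norm_int_le_one 2
      rcases lt_or_eq_of_le h3 with h | h
      · exact absurd (Padic.norm_intCast_lt_one_iff.mp h) h2
      · exact h
    have h2 : (2 : PadicAlgCl p) = algebraMap ℚ_[p] (PadicAlgCl p) ((2 : ℤ) : ℚ_[p]) := by
      rw [map_intCast]; norm_num
    rw [h2, PadicAlgCl.norm_extends, h1]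
  -- a square root of `D`
  obtain ⟨δ₀, hδ₀⟩ := IsAlgClosed.exists_pow_nat_eq (D : PadicAlgCl p) (n := 2) (by norm_num)
  set w : PadicAlgCl p := aeval u V / u ^ n with hw
  have hw2 : w ^ 2 - D = D * (aeval u (f.map (algebraMap ℤ_[p] ℚ_[p])) - u ^ (2 * n)) / u ^ (2 * n) := by
    rw [hw, div_pow, ← heq]
    field_simp
    ring
  have hw3 : ‖w ^ 2 - D‖ < 1 := by
    rw [hw2, norm_div, norm_mul, hDn, one_mul, norm_pow]
    rw [div_lt_one (by positivity)]
    exact hf1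
  have hprod : ‖w - δ₀‖ * ‖w + δ₀‖ < 1 := by
    rw [← norm_mul]
    have : (w - δ₀) * (w + δ₀) = w ^ 2 - D := by rw [← hδ₀]; ring
    rw [this]
    exact hw3
  obtain ⟨δ, hδ, hwδ⟩ : ∃ δ : PadicAlgCl p, δ ^ 2 = (D : PadicAlgCl p) ∧ ‖δ - w‖ < 1 := by
    by_cases h : ‖w - δ₀‖ < 1
    · exact ⟨δ₀, hδ₀, by rw [norm_sub_rev]; exact h⟩
    · push Not at h
      refine ⟨-δ₀, by rw [neg_sq, hδ₀], ?_⟩
      have h1 : ‖w + δ₀‖ < 1 := by
        by_contra h2
        push Not at h2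
        nlinarith [norm_nonneg (w - δ₀), norm_nonneg (w + δ₀)]
      have : -δ₀ - w = -(w + δ₀) := by ring
      rw [this, norm_neg]
      exact h1
  have hδn : ‖δ‖ = 1 := by
    have h1 : ‖δ‖ ^ 2 = 1 := by rw [← norm_pow, hδ, hDn]
    nlinarith [norm_nonneg δ]
  -- Krasner
  have hint : IsIntegral ℚ_[p] δ := Algebra.IsIntegral.isIntegral δ
  have hwint : IsIntegral ℚ_[p] w := Algebra.IsIntegral.isIntegral w
  have hmem : δ ∈ IntermediateField.adjoin ℚ_[p] {w} := by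
    refine IsKrasner.krasner (minpoly.irreducible hint).separable (IsAlgClosed.splits _) hwint ?_
    intro x' hx' hne
    have h1 : x' ^ 2 = (D : PadicAlgCl p) := by
      have h2 : aeval δ (X ^ 2 - C (D : ℚ_[p])) = 0 := by
        simp [hδ]
      have h3 : aeval x' (minpoly ℚ_[p] δ) = 0 := by
        have h6 : minpoly ℚ_[p] δ = minpoly ℚ_[p] x' := hx'
        rw [h6]
        exact minpoly.aeval _ _
      have h4 := minpoly.dvd ℚ_[p] δ h2
      have h5 : aeval x' (X ^ 2 - C (D : ℚ_[p])) = 0 := by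
        obtain ⟨q, hq⟩ := h4
        rw [hq, map_mul, h3, zero_mul]
      simp only [map_sub, map_pow, aeval_X, map_intCast] at h5
      linear_combination h5
    have h2 : x' = -δ := by
      have h3 : (x' - δ) * (x' + δ) = 0 := by
        linear_combination h1 - hδ
      rcases mul_eq_zero.mp h3 with h | h
      · exact absurd (sub_eq_zero.mp h).symm hne
      · exact eq_neg_of_add_eq_zero_left h
    rw [h2]
    have h3 : δ - -δ = 2 * δ := by ring
    rw [h3, norm_mul, h2n, hδn, one_mul]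
    exact hwδ
  have hw' : w ∈ φ.fieldRange := by
    refine ⟨aeval (AdjoinRoot.root U) V / AdjoinRoot.root U ^ n, ?_⟩
    rw [hw]
    change φ _ = _
    rw [map_div₀, map_pow, ← aeval_algHom_apply]
  have hle : IntermediateField.adjoin ℚ_[p] {w} ≤ φ.fieldRange := by
    rw [IntermediateField.adjoin_simple_le_iff]
    exact hw'
  obtain ⟨δ', hδ'⟩ := hle hmem
  change φ δ' = δ at hδ'
  refine ⟨δ', ?_⟩
  have hinj : Function.Injective φ := φ.toRingHom.injective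
  apply hinj
  rw [map_pow, hδ', map_intCast, hδ]

end Pool.Agent.Helper53.EP
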