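import Pool.Agent.Helper53.EP.StP
import Pool.Agent.Helper54.HQ.Base
import Pool.Agent.Helper54.HQ.M_LD
import Pool.Agent.Helper54.HQ.M_IN
import Pool.Agent.Helper54.HQ.M_EI
import Pool.Agent.Helper54.HQ.M_NV
import Pool.Agent.Helper54.HQ.M_DE
import Pool.Agent.Helper54.HQ.M_NO
import Pool.Agent.Helper54.HQ.M_OV
import Pool.Agent.Helper54.HQ.M_UQ
import Pool.Agent.Helper54.HL.All

/-!
# EP module Pe: even valuations
-/

set_option autoImplicit false

namespace Pool.Agent.Helper53.EP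

open Polynomial IsDedekindDomain
open Pool.Agent.Helper54.HQ (Prm pz factPrm fK RR LL algRL th kp red TwAt EvenAt Over LD StLD StIN
  StEI StNV pz_prime pz_ne_zero algebraMap_castRingHom baseChange_mk_NO isUnit_i_NO)
open Pool.Agent.Helper54.HL (tk IrrInt IrrBig Nr IsTwIrr)
open Pool.Agent.Helper3.HY (baseChange twGroup)

section

variable {f : ℤ[X]} [Fact (Irreducible (fK f))] [IsDedekindDomain (RR f)]
  [IsFractionRing (RR f) (LL f)]

/-- The units with even valuation at all primes above `P`. -/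
private noncomputable def Cl_Pe (P : Prm) (f : ℤ[X]) [Fact (Irreducible (fK f))]
    [IsDedekindDomain (RR f)] [IsFractionRing (RR f) (LL f)] : Subgroup (LL f)ˣ where
  carrier := {z | ∀ q : HeightOneSpectrum (RR f), Over P q → EvenAt q (z : LL f)}
  mul_mem' := by
    intro a b ha hb q hq
    have h1 := ha q hq
    have h2 := hb q hq
    unfold EvenAt at h1 h2 ⊢
    rw [Units.val_mul, map_mul]
    exact h1.mul h2
  one_mem' := by
    intro q hq
    unfold EvenAt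
    rw [Units.val_one, map_one]
    exact IsSquare.one
  inv_mem' := by
    intro a ha q hq
    have h1 := ha q hq
    unfold EvenAt at h1 ⊢
    rw [Units.val_inv_eq_inv_val, map_inv₀]
    exact h1.inv

private lemma mem_Cl_Pe {P : Prm} {z : (LL f)ˣ} : z ∈ Cl_Pe P f ↔
    ∀ q : HeightOneSpectrum (RR f), Over P q → EvenAt q (z : LL f) := Iff.rfl

private lemma even_int_Pe {P : Prm} {q : HeightOneSpectrum (RR f)} (hq : Over P q) {a : ℤ}
    (ha : ¬ pz P ∣ a) : q.valuation (LL f) (Int.castRingHom (LL f) a) = 1 := by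
  have haq : Int.castRingHom (RR f) a ∉ q.asIdeal := by
    intro hmem
    have hcop : IsCoprime (pz P) a := ((pz_prime P).coprime_iff_not_dvd).2 ha
    obtain ⟨u, w, huw⟩ := hcop
    have h1 : (1 : RR f) ∈ q.asIdeal := by
      rw [← map_one (Int.castRingHom (RR f)), ← huw, map_add, map_mul, map_mul]
      exact q.asIdeal.add_mem (q.asIdeal.mul_mem_left _ hq) (q.asIdeal.mul_mem_left _ hmem)
    exact q.isPrime.ne_top ((Ideal.eq_top_iff_one _).2 h1)
  rw [← algebraMap_castRingHom]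
  exact HeightOneSpectrum.valuation_eq_one_iff_notMem q |>.2 haq

end

private lemma big_form_Pe {O k : Type} [CommRing O] [Field k] [Algebra O k] (π : O) (U : k[X])
    (h : ∀ l : ℕ, 1 ≤ l → ∃ c : O, U.coeff l = U.coeff 0 * algebraMap O k (π * c)) :
    ∃ p : O[X], U = C (U.coeff 0) * (1 + C (algebraMap O k π) * tk k p) := by
  choose! c hc using h
  refine ⟨∑ l ∈ Finset.Icc 1 U.natDegree, C (c l) * X ^ l, ?_⟩
  ext l
  rw [coeff_C_mul, coeff_add, coeff_C_mul, tk, coeff_map, finsetSum_coeff]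
  simp only [coeff_C_mul_X_pow]
  rw [Finset.sum_ite_eq (Finset.Icc 1 U.natDegree) l (fun i => c i), coeff_one]
  by_cases hl : l = 0
  · subst hl; simp
  · rw [if_neg hl, zero_add]
    by_cases hl2 : l ≤ U.natDegree
    · rw [if_pos (Finset.mem_Icc.2 ⟨by omega, hl2⟩), ← map_mul, hc l (by omega)]
    · rw [if_neg (fun h => hl2 (Finset.mem_Icc.1 h).2), map_zero, mul_zero, mul_zero,
        coeff_eq_zero_of_natDegree_lt (by omega)]

/-- an element of even valuation is the square of a power of `p` times a unit -/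
private lemma even_val_Pe (p : ℕ) [Fact p.Prime] (a : ℚ_[p]) (ha : a ≠ 0) (h : Even a.valuation) :
    ∃ (r : ℤ) (u : ℤ_[p]), IsUnit u ∧ a = ((p : ℚ_[p]) ^ r) ^ 2 * (u : ℚ_[p]) := by
  obtain ⟨r, hr⟩ := h
  have hp0 : (p : ℚ_[p]) ≠ 0 := by exact_mod_cast (Fact.out : p.Prime).ne_zero
  have hn : ‖a * ((p : ℚ_[p]) ^ r)⁻¹ ^ 2‖ = 1 := by
    rw [norm_mul, norm_pow, norm_inv, norm_zpow, Padic.norm_p, Padic.norm_eq_zpow_neg_valuation ha,
      hr]
    have hpR : (p : ℝ) ≠ 0 := by exact_mod_cast (Fact.out : p.Prime).ne_zero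
    rw [inv_zpow, inv_inv, ← zpow_natCast, ← zpow_mul, ← zpow_add₀ hpR]
    have : -(r + r) + r * ((2 : ℕ) : ℤ) = 0 := by push_cast; ring
    rw [this, zpow_zero]
  refine ⟨r, ⟨a * ((p : ℚ_[p]) ^ r)⁻¹ ^ 2, hn.le⟩, PadicInt.isUnit_iff.2 hn, ?_⟩
  have h1 : ((p : ℚ_[p]) ^ r) ≠ 0 := zpow_ne_zero _ hp0
  change a = ((p : ℚ_[p]) ^ r) ^ 2 * (a * ((p : ℚ_[p]) ^ r)⁻¹ ^ 2)
  field_simp

private theorem main_Pe (h1 : StLD) (h2 : StIN) (h3 : StEI) (h5 : StNV)
    (h7 : Pool.Agent.Helper54.HL.StNG) (h8 : StPd) : StPe := by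
  intro n hn f hf hdeg _ _ _ P D hP2 hPD z hz q hq
  obtain ⟨i, ρ, hLD, _, hirr⟩ := h1 P
  have hD : ¬ pz P ∣ D := by
    intro hd
    apply hPD
    have h0 : (D : ZMod (P : ℕ)) = 0 := (ZMod.intCast_zmod_eq_zero_iff_dvd D (P : ℕ)).2 hd
    rw [h0]
    exact IsSquare.zero
  have hTw : Units.map (baseChange (algebraMap ℚ ℚ_[(P : ℕ)]) (fK f) : LL f →* _) z ∈
      twGroup ((fK f).map (algebraMap ℚ ℚ_[(P : ℕ)]))
        (algebraMap ℚ ℚ_[(P : ℕ)] (Int.castRingHom ℚ D)) := hz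
  have hjD : algebraMap ℚ ℚ_[(P : ℕ)] (Int.castRingHom ℚ D) = (D : ℚ_[(P : ℕ)]) := by
    rw [eq_intCast, map_intCast]
  have hji : ∀ a : ℤ, algebraMap ℚ ℚ_[(P : ℕ)] (Int.castRingHom ℚ a) = ((i a : ℤ_[(P : ℕ)]) : ℚ_[(P : ℕ)]) :=
    fun a => (hLD.comp a).symm
  have hipz : i (pz P) = ((P : ℕ) : ℤ_[(P : ℕ)]) := by
    rw [eq_intCast]; push_cast; rfl
  generalize hj : algebraMap ℚ ℚ_[(P : ℕ)] = j at hLD hTw hjD hji
  set Dk : ℚ_[(P : ℕ)] := j (Int.castRingHom ℚ D) with hDk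
  have hD0 : D ≠ 0 := by rintro rfl; exact hD (dvd_zero _)
  have hDk0 : Dk ≠ 0 := by
    rw [hDk, Ne, map_eq_zero, eq_intCast, Int.cast_eq_zero]
    exact hD0
  have hmem : z ∈ Cl_Pe P f := by
    refine h2 f hf P ℤ_[(P : ℕ)] ℚ_[(P : ℕ)] i j ρ hLD Dk hDk0 (Cl_Pe P f) ?_ ?_ ?_ z hTw
    · intro z hz q hq
      have := (h5 f hf P q hq (z : LL f) hz).2
      unfold EvenAt
      rw [this]; exact IsSquare.one
    · intro z q hq
      unfold EvenAt
      rw [Units.val_pow_eq_pow_val, map_pow]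
      exact IsSquare.sq _
    · rintro y y' hyy ⟨U, V, hU, hUirr, hcop, hdiv, hy⟩
      rcases hirr U hU hUirr with hI | hB
      · have e : AdjoinRoot.mk ((fK f).map j)
            (C (-j (Int.castRingHom ℚ D)) ^ U.natDegree * U) * y' = 1 := by
          rw [← hDk, ← hy]; exact hyy
        obtain ⟨z, hz1, hz2⟩ := h3 f hf P ℤ_[(P : ℕ)] ℚ_[(P : ℕ)] i j ρ hP2 hLD D hD U V hUirr hcop
          hdiv hI y' e
        exact ⟨z, hz1, hz2⟩
      · have hmap : (fK f).map j = tk ℚ_[(P : ℕ)] (f.map i) := hLD.map f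
        have hf₀ : (f.map i).Monic := hf.map i
        have hdeg₀ : (f.map i).natDegree = 2 * n := by rw [hf.natDegree_map, hdeg]
        -- the even valuation
        have hB' : IrrBig (((P : ℕ) : ℤ_[(P : ℕ)])) U := by rw [← hipz]; exact hB
        have hdiv' : U ∣ C (D : ℚ_[(P : ℕ)]) *
            (f.map i).map (algebraMap ℤ_[(P : ℕ)] ℚ_[(P : ℕ)]) - V ^ 2 := by
          have h9 : (f.map i).map (algebraMap ℤ_[(P : ℕ)] ℚ_[(P : ℕ)]) = (fK f).map j := hmap.symm
          rw [h9, ← hjD]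
          exact hdiv
        have hev := h8 (P : ℕ) hP2 D hPD n (f.map i) hf₀ hdeg₀ U V hU hUirr hB' hdiv'
        obtain ⟨hU0, hbig⟩ := hB
        obtain ⟨p, hp⟩ := big_form_Pe (i (pz P)) U hbig
        obtain ⟨r, u, hu, hur⟩ := even_val_Pe (P : ℕ) (U.coeff 0) hU0 hev
        obtain ⟨hmul, hinv, -⟩ := h7 ℤ_[(P : ℕ)] ℚ_[(P : ℕ)] (i (pz P)) hLD.unif (f.map i) hf₀
          ((fK f).map j) hmap
        set m := U.natDegree with hm
        set w0 : AdjoinRoot ((fK f).map j) := 1 + AdjoinRoot.mk ((fK f).map j)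
          (C (algebraMap ℤ_[(P : ℕ)] ℚ_[(P : ℕ)] (i (pz P))) * tk ℚ_[(P : ℕ)] p) with hw0
        have hw0N : Nr (i (pz P)) w0 := ⟨p, rfl⟩
        obtain ⟨w1, hw01, hw1⟩ := hinv w0 hw0N
        -- the unit
        have hiD : IsUnit (i D) := isUnit_i_NO hLD hD
        set u₀ : ℤ_[(P : ℕ)] := (-(i D)) ^ m * u with hu₀
        have hu₀u : IsUnit u₀ := (hiD.neg.pow m).mul hu
        obtain ⟨v, hv⟩ := hu₀u.exists_right_inv
        obtain ⟨b, t, hbt⟩ := hLD.dense u₀ 1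
        rw [pow_one] at hbt
        have hb : ¬ pz P ∣ b := by
          rintro ⟨b', rfl⟩
          apply hLD.unif.not_isUnit
          have h10 : u₀ = i (pz P) * (t + i b') := by
            rw [map_mul] at hbt
            linear_combination hbt
          rw [h10] at hu₀u
          exact isUnit_of_mul_isUnit_left hu₀u
        have hbv : i b * v = 1 + i (pz P) * (-(t * v)) := by
          linear_combination hv - v * hbt
        have hwb : Nr (h := (fK f).map j) (i (pz P))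
            (AdjoinRoot.mk ((fK f).map j) (C (algebraMap ℤ_[(P : ℕ)] ℚ_[(P : ℕ)] (i b * v)))) := by
          refine ⟨C (-(t * v)), ?_⟩
          rw [tk, map_C, ← C_mul, ← map_mul, ← map_one (AdjoinRoot.mk ((fK f).map j)), ← map_add, ← C_1,
            ← C_add, ← map_one (algebraMap ℤ_[(P : ℕ)] ℚ_[(P : ℕ)]), ← map_add, ← hbv]
        -- the element
        have hchar : ∀ x : ℚ, x ≠ 0 → (algebraMap ℚ (LL f) x) ≠ 0 := by
          intro x hx h0
          exact hx ((map_eq_zero (algebraMap ℚ (LL f))).1 h0)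
        have hpq : (((P : ℕ) : ℚ) ^ r) ≠ 0 :=
          zpow_ne_zero _ (by exact_mod_cast P.2.ne_zero)
        have hb0 : b ≠ 0 := by rintro rfl; exact hb (dvd_zero _)
        have hbq : (Int.castRingHom ℚ b) ≠ 0 := by
          rw [eq_intCast]; exact_mod_cast hb0
        refine ⟨(Units.mk0 _ (hchar _ hpq)) ^ 2 * Units.mk0 _ (hchar _ hbq), ?_, ?_⟩
        · intro q hq
          unfold EvenAt
          rw [Units.val_mul, Units.val_pow_eq_pow_val, map_mul, map_pow, Units.val_mk0,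
            Units.val_mk0]
          have h11 : algebraMap ℚ (LL f) (Int.castRingHom ℚ b) = Int.castRingHom (LL f) b := by
            rw [eq_intCast, eq_intCast, map_intCast]
          rw [h11, even_int_Pe hq hb, mul_one]
          exact IsSquare.sq _
        · have e1 : baseChange j (fK f)
              (((Units.mk0 _ (hchar _ hpq)) ^ 2 * Units.mk0 _ (hchar _ hbq) : (LL f)ˣ) : LL f) =
              AdjoinRoot.mk ((fK f).map j) (C ((((P : ℕ) : ℚ_[(P : ℕ)]) ^ r) ^ 2 *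
                algebraMap ℤ_[(P : ℕ)] ℚ_[(P : ℕ)] (i b))) := by
            rw [Units.val_mul, Units.val_pow_eq_pow_val, Units.val_mk0, Units.val_mk0]
            have h12 : algebraMap ℚ (LL f) (((P : ℕ) : ℚ) ^ r) ^ 2 *
                algebraMap ℚ (LL f) (Int.castRingHom ℚ b) =
                AdjoinRoot.mk (fK f) (C ((((P : ℕ) : ℚ) ^ r) ^ 2 * Int.castRingHom ℚ b)) := by
              rw [← map_pow, ← map_mul]; rfl
            rw [h12, baseChange_mk_NO, map_C, map_mul, map_pow, map_zpow₀, map_natCast, hji]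
            rfl
          have e2 : AdjoinRoot.mk ((fK f).map j) (C (-Dk) ^ m * U) =
              AdjoinRoot.mk ((fK f).map j) (C ((((P : ℕ) : ℚ_[(P : ℕ)]) ^ r) ^ 2 *
                algebraMap ℤ_[(P : ℕ)] ℚ_[(P : ℕ)] u₀)) * w0 := by
            have h13 : C (-Dk) ^ m * U = C ((((P : ℕ) : ℚ_[(P : ℕ)]) ^ r) ^ 2 *
                algebraMap ℤ_[(P : ℕ)] ℚ_[(P : ℕ)] u₀) *
                (1 + C (algebraMap ℤ_[(P : ℕ)] ℚ_[(P : ℕ)] (i (pz P))) * tk ℚ_[(P : ℕ)] p) := by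
              conv_lhs => rw [hp, hur]
              rw [← mul_assoc, ← C_pow, ← C_mul]
              congr 2
              rw [hu₀, map_mul, map_pow, map_neg, hLD.comp D, ← hDk]
              have h14 : algebraMap ℤ_[(P : ℕ)] ℚ_[(P : ℕ)] u = (u : ℚ_[(P : ℕ)]) := rfl
              rw [h14]
              ring
            rw [h13, map_mul, map_add, map_one]
          have e3 : AdjoinRoot.mk ((fK f).map j) (C ((((P : ℕ) : ℚ_[(P : ℕ)]) ^ r) ^ 2 *
              algebraMap ℤ_[(P : ℕ)] ℚ_[(P : ℕ)] u₀)) * y' = w1 := by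
            rw [hy, e2] at hyy
            calc _ = (AdjoinRoot.mk ((fK f).map j) (C ((((P : ℕ) : ℚ_[(P : ℕ)]) ^ r) ^ 2 *
                  algebraMap ℤ_[(P : ℕ)] ℚ_[(P : ℕ)] u₀)) * y') * (w0 * w1) := by
                  rw [hw01, mul_one]
              _ = (AdjoinRoot.mk ((fK f).map j) (C ((((P : ℕ) : ℚ_[(P : ℕ)]) ^ r) ^ 2 *
                  algebraMap ℤ_[(P : ℕ)] ℚ_[(P : ℕ)] u₀)) * w0 * y') * w1 := by ring
              _ = w1 := by rw [hyy, one_mul]
          have e4 : AdjoinRoot.mk ((fK f).map j) (C ((((P : ℕ) : ℚ_[(P : ℕ)]) ^ r) ^ 2 *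
                algebraMap ℤ_[(P : ℕ)] ℚ_[(P : ℕ)] (i b))) =
              AdjoinRoot.mk ((fK f).map j) (C (algebraMap ℤ_[(P : ℕ)] ℚ_[(P : ℕ)] (i b * v))) *
              AdjoinRoot.mk ((fK f).map j) (C ((((P : ℕ) : ℚ_[(P : ℕ)]) ^ r) ^ 2 *
                algebraMap ℤ_[(P : ℕ)] ℚ_[(P : ℕ)] u₀)) := by
            rw [← map_mul, ← C_mul]
            congr 2
            have h15 : algebraMap ℤ_[(P : ℕ)] ℚ_[(P : ℕ)] u₀ *
                algebraMap ℤ_[(P : ℕ)] ℚ_[(P : ℕ)] v = 1 := by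
              rw [← map_mul, hv, map_one]
            rw [map_mul]
            calc _ = (((P : ℕ) : ℚ_[(P : ℕ)]) ^ r) ^ 2 *
                algebraMap ℤ_[(P : ℕ)] ℚ_[(P : ℕ)] (i b) * 1 := by rw [mul_one]
              _ = (((P : ℕ) : ℚ_[(P : ℕ)]) ^ r) ^ 2 *
                algebraMap ℤ_[(P : ℕ)] ℚ_[(P : ℕ)] (i b) * (algebraMap ℤ_[(P : ℕ)] ℚ_[(P : ℕ)] u₀ *
                algebraMap ℤ_[(P : ℕ)] ℚ_[(P : ℕ)] v) := by rw [h15]
              _ = _ := by ring
          rw [e1, e4, mul_assoc, e3]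
          exact hmul _ _ hwb hw1
  exact mem_Cl_Pe.1 hmem q hq

theorem hPe (h1 : StPd) : StPe :=
  main_Pe (Pool.Agent.Helper54.HQ.hLD Pool.Agent.Helper54.HL.hLDI
      (Pool.Agent.Helper54.HL.hLDP Pool.Agent.Helper54.HL.aNB) Pool.Agent.Helper54.HL.hLDR)
    (Pool.Agent.Helper54.HQ.hIN Pool.Agent.Helper54.HL.hGE Pool.Agent.Helper54.HL.aNG
      (Pool.Agent.Helper54.HQ.hDE Pool.Agent.Helper54.HL.aNG) Pool.Agent.Helper54.HQ.hNO)
    (Pool.Agent.Helper54.HQ.hEI Pool.Agent.Helper54.HL.aOP Pool.Agent.Helper54.HQ.hOV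
      Pool.Agent.Helper54.HQ.hUQ Pool.Agent.Helper54.HL.aNG)
    Pool.Agent.Helper54.HQ.hNV Pool.Agent.Helper54.HL.aNG h1

end Pool.Agent.Helper53.EP
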