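import Pool.Agent.Helper53.EP.StP
import Pool.Agent.Helper54.HQ.Base
import Pool.Agent.Helper3.HY.M_Ce

/-!
# EP, module Pf: a prime with odd ramification
-/

set_option autoImplicit false

namespace Pool.Agent.Helper53.EP

open Polynomial Finset IsDedekindDomain
open Pool.Agent.Helper54.HQ (Prm pz factPrm fK RR LL algRL th kp red EvenAt Over red_surj
  red_eq_zero pz_ne_zero of_eq_castRingHom pz_prime)
open Pool.Agent.Helper3.EV (Dbl)

open scoped nonZeroDivisors in
/-- an element of even valuation everywhere generates the square of an ideal -/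
private theorem sqrt_Pf {R K : Type} [CommRing R] [IsDedekindDomain R] [Field K] [Algebra R K]
    [IsFractionRing R K] (p : R) (hp : p ≠ 0)
    (h : ∀ v : HeightOneSpectrum R, IsSquare (v.valuation K (algebraMap R K p))) :
    ∃ J : Ideal R, J * J = Ideal.span {p} := by
  have hinj : Function.Injective (algebraMap R K) := IsFractionRing.injective R K
  have hα : algebraMap R K p ≠ 0 := fun h0 => hp (hinj (h0.trans (map_zero _).symm))
  obtain ⟨J', hJ0, hJ⟩ := Pool.Agent.Helper3.HY.Ce.exists_sqrt (R := R) (K := K) _ hα h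
  set S := FractionalIdeal.spanSingleton R⁰ (algebraMap R K p) with hS
  have hII : (S * J') * (S * J') = S := by
    calc (S * J') * (S * J') = S * (S * J' * J') := by ring
      _ = S := by rw [hJ, mul_one]
  have hle : S * J' ≤ 1 := by
    intro x hx
    have h1 : x * x ∈ (S * J') * (S * J') := FractionalIdeal.mul_mem_mul hx hx
    rw [hII, hS, FractionalIdeal.mem_spanSingleton] at h1
    obtain ⟨r, hr⟩ := h1
    have h2 : IsIntegral R (x ^ 2) := by
      rw [sq, ← hr, Algebra.smul_def, ← map_mul]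
      exact isIntegral_algebraMap
    have h3 : IsIntegral R x := IsIntegral.of_pow (by norm_num) h2
    obtain ⟨y, hy⟩ := IsIntegrallyClosed.algebraMap_eq_of_integral h3
    exact (FractionalIdeal.mem_one_iff _).2 ⟨y, hy⟩
  obtain ⟨J, hJJ⟩ := FractionalIdeal.le_one_iff_exists_coeIdeal.1 hle
  refine ⟨J, ?_⟩
  apply FractionalIdeal.coeIdeal_injective (R := R) (K := K)
  show ((J * J : Ideal R) : FractionalIdeal R⁰ K) =
    ((Ideal.span {p} : Ideal R) : FractionalIdeal R⁰ K)
  rw [FractionalIdeal.coeIdeal_mul, hJJ, hII, hS, FractionalIdeal.coeIdeal_span_singleton]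

/-- odd powers -/
private theorem odd_Pf {G : Type} [CommGroupWithZero G] (x s : G) (hx : x ≠ 0) (a b : ℕ)
    (h : x ^ a / x ^ b = s * s) (hodd : (a + b) % 2 = 1) : IsSquare x := by
  obtain ⟨m, hm⟩ : ∃ m, a + b = 2 * m + 1 := ⟨(a + b) / 2, by omega⟩
  have h1 : x ^ a = s * s * x ^ b := by
    rw [← h, div_mul_cancel₀ _ (pow_ne_zero b hx)]
  have h2 : x ^ (2 * m) * x = (s * x ^ b) * (s * x ^ b) := by
    calc x ^ (2 * m) * x = x ^ (a + b) := by rw [hm, pow_succ]
      _ = x ^ a * x ^ b := pow_add _ _ _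
      _ = _ := by rw [h1, mul_assoc (s * s), mul_mul_mul_comm]
  have hm0 : x ^ m ≠ 0 := pow_ne_zero m hx
  refine ⟨s * x ^ b / x ^ m, ?_⟩
  have h3 : x ^ (2 * m) = x ^ m * x ^ m := by rw [two_mul, pow_add]
  rw [div_mul_div_comm, ← h2, h3, mul_comm (x ^ m * x ^ m) x,
    mul_div_assoc, div_self (mul_ne_zero hm0 hm0), mul_one]

section
variable {f : ℤ[X]} [Fact (Irreducible (fK f))] [IsDedekindDomain (RR f)]
  [IsFractionRing (RR f) (LL f)]

private theorem val_unit_Pf (P : Prm) (q : HeightOneSpectrum (RR f)) (hq : Over P q) (u : ℕ)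
    (hu : ¬ (P : ℕ) ∣ u) : q.valuation (LL f) ((u : ℕ) : LL f) = 1 := by
  have h1 : ((u : ℕ) : LL f) = algebraMap (RR f) (LL f) ((u : ℕ) : RR f) := (map_natCast _ _).symm
  rw [h1]
  refine le_antisymm (q.valuation_le_one _) ?_
  by_contra hlt
  rw [not_le, q.valuation_lt_one_iff_mem] at hlt
  have hcop : Nat.Coprime u (P : ℕ) :=
    ((Nat.Prime.coprime_iff_not_dvd P.2).2 hu).symm
  have h2 : IsCoprime ((u : ℕ) : ℤ) (pz P) := Nat.isCoprime_iff_coprime.2 hcop
  obtain ⟨s, t, hst⟩ := h2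
  have h3 : (1 : RR f) ∈ q.asIdeal := by
    have h4 : (1 : RR f) = (s : RR f) * ((u : ℕ) : RR f) +
        (t : RR f) * Int.castRingHom (RR f) (pz P) := by
      have := congrArg (fun z : ℤ => (z : RR f)) hst
      push_cast at this
      rw [eq_intCast]
      push_cast
      exact this.symm
    rw [h4]
    exact Ideal.add_mem _ (Ideal.mul_mem_left _ _ hlt) (Ideal.mul_mem_left _ _ hq)
  exact q.isPrime.ne_top ((Ideal.eq_top_iff_one _).2 h3)

private theorem val_nat_Pf (P : Prm) (q : HeightOneSpectrum (RR f)) (hq : Over P q) (n : ℕ)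
    (hn : n ≠ 0) : q.valuation (LL f) ((n : ℕ) : LL f) =
      q.valuation (LL f) (((P : ℕ) : ℕ) : LL f) ^ padicValNat (P : ℕ) n := by
  obtain ⟨u, hu⟩ := pow_padicValNat_dvd (p := (P : ℕ)) (n := n)
  have hnd : ¬ (P : ℕ) ∣ u := by
    rintro ⟨w, rfl⟩
    have h1 := pow_succ_padicValNat_not_dvd (p := (P : ℕ)) hn
    apply h1
    refine ⟨w, ?_⟩
    rw [pow_succ, mul_assoc]
    exact hu
  have h2 : ((n : ℕ) : LL f) = ((P : ℕ) : LL f) ^ padicValNat (P : ℕ) n * ((u : ℕ) : LL f) := by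
    exact_mod_cast congrArg (fun k : ℕ => (k : LL f)) hu
  rw [h2, map_mul, map_pow, val_unit_Pf P q hq u hnd, mul_one]

private theorem val_int_Pf (P : Prm) (q : HeightOneSpectrum (RR f)) (hq : Over P q) (z : ℤ)
    (hz : z ≠ 0) : q.valuation (LL f) ((z : ℤ) : LL f) =
      q.valuation (LL f) (((P : ℕ) : ℕ) : LL f) ^ padicValInt (P : ℕ) z := by
  have h1 := val_nat_Pf P q hq z.natAbs (Int.natAbs_ne_zero.2 hz)
  unfold padicValInt
  rw [← h1]
  rcases Int.natAbs_eq z with h | h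
  · conv_lhs => rw [h, Int.cast_natCast]
  · conv_lhs => rw [h, Int.cast_neg, Int.cast_natCast, Valuation.map_neg]

end

theorem hPf : StPf := by
  intro n hn f hf hdeg hfact hD hF P hdbl c hc hev
  by_contra hodd
  apply hdbl
  have hi : Irreducible (fK f) := hfact.out
  -- the valuation of `P` is even everywhere
  have hPL : (((P : ℕ) : ℕ) : LL f) = algebraMap (RR f) (LL f) (((P : ℕ) : ℕ) : RR f) :=
    (map_natCast _ _).symm
  have hinj : Function.Injective (algebraMap (RR f) (LL f)) := IsFractionRing.injective _ _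
  have hcharL : CharZero (LL f) := by
    have : Algebra ℚ (LL f) := inferInstance
    exact algebraRat.charZero (LL f)
  have hP0L : (((P : ℕ) : ℕ) : LL f) ≠ 0 := by
    exact_mod_cast P.2.ne_zero
  have hP0 : (((P : ℕ) : ℕ) : RR f) ≠ 0 := by
    intro h
    apply hP0L
    rw [hPL, h, map_zero]
  have hval : ∀ q : HeightOneSpectrum (RR f),
      IsSquare (q.valuation (LL f) (algebraMap (RR f) (LL f) (((P : ℕ) : ℕ) : RR f))) := by
    intro q
    rw [← hPL]
    by_cases hq : Over P q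
    · have h1 := hev q hq
      obtain ⟨s, hs⟩ := h1
      have h2 : algebraMap ℚ (LL f) c = ((c.num : ℤ) : LL f) / ((c.den : ℕ) : LL f) := by
        conv_lhs => rw [← Rat.num_div_den c]
        rw [map_div₀, map_intCast, map_natCast]
      rw [h2, map_div₀, val_int_Pf P q hq _ (Rat.num_ne_zero.2 hc),
        val_nat_Pf P q hq _ c.den_ne_zero] at hs
      refine odd_Pf _ s ((Valuation.ne_zero_iff _).2 hP0L) _ _ hs ?_
      have h3 : padicValRat (P : ℕ) c =
          (padicValInt (P : ℕ) c.num : ℤ) - (padicValNat (P : ℕ) c.den : ℤ) := rfl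
      rw [h3, Int.not_even_iff_odd, Int.odd_iff] at hodd
      omega
    · have h1 : q.valuation (LL f) (((P : ℕ) : ℕ) : LL f) = 1 := by
        rw [hPL]
        refine le_antisymm (q.valuation_le_one _) ?_
        by_contra hlt
        rw [not_le, q.valuation_lt_one_iff_mem] at hlt
        apply hq
        show Int.castRingHom (RR f) (pz P) ∈ q.asIdeal
        rw [eq_intCast, Int.cast_natCast]
        exact hlt
      rw [h1]
      exact ⟨1, (mul_one 1).symm⟩
  obtain ⟨J, hJ⟩ := sqrt_Pf (K := LL f) (((P : ℕ) : ℕ) : RR f) hP0 hval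
  have hPJJ : (((P : ℕ) : ℕ) : RR f) ∈ J * J := by
    rw [hJ]; exact Ideal.mem_span_singleton_self _
  have hPJ : (((P : ℕ) : ℕ) : RR f) ∈ J := Ideal.mul_le_left hPJJ
  have hmkP : ∀ e : ℤ[X], AdjoinRoot.mk f (C (pz P) * e) =
      (((P : ℕ) : ℕ) : RR f) * AdjoinRoot.mk f e := by
    intro e
    rw [map_mul, AdjoinRoot.mk_C, of_eq_castRingHom, eq_intCast, Int.cast_natCast]
  have hlift : ∀ a b : ℤ[X], a.map (red P) = b.map (red P) → ∃ c, a = b + C (pz P) * c := by
    intro a b h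
    have h1 : C (pz P) ∣ a - b := by
      rw [Polynomial.C_dvd_iff_dvd_coeff]
      intro i
      have h2 := congrArg (fun r => r.coeff i) h
      simp only [coeff_map] at h2
      rw [coeff_sub, ← red_eq_zero, map_sub, h2, sub_self]
    obtain ⟨c, hc⟩ := h1
    exact ⟨c, by rw [← hc]; ring⟩
  have hsurj : Function.Surjective (Polynomial.mapRingHom (red P)) :=
    Polynomial.map_surjective (red P) (red_surj P)
  -- the ideal of `𝔽_p[x]`
  set I : Ideal (kp P)[X] := (J.comap (AdjoinRoot.mk f)).map (Polynomial.mapRingHom (red P))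
    with hI
  have hmem : ∀ u : ℤ[X], u.map (red P) ∈ I → AdjoinRoot.mk f u ∈ J := by
    intro u hu
    rw [hI, Ideal.mem_map_iff_of_surjective _ hsurj] at hu
    obtain ⟨w, hw, hwu⟩ := hu
    obtain ⟨e, he⟩ := hlift u w hwu.symm
    rw [he, map_add, hmkP]
    exact Ideal.add_mem _ hw (Ideal.mul_mem_right _ _ hPJ)
  have hmem' : ∀ u : ℤ[X], AdjoinRoot.mk f u ∈ J → u.map (red P) ∈ I := by
    intro u hu
    exact Ideal.mem_map_of_mem (Polynomial.mapRingHom (red P)) (I := J.comap (AdjoinRoot.mk f)) hu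
  obtain ⟨h₁, hh₁⟩ := (IsPrincipalIdealRing.principal I).principal
  have hh₁' : I = Ideal.span {h₁} := hh₁
  have hfI : f.map (red P) ∈ I := hmem' f (by rw [AdjoinRoot.mk_self]; exact Ideal.zero_mem _)
  have hfm : (f.map (red P)).Monic := hf.map _
  have hfh : h₁ ∣ f.map (red P) := by
    rwa [hh₁', Ideal.mem_span_singleton] at hfI
  have hh₁0 : h₁ ≠ 0 := by
    rintro rfl
    exact hfm.ne_zero (zero_dvd_iff.1 hfh)
  -- monic generator
  set h : (kp P)[X] := h₁ * C (h₁.leadingCoeff)⁻¹ with hh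
  have hhm : h.Monic := monic_mul_leadingCoeff_inv hh₁0
  have hunit : IsUnit (C (h₁.leadingCoeff)⁻¹ : (kp P)[X]) :=
    (inv_ne_zero (leadingCoeff_ne_zero.2 hh₁0)).isUnit.map C
  have hIh : I = Ideal.span {h} := by
    rw [hh₁', hh, Ideal.span_singleton_mul_right_unit hunit]
  have hhf : h ∣ f.map (red P) := by
    rwa [hIh, Ideal.mem_span_singleton] at hfI
  obtain ⟨k, hk⟩ := hhf
  obtain ⟨h₀, hh₀⟩ := hsurj h
  obtain ⟨k₀, hk₀⟩ := hsurj k
  have hh₀' : h₀.map (red P) = h := hh₀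
  have hk₀' : k₀.map (red P) = k := hk₀
  have hh₀J : AdjoinRoot.mk f h₀ ∈ J := by
    apply hmem
    rw [hh₀', hIh]
    exact Ideal.mem_span_singleton_self _
  -- membership in `(p)` and divisibility
  have hdiv : ∀ u : ℤ[X], AdjoinRoot.mk f u ∈ Ideal.span {(((P : ℕ) : ℕ) : RR f)} →
      f.map (red P) ∣ u.map (red P) := by
    intro u hu
    obtain ⟨r, hr⟩ := Ideal.mem_span_singleton.1 hu
    obtain ⟨e, rfl⟩ := AdjoinRoot.mk_surjective r
    rw [← hmkP, AdjoinRoot.mk_eq_mk] at hr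
    obtain ⟨d, hd⟩ := hr
    refine ⟨d.map (red P), ?_⟩
    have h1 : u = f * d + C (pz P) * e := by rw [← hd]; ring
    have h2 : red P (pz P) = 0 := red_eq_zero.2 dvd_rfl
    rw [h1, Polynomial.map_add, Polynomial.map_mul, Polynomial.map_mul, map_C, h2, C_0, zero_mul,
      add_zero]
  -- `k₀(θ)` lies in `J`
  have hhk : AdjoinRoot.mk f (h₀ * k₀) ∈ Ideal.span {(((P : ℕ) : ℕ) : RR f)} := by
    obtain ⟨e, he⟩ := hlift (h₀ * k₀) f (by rw [Polynomial.map_mul, hh₀', hk₀', ← hk])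
    rw [he, map_add, AdjoinRoot.mk_self, zero_add, hmkP]
    exact Ideal.mul_mem_right _ _ (Ideal.mem_span_singleton_self _)
  have hkJ : AdjoinRoot.mk f k₀ ∈ J := by
    have hle : J * Ideal.span {AdjoinRoot.mk f k₀} ≤ J * J := by
      rw [hJ, Ideal.mul_le]
      intro r hr s hs
      obtain ⟨t, rfl⟩ := Ideal.mem_span_singleton.1 hs
      obtain ⟨u, rfl⟩ := AdjoinRoot.mk_surjective r
      have hu := hmem' u hr
      rw [hIh, Ideal.mem_span_singleton] at hu
      obtain ⟨w, hw⟩ := hu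
      obtain ⟨w₀, hw₀⟩ := hsurj w
      have hw₀' : w₀.map (red P) = w := hw₀
      obtain ⟨e, he⟩ := hlift u (h₀ * w₀) (by rw [Polynomial.map_mul, hh₀', hw₀', hw])
      have h1 : AdjoinRoot.mk f u * (AdjoinRoot.mk f k₀ * t) =
          AdjoinRoot.mk f (h₀ * k₀) * (AdjoinRoot.mk f w₀ * t) +
          (((P : ℕ) : ℕ) : RR f) * (AdjoinRoot.mk f e * (AdjoinRoot.mk f k₀ * t)) := by
        rw [he, map_add, hmkP, map_mul, map_mul]
        ring
      rw [h1]
      exact Ideal.add_mem _ (Ideal.mul_mem_right _ _ hhk)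
        (Ideal.mul_mem_right _ _ (Ideal.mem_span_singleton_self _))
    have hJ0 : J ≠ 0 := by
      rintro rfl
      rw [zero_mul] at hJ
      apply hP0
      have h1 : (((P : ℕ) : ℕ) : RR f) ∈ (0 : Ideal (RR f)) := by
        rw [hJ]; exact Ideal.mem_span_singleton_self _
      simpa using h1
    have h2 : J * J ∣ J * Ideal.span {AdjoinRoot.mk f k₀} := Ideal.dvd_iff_le.2 hle
    have h3 : J ∣ Ideal.span {AdjoinRoot.mk f k₀} := (mul_dvd_mul_iff_left hJ0).1 h2
    exact Ideal.dvd_iff_le.1 h3 (Ideal.mem_span_singleton_self _)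
  have hhk2 : h ∣ k := by
    have h1 := hmem' k₀ hkJ
    rwa [hk₀', hIh, Ideal.mem_span_singleton] at h1
  have hfh2 : f.map (red P) ∣ h ^ 2 := by
    have h1 : AdjoinRoot.mk f (h₀ ^ 2) ∈ Ideal.span {(((P : ℕ) : ℕ) : RR f)} := by
      rw [← hJ, map_pow, sq]
      exact Ideal.mul_mem_mul hh₀J hh₀J
    have h2 := hdiv _ h1
    rwa [Polynomial.map_pow, hh₀'] at h2
  refine ⟨h, hhm, ?_, ?_⟩
  · have h1 := natDegree_le_of_dvd hfh2 (pow_ne_zero 2 hhm.ne_zero)
    rw [hf.natDegree_map, hdeg, natDegree_pow] at h1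
    omega
  · show h ^ 2 ∣ f.map (red P)
    rw [hk, sq]
    exact mul_dvd_mul_left h hhk2

end Pool.Agent.Helper53.EP
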