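import Pool.Agent.Helper53.EP.StP

/-!
# EP module Pg (a root)
-/

set_option autoImplicit false

namespace Pool.Agent.Helper53.EP

open Polynomial Finset IsDedekindDomain
open Pool.Agent.Helper54.HQ (Prm pz factPrm fK RR LL algRL th kp red IsSym hs hs2 hsR TwAt EvenAt Over LD)
open Pool.Agent.Helper54.HL (tk IrrInt IrrBig Nr)
open Pool.Agent.Helper3.EV (Dbl TType AType IType Good)

private lemma red_eval_Pg (P : Prm) (F : ℤ[X]) (n : ℤ) :
    (F.map (red P)).eval (red P n) = red P (F.eval n) := by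
  rw [Polynomial.eval_map, Polynomial.eval₂_at_apply]

private lemma aeval_int_Pg (P : Prm) (F : ℤ[X]) (n : ℤ) :
    (F.aeval (n : ℤ_[(P : ℕ)])) = ((F.eval n : ℤ) : ℤ_[(P : ℕ)]) := by
  have h := Polynomial.aeval_algebraMap_apply_eq_algebraMap_eval (A := ℤ_[(P : ℕ)]) n F
  simpa using h

theorem hPg : StPg := by
  intro g hg f hm P hT
  obtain ⟨a, b, p, hab, hpm, hpi, hpd, hf⟩ := hT
  obtain ⟨n, hn⟩ := ZMod.intCast_surjective a
  have hn' : red P n = a := hn
  have hpa : p.eval a ≠ 0 := by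
    intro h0
    have h1 : (X - C a) ∣ p := dvd_iff_isRoot.2 h0
    have h2 : p.natDegree = 1 := by
      have h3 := (irreducible_X_sub_C a).dvd_symm hpi h1
      have h4 := natDegree_le_of_dvd h3 (X_sub_C_ne_zero a)
      rw [natDegree_X_sub_C] at h4
      omega
    omega
  have h0 : ((f.eval n : ℤ) : ZMod (P : ℕ)) = 0 := by
    have h1 := red_eval_Pg P f n
    rw [hn', hf] at h1
    simp only [eval_mul, eval_sub, eval_X, eval_C, sub_self, zero_mul] at h1
    exact h1.symm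
  have h1 : ((f.derivative.eval n : ℤ) : ZMod (P : ℕ)) ≠ 0 := by
    have h2 := red_eval_Pg P f.derivative n
    rw [hn', ← derivative_map, hf] at h2
    have h3 : (derivative ((X - C a) * (X - C b) * p)).eval a = (a - b) * p.eval a := by
      simp [derivative_mul]
    rw [h3] at h2
    intro h4
    have h5 : red P (f.derivative.eval n) = 0 := h4
    rw [h5] at h2
    rcases mul_eq_zero.1 h2 with h6 | h6
    · exact hab (sub_eq_zero.1 h6)
    · exact hpa h6
  have hn1 : ‖f.aeval (n : ℤ_[(P : ℕ)])‖ < 1 := by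
    rw [aeval_int_Pg, PadicInt.norm_int_lt_one_iff_dvd]
    exact (ZMod.intCast_zmod_eq_zero_iff_dvd _ _).1 h0
  have hn2 : ‖f.derivative.aeval (n : ℤ_[(P : ℕ)])‖ = 1 := by
    rw [aeval_int_Pg]
    apply le_antisymm (PadicInt.norm_le_one _)
    by_contra h2
    push Not at h2
    rw [PadicInt.norm_int_lt_one_iff_dvd] at h2
    exact h1 ((ZMod.intCast_zmod_eq_zero_iff_dvd _ _).2 h2)
  obtain ⟨z, hz, -⟩ := hensels_lemma (F := f) (a := (n : ℤ_[(P : ℕ)])) (by
    rw [hn2, one_pow]; exact hn1)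
  refine ⟨(z : ℚ_[(P : ℕ)]), ?_⟩
  have h2 : ((fK f).map (algebraMap ℚ ℚ_[(P : ℕ)])).eval (z : ℚ_[(P : ℕ)]) =
      ((f.aeval z : ℤ_[(P : ℕ)]) : ℚ_[(P : ℕ)]) := by
    rw [fK, Polynomial.map_map, Polynomial.eval_map]
    have h3 : ((f.aeval z : ℤ_[(P : ℕ)]) : ℚ_[(P : ℕ)]) =
        algebraMap ℤ_[(P : ℕ)] ℚ_[(P : ℕ)] (f.aeval z) := rfl
    rw [h3, ← Polynomial.aeval_algebraMap_apply, Polynomial.aeval_def]
    congr 1
  rw [h2, hz]
  rfl

end Pool.Agent.Helper53.EP
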