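import Pool.Agent.Helper53.EP.StP
import Pool.Agent.Helper54.HL.M_NMB
import Pool.Agent.Helper54.HL.M_NR

/-!
# EP, module Ph: norms at `P₀`
-/

set_option autoImplicit false

namespace Pool.Agent.Helper53.EP

open Polynomial Finset IsDedekindDomain
open Pool.Agent.Helper54.HQ (Prm pz factPrm fK RR LL algRL th kp red)

/-- a polynomial over `ℚ` is a rational number times a primitive integral polynomial -/
private theorem prim_Ph (q : ℚ[X]) (hq : q ≠ 0) :
    ∃ (r : ℚ) (m : ℤ[X]), r ≠ 0 ∧ m.IsPrimitive ∧ q = C r * m.map (Int.castRingHom ℚ) ∧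
      m.natDegree = q.natDegree := by
  obtain ⟨b, hbm, hb⟩ := IsLocalization.integerNormalization_spec (nonZeroDivisors ℤ) q
  have hb0 : ((b : ℤ) : ℚ) ≠ 0 := by
    have := nonZeroDivisors.ne_zero hbm
    exact_mod_cast this
  set m0 := IsLocalization.integerNormalization (nonZeroDivisors ℤ) q with hm0
  have h1 : m0.map (Int.castRingHom ℚ) = C ((b : ℤ) : ℚ) * q := by
    have h2 : algebraMap ℤ ℚ = Int.castRingHom ℚ := rfl
    rw [← h2, hb]
    ext i
    simp
  have hm00 : m0 ≠ 0 := by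
    intro h
    rw [h, Polynomial.map_zero] at h1
    exact mul_ne_zero (C_ne_zero.2 hb0) hq h1.symm
  have hc : m0.content ≠ 0 := by
    rwa [Ne, content_eq_zero_iff]
  have hc0 : ((m0.content : ℤ) : ℚ) ≠ 0 := by exact_mod_cast hc
  refine ⟨(m0.content : ℚ) / ((b : ℤ) : ℚ), m0.primPart, div_ne_zero hc0 hb0,
    m0.isPrimitive_primPart, ?_, ?_⟩
  · have h3 : m0 = C m0.content * m0.primPart := m0.eq_C_content_mul_primPart
    have h4 : m0.map (Int.castRingHom ℚ) =
        C ((m0.content : ℤ) : ℚ) * m0.primPart.map (Int.castRingHom ℚ) := by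
      conv_lhs => rw [h3]
      rw [Polynomial.map_mul, map_C]
      rfl
    have h5 : C ((b : ℤ) : ℚ) * q = C ((b : ℤ) : ℚ) *
        (C ((m0.content : ℚ) / ((b : ℤ) : ℚ)) * m0.primPart.map (Int.castRingHom ℚ)) := by
      rw [← h1, h4, ← mul_assoc, ← C_mul, mul_div_cancel₀ _ hb0]
    exact mul_left_cancel₀ (C_ne_zero.2 hb0) h5
  · rw [natDegree_primPart]
    have h6 := congrArg natDegree h1
    rw [natDegree_map_eq_of_injective (RingHom.injective_int _), natDegree_C_mul hb0] at h6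
    exact h6

theorem hPh : StPh := by
  intro n hn f hm hdeg P hirr z hz
  have hNB := (Pool.Agent.Helper54.HL.hNMB Pool.Agent.Helper54.HL.hNR).2.1
  have hmK : (fK f).Monic := hm.map _
  have hdK : (fK f).natDegree = 2 * n := by rw [hm.natDegree_map, hdeg]
  obtain ⟨q0, rfl⟩ := AdjoinRoot.mk_surjective z
  -- the reduced representative
  set q := q0 %ₘ fK f with hqdef
  have hq1 : AdjoinRoot.mk (fK f) q0 = AdjoinRoot.mk (fK f) q := by
    rw [hqdef, AdjoinRoot.mk_eq_mk]
    have := modByMonic_add_div q0 (fK f)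
    exact ⟨q0 /ₘ fK f, by rw [sub_eq_iff_eq_add, add_comm]; exact this.symm⟩
  rw [hq1] at hz ⊢
  have hq0 : q ≠ 0 := by
    rintro h
    rw [h, map_zero] at hz
    exact hz rfl
  have hqd : q.natDegree < 2 * n := by
    rw [← hdK]
    exact natDegree_modByMonic_lt q0 hmK (fun h => by
      rw [h, natDegree_one] at hdK
      omega)
  obtain ⟨r, m, hr, hprim, hqm, hmd⟩ := prim_Ph q hq0
  -- the norm of the primitive part
  have hN1 := hNB ℤ ℚ (Int.castRingHom ℚ) f m hm
  have hN2 := hNB ℤ (kp P) (red P) f m hm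
  have hmb0 : m.map (red P) ≠ 0 := by
    intro h
    have h1 : C (pz P) ∣ m := by
      rw [C_dvd_iff_dvd_coeff]
      intro i
      have h2 := congrArg (fun g => coeff g i) h
      simp only [coeff_map, coeff_zero] at h2
      exact (ZMod.intCast_zmod_eq_zero_iff_dvd (m.coeff i) (P : ℕ)).1 h2
    have h3 := hprim _ h1
    have h4 : Prime (pz P) := Nat.prime_iff_prime_int.1 P.2
    exact h4.not_isUnit h3
  have hmbd : (m.map (red P)).natDegree < (f.map (red P)).natDegree := by
    rw [hm.natDegree_map, hdeg]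
    exact lt_of_le_of_lt natDegree_map_le (by omega)
  have hne : AdjoinRoot.mk (f.map (red P)) (m.map (red P)) ≠ 0 := by
    rw [Ne, AdjoinRoot.mk_eq_zero]
    intro h
    have := natDegree_le_of_dvd h hmb0
    omega
  have hfact : Fact (Irreducible (f.map (red P))) := ⟨hirr⟩
  have hfin : Module.Finite (kp P) (AdjoinRoot (f.map (red P))) :=
    (hm.map (red P)).finite_adjoinRoot
  have hnn : Algebra.norm (kp P) (AdjoinRoot.mk (f.map (red P)) (m.map (red P))) ≠ 0 :=
    Algebra.norm_ne_zero_iff.2 hne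
  rw [← hN2] at hnn
  have hnd : ¬ ((P : ℕ) : ℤ) ∣ Algebra.norm ℤ (AdjoinRoot.mk f m) := by
    intro h
    exact hnn ((ZMod.intCast_zmod_eq_zero_iff_dvd _ (P : ℕ)).2 h)
  have hN0 : (Algebra.norm ℤ (AdjoinRoot.mk f m)) ≠ 0 := by
    intro h
    exact hnd (h ▸ dvd_zero _)
  -- the norm of `z`
  have hfr : Module.finrank ℚ (LL f) = 2 * n := by
    rw [(AdjoinRoot.powerBasis hmK.ne_zero).finrank, AdjoinRoot.powerBasis_dim, hdK]
  have hz1 : AdjoinRoot.mk (fK f) q =
      algebraMap ℚ (LL f) r * AdjoinRoot.mk (fK f) (m.map (Int.castRingHom ℚ)) := by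
    conv_lhs => rw [hqm]
    rw [map_mul, AdjoinRoot.mk_C]
    rfl
  have hN3 : Algebra.norm ℚ (AdjoinRoot.mk (fK f) q) =
      r ^ (2 * n) * ((Algebra.norm ℤ (AdjoinRoot.mk f m) : ℤ) : ℚ) := by
    rw [hz1, map_mul, Algebra.norm_algebraMap, hfr]
    congr 1
    exact hN1.symm
  rw [hN3, padicValRat.mul (pow_ne_zero _ hr) (by exact_mod_cast hN0), padicValRat.pow,
    padicValRat.of_int, padicValInt.eq_zero_of_not_dvd hnd]
  push_cast
  rw [add_zero, mul_assoc]
  exact even_two_mul _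

end Pool.Agent.Helper53.EP
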