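import Pool.Agent.Helper53.EP.StP

/-!
# EP: the norm of a point value (module Pi)
-/

set_option autoImplicit false

namespace Pool.Agent.Helper53.EP

open Polynomial

theorem hPi : StPi := by
  intro k _ f U V D n hf hn hD hU hUV
  have e1 : Algebra.norm k (AdjoinRoot.mk f U) = resultant f U := Helper54.HL.hNR k f U hf
  have e2 : Algebra.norm k (AdjoinRoot.mk U f) = resultant U f := Helper54.HL.hNR k U f hU
  have e3 : AdjoinRoot.mk U (C D * f) = AdjoinRoot.mk U V * AdjoinRoot.mk U V := by
    rw [← map_mul, AdjoinRoot.mk_eq_mk, ← pow_two]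
    exact hUV
  have e4 : Algebra.norm k (AdjoinRoot.mk U (C D)) = D ^ U.natDegree := by
    have h1 : AdjoinRoot.mk U (C D) = algebraMap k (AdjoinRoot U) D := rfl
    rw [h1, Algebra.norm_algebraMap, Pool.Agent.Helper3.PD.finrank_AR hU]
  have e5 : ((-1 : k) ^ (f.natDegree * U.natDegree)) = 1 := by
    rw [hn, mul_assoc, pow_mul]
    simp
  refine ⟨Algebra.norm k (AdjoinRoot.mk U V), ?_⟩
  rw [e1, resultant_comm, e5, one_mul, ← e2, ← e4, ← map_mul, ← map_mul, e3, map_mul]

end Pool.Agent.Helper53.EP
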