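import Pool.Agent.Helper53.EP.StP
import Pool.Agent.Helper54.HQ.All

/-!
# EP, module Pk: the symbols of `D` and `c`
-/

set_option autoImplicit false

namespace Pool.Agent.Helper53.EP

open Polynomial Finset IsDedekindDomain
open Pool.Agent.Helper54.HQ (Prm pz factPrm fK RR LL algRL th kp red IsSym hs hs2 hsR TwAt EvenAt Over LD)
open Pool.Agent.Helper54.HL (tk IrrInt IrrBig Nr)
open Pool.Agent.Helper3.EV (Dbl TType AType IType Good)
open Pool.Agent.Helper3.HY (baseChange twGroup IsTwPoint)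

/-- a point value of even degree lies in the descent group -/
private lemma mem_tw_Pk {k : Type} [Field k] {h U V : k[X]} {D : k} (hD : D ≠ 0) {l : ℕ}
    (hU : U.Monic) (hl : U.natDegree = l + l) (hco : IsCoprime U h) (hdvd : U ∣ C D * h - V ^ 2)
    (z : (AdjoinRoot h)ˣ) (hz : (z : AdjoinRoot h) = AdjoinRoot.mk h U) : z ∈ twGroup h D := by
  obtain ⟨u, hu⟩ : ∃ u : (AdjoinRoot h)ˣ, (u : AdjoinRoot h) = AdjoinRoot.mk h (C (-D)) := by
    refine ⟨⟨AdjoinRoot.mk h (C (-D)), AdjoinRoot.mk h (C (-D)⁻¹), ?_, ?_⟩, rfl⟩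
    · rw [← map_mul, ← C_mul, mul_inv_cancel₀ (neg_ne_zero.2 hD), C_1, map_one]
    · rw [← map_mul, ← C_mul, inv_mul_cancel₀ (neg_ne_zero.2 hD), C_1, map_one]
  have hpt : IsTwPoint h D ((z * (u ^ l) ^ 2 : (AdjoinRoot h)ˣ) : AdjoinRoot h) := by
    refine ⟨U, V, hU, hco, hdvd, ?_⟩
    rw [Units.val_mul, Units.val_pow_eq_pow_val, Units.val_pow_eq_pow_val, hu, hz, hl,
      ← map_pow (AdjoinRoot.mk h), ← map_pow (AdjoinRoot.mk h), ← map_mul (AdjoinRoot.mk h)]
    congr 1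
    ring
  have h4 : z = (z * (u ^ l) ^ 2) * ((u ^ l)⁻¹) ^ 2 := by group
  rw [h4, twGroup]
  exact mul_mem (Subgroup.subset_closure (Or.inl hpt))
    (Subgroup.subset_closure (Or.inr ⟨(u ^ l)⁻¹, rfl⟩))

private lemma map_dvd_Pk {K K' : Type} [Field K] [Field K'] (j : K →+* K') {A B W : K[X]} {D : K}
    (h : A ∣ C D * B - W ^ 2) : A.map j ∣ C (j D) * B.map j - (W.map j) ^ 2 := by
  have h5 : A.map j ∣ (C D * B - W ^ 2).map j := Polynomial.map_dvd j h
  rw [Polynomial.map_sub, Polynomial.map_mul, Polynomial.map_pow, Polynomial.map_C] at h5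
  exact h5

/-- Pk -/
theorem hPk (h1 : StPa) (h2 : StPe) (h3 : StPf) (h4 : StPg) : StPk := by
  intro g hg f hf hdeg _ _ _ P₀ D₁ hD₁ hT hDbl U V hU hUe hco hdvd c β hc hz P hP2 hPP₀
  obtain ⟨l, hl⟩ := hUe
  have hP₀0 : pz P₀ ≠ 0 := by
    have := P₀.2.pos
    simp only [pz]
    omega
  have hD0 : pz P₀ * D₁ ≠ 0 := mul_ne_zero hP₀0 hD₁
  set D : ℤ := pz P₀ * D₁ with hD
  have hDq : (((D : ℤ) : ℚ) : ℚ_[(P : ℕ)]) ≠ 0 := by
    intro h
    apply hD0
    exact_mod_cast h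
  have hcq : (c : ℚ_[(P : ℕ)]) ≠ 0 := by
    intro h
    apply hc
    exact_mod_cast h
  have hirr : Irreducible (fK f) := Fact.out
  have hfm : (fK f).Monic := hf.map _
  have hfd : (fK f).natDegree = 2 * (g + 1) := by
    rw [hf.natDegree_map, hdeg]; ring
  -- the representative of `c β`
  obtain ⟨Kp, hKp⟩ := AdjoinRoot.mk_surjective (algebraMap ℚ (LL f) c * β)
  have hK : fK f ∣ C c * U - Kp ^ 2 := by
    rw [← AdjoinRoot.mk_eq_zero, map_sub, map_mul, map_pow, hKp, hz]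
    have : AdjoinRoot.mk (fK f) (C c) = algebraMap ℚ (LL f) c := rfl
    rw [this]
    ring
  set j : ℚ →+* ℚ_[(P : ℕ)] := algebraMap ℚ ℚ_[(P : ℕ)] with hj
  have hjc : ∀ q : ℚ, j q = (q : ℚ_[(P : ℕ)]) := fun q => by rw [hj, eq_ratCast]
  have hUm : (U.map j).Monic := hU.map j
  have hUmd : (U.map j).natDegree = l + l := by rw [hU.natDegree_map, hl]
  have hcom : IsCoprime (U.map j) ((fK f).map j) := hco.map (Polynomial.mapRingHom j)
  have hdvdm : U.map j ∣ C (((D : ℤ) : ℚ) : ℚ_[(P : ℕ)]) * (fK f).map j - (V.map j) ^ 2 := by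
    rw [← hjc]
    exact map_dvd_Pk j hdvd
  by_cases hPD₁ : pz P ∣ D₁
  · -- the primes which divide `D₁`
    obtain ⟨θ, hθ⟩ := h4 g hg f hf P (hT P hPD₁)
    have hsq : Squarefree ((fK f).map j) := (hirr.separable.map (f := j)).squarefree
    have hKm : (fK f).map j ∣ C (c : ℚ_[(P : ℕ)]) * U.map j - (Kp.map j) ^ 2 := by
      rw [← hjc]
      exact map_dvd_Pk j hK
    have hiso := iso3_of_root (hfm.map j) hsq (n := g + 1) (by rw [hfm.natDegree_map, hfd]) hUm
      (l := l) (by rw [hUmd]; ring) hcom hdvdm hKm hθ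
    exact h1 _ _ (Pool.Agent.Helper54.HQ.a_Hc (P : ℕ) hP2) _ _ hDq hcq hiso
  · -- the primes which do not divide `D`
    have hPD : ¬ ((P : ℕ) : ℤ) ∣ D := by
      intro h
      rcases Int.Prime.dvd_mul' P.2 h with h5 | h5
      · apply hPP₀
        apply Subtype.ext
        have h6 : (P : ℕ) ∣ (P₀ : ℕ) := by exact_mod_cast h5
        exact (Nat.prime_dvd_prime_iff_eq P.2 P₀.2).1 h6
      · exact hPD₁ h5
    have hDc : (((D : ℤ) : ℚ) : ℚ_[(P : ℕ)]) = (D : ℚ_[(P : ℕ)]) := by norm_cast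
    rw [hDc, Pool.Agent.Helper54.HQ.hs, Pool.Agent.Helper54.HQ.v2_int_Hf (P : ℕ) hPD,
      Pool.Agent.Helper54.HQ.ur_int_Hf (P : ℕ) Pool.Agent.Helper54.HQ.a_Hc0 hPD, map_intCast]
    by_cases hsqD : IsSquare (D : ZMod (P : ℕ))
    · have h5 : Pool.Agent.Helper54.HQ.lg (D : ZMod (P : ℕ)) = 0 := by
        unfold Pool.Agent.Helper54.HQ.lg
        rw [if_pos hsqD]
      rw [h5]
      simp
    · have hmk0 : AdjoinRoot.mk (fK f) U ≠ 0 := by
        intro h0
        rw [AdjoinRoot.mk_eq_zero] at h0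
        exact hirr.not_isUnit (hco.isUnit_of_dvd' h0 dvd_rfl)
      have hβ0 : β ≠ 0 := by
        rintro rfl
        apply hmk0
        rw [hz]
        ring
      have htw : TwAt f D (P : ℕ) (Units.mk0 (AdjoinRoot.mk (fK f) U) hmk0) := by
        unfold TwAt
        have e1 : algebraMap ℚ ℚ_[(P : ℕ)] (Int.castRingHom ℚ D) = (((D : ℤ) : ℚ) : ℚ_[(P : ℕ)]) := by
          rw [eq_intCast, eq_ratCast]
        rw [e1]
        refine mem_tw_Pk hDq hUm hUmd hcom hdvdm _ ?_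
        rw [Units.coe_map, Units.val_mk0]
        exact Pool.Agent.Helper54.HQ.baseChange_mk_NO j (fK f) U
      have heven : ∀ q, Over P q → EvenAt q (algebraMap ℚ (LL f) c) := by
        intro q hq
        have h5 := h2 (g + 1) (by omega) f hf (by rw [hdeg]; ring) P D hP2 hsqD _ htw q hq
        rw [Units.val_mk0, hz] at h5
        unfold EvenAt at h5 ⊢
        rw [map_mul, map_pow] at h5
        have h6 : q.valuation (LL f) β ≠ 0 := (Valuation.ne_zero_iff _).2 hβ0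
        have h7 : q.valuation (LL f) (algebraMap ℚ (LL f) c) =
            q.valuation (LL f) (algebraMap ℚ (LL f) c) * q.valuation (LL f) β ^ 2 *
              ((q.valuation (LL f) β)⁻¹) ^ 2 := by
          rw [mul_assoc, ← mul_pow, mul_inv_cancel₀ h6, one_pow, mul_one]
        rw [h7]
        exact h5.mul (IsSquare.sq _)
      have h8 := h3 (g + 1) (by omega) f hf (by rw [hdeg]; ring) P (hDbl _ P.2) c hc heven
      have h9 : Pool.Agent.Helper54.HQ.v2 (P : ℕ) (c : ℚ_[(P : ℕ)]) = 0 := by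
        unfold Pool.Agent.Helper54.HQ.v2
        rw [Padic.valuation_ratCast]
        obtain ⟨m, hm⟩ := h8
        rw [hm]
        push_cast
        exact CharTwo.add_self_eq_zero _
      rw [h9]
      simp

end Pool.Agent.Helper53.EP
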