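import Pool.Agent.Helper53.EP.StP
import Pool.Agent.Helper54.HQ.Base
import Pool.Agent.Helper54.HQ.M_NO

/-!
# EP, module Pl: conclusion
-/

set_option autoImplicit false

namespace Pool.Agent.Helper53.EP

open Polynomial Finset IsDedekindDomain
open Pool.Agent.Helper54.HQ (Prm pz factPrm fK RR LL algRL th kp red IsSym hs hs2 hsR TwAt EvenAt Over LD
  baseChange_mk_NO)
open Pool.Agent.Helper54.HL (tk IrrInt IrrBig Nr)
open Pool.Agent.Helper3.EV (Dbl TType AType IType Good)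
open Pool.Agent.Helper3.HY (baseChange twGroup IsTwPoint)

/-- `U(θ)` lies in the group of the twist if the degree of `U` is even. -/
lemma twAt_Pl {f : ℤ[X]} {D : ℤ} (hD : D ≠ 0) {U V : ℚ[X]} (hU : U.Monic) {l : ℕ}
    (hUl : U.natDegree = l + l) (hcop : IsCoprime U (fK f)) (hUV : U ∣ C (D : ℚ) * fK f - V ^ 2)
    {z : (LL f)ˣ} (hz : (z : LL f) = AdjoinRoot.mk (fK f) U) (p : ℕ) [Fact p.Prime] :
    TwAt f D p z := by
  unfold TwAt
  set j := algebraMap ℚ ℚ_[p] with hj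
  set h := (fK f).map j with hh
  set Dk : ℚ_[p] := j (Int.castRingHom ℚ D) with hDk
  have hDk0 : Dk ≠ 0 := by
    rw [hDk, Ne, map_eq_zero, eq_intCast, Int.cast_eq_zero]
    exact hD
  have hDkQ : j (D : ℚ) = Dk := by rw [hDk, eq_intCast]
  set y := Units.map (baseChange j (fK f) : LL f →* AdjoinRoot h) z with hy
  have hyv : (y : AdjoinRoot h) = AdjoinRoot.mk h (U.map j) := by
    rw [hy, Units.coe_map, hz]
    exact baseChange_mk_NO j (fK f) U
  -- the unit `D ^ l`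
  have hu : IsUnit (AdjoinRoot.mk h (C (Dk ^ l))) := by
    have : IsUnit (C (Dk ^ l) : ℚ_[p][X]) := isUnit_C.mpr (isUnit_iff_ne_zero.mpr (pow_ne_zero _ hDk0))
    exact this.map _
  obtain ⟨u, hu⟩ := hu
  have h1 : u ^ 2 * y ∈ twGroup h Dk := by
    apply Subgroup.subset_closure
    left
    refine ⟨U.map j, V.map j, hU.map j, ?_, ?_, ?_⟩
    · exact hcop.map (mapRingHom j)
    · have := Polynomial.map_dvd j hUV
      rwa [Polynomial.map_sub, Polynomial.map_mul, Polynomial.map_pow, map_C, hDkQ] at this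
    · rw [Units.val_mul, Units.val_pow_eq_pow_val, hu, hyv, ← map_pow, ← map_mul, hU.natDegree_map, hUl]
      congr 2
      rw [← C_pow, ← C_pow, ← pow_mul, ← two_mul, mul_comm l 2, pow_mul (-Dk), neg_pow_two, pow_mul]
  have h2 : u ^ 2 ∈ twGroup h Dk := Subgroup.subset_closure (Or.inr ⟨u, rfl⟩)
  exact (Subgroup.mul_mem_cancel_left _ h2).1 h1

theorem hPl (h1 : StPi) (h2 : StPj) (h3 : StPk) (h4 : StPb) : StPl := by
  intro g hg f hf hN _ _ _ P₀ D₁ hP2 hD₁ hD8 hP₀ hirr hT hDbl hS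
  have hirrK : Irreducible (fK f) := Fact.out
  have hfK : (fK f).Monic := hf.map _
  have hdK : (fK f).natDegree = 2 * (g + 1) := by rw [hf.natDegree_map]; omega
  have hpairs := h2 (g + 1) (by omega) f hf (by omega) P₀ hirr D₁ hP₀
  generalize hD : pz P₀ * D₁ = D at hD8 hS hpairs
  have hpos : 0 < D := by
    rw [← hD]
    have : 0 < pz P₀ := by exact_mod_cast P₀.2.pos
    positivity
  have hDQ : (D : ℚ) ≠ 0 := by exact_mod_cast hpos.ne'
  have hsq : Squarefree (fK f) := hirrK.squarefree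
  have hCu : IsUnit (C (D : ℚ) : ℚ[X]) := isUnit_C.mpr (isUnit_iff_ne_zero.mpr hDQ)
  have hirrh : Irreducible (C (D : ℚ) * fK f) := (irreducible_isUnit_mul hCu).mpr hirrK
  have hns : NS (C (D : ℚ) * fK f) := NS_of_squarefree hirrh.squarefree hirrh.not_isUnit
  refine ⟨?_, hpairs⟩
  intro I hI
  refine divisibleE hns hirrh.squarefree (by norm_num) ?_ I hI
  intro U V hU hcop hUV
  have hcop' : IsCoprime U (fK f) := (isCoprime_mul_unit_left_right hCu _ _).mp hcop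
  obtain ⟨l, hl⟩ := hpairs U V hU hcop' hUV
  obtain ⟨u, v, huv⟩ := id hcop'
  have hzu : IsUnit (AdjoinRoot.mk (fK f) U) := by
    refine IsUnit.of_mul_eq_one (AdjoinRoot.mk (fK f) u) ?_
    rw [← map_mul, mul_comm, ← map_one (AdjoinRoot.mk (fK f)), AdjoinRoot.mk_eq_mk]
    refine ⟨-v, ?_⟩
    linear_combination huv
  obtain ⟨z, hz⟩ := hzu
  have hnorm : IsSquare (Algebra.norm ℚ (z : LL f)) := by
    have h5 := h1 ℚ (fK f) U V (D : ℚ) (g + 1) hfK hdK hDQ hU hUV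
    rw [hl, ← hz] at h5
    obtain ⟨s, hs⟩ := h5
    refine ⟨s / (D : ℚ) ^ l, ?_⟩
    rw [div_mul_div_comm, ← hs, ← pow_add]
    exact (mul_div_cancel_left₀ _ (pow_ne_zero _ hDQ)).symm
  obtain ⟨c, β, hcβ⟩ := hS z hnorm fun p _ => twAt_Pl hpos.ne' hU hl hcop' hUV hz p
  have hc0 : (c : ℚ) ≠ 0 := by
    intro h0
    have h00 : c = 0 := by exact_mod_cast h0
    rw [h00, Int.cast_zero, zero_mul] at hcβ
    exact z.ne_zero hcβ
  have hcβ' : AdjoinRoot.mk (fK f) U = algebraMap ℚ (LL f) (c : ℚ) * β ^ 2 := by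
    rw [← hz, hcβ, map_intCast]
  have hiso : Iso3 (D : ℚ) (c : ℚ) := by
    refine h4 D (c : ℚ) P₀ hpos hD8 hc0 hP2 fun P hP hPP => ?_
    have h6 := h3 g hg f hf hN P₀ D₁ hD₁.ne' hT hDbl U V hU ⟨l, hl⟩ hcop' (by rw [hD]; exact hUV)
      (c : ℚ) β hc0 hcβ' P hP hPP
    rw [hD] at h6
    exact h6
  obtain ⟨b, hb⟩ := AdjoinRoot.mk_surjective (g := fK f) (algebraMap ℚ (LL f) (c : ℚ) * β)
  have hK : fK f ∣ C (c : ℚ) * U - b ^ 2 := by
    rw [← AdjoinRoot.mk_eq_zero, map_sub, map_mul, map_pow, hb, hcβ', AdjoinRoot.mk_C]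
    change algebraMap ℚ (LL f) (c : ℚ) * _ - _ = 0
    ring
  obtain ⟨a, b', r, hr, hab, hdv⟩ := norm_eq (l := l) hns hfK hdK hU (by omega) hcop' hUV hK hiso
  exact ⟨a, b', r, (c : ℚ), hc0, hr, hab, hdv⟩

end Pool.Agent.Helper53.EP
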