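import Pool.Agent.Helper53.EP.Fin
import Pool.Agent.Helper53.EP.M_Pa
import Pool.Agent.Helper53.EP.M_Pb
import Pool.Agent.Helper53.EP.M_Pb1
import Pool.Agent.Helper53.EP.M_Pd
import Pool.Agent.Helper53.EP.M_Pd1
import Pool.Agent.Helper53.EP.M_Pd2
import Pool.Agent.Helper53.EP.M_Pe
import Pool.Agent.Helper53.EP.M_Pf
import Pool.Agent.Helper53.EP.M_Pg
import Pool.Agent.Helper53.EP.M_Ph
import Pool.Agent.Helper53.EP.M_Pi
import Pool.Agent.Helper53.EP.M_Pj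
import Pool.Agent.Helper53.EP.M_Pk
import Pool.Agent.Helper53.EP.M_Pl
import Pool.Agent.Helper3.EV.All

/-!
# EP: all modules
-/

set_option autoImplicit false

namespace Pool.Agent.Helper53.EP

open Polynomial Filter
open Pool.Agent.Helper53.EPR

theorem e_Pa : StPa := hPa

theorem e_Pb : StPb := hPb (hPb1 e_Pa)

theorem e_Pd : StPd := hPd hPd1 hPd2

theorem e_Pe : StPe := hPe e_Pd

theorem e_Pk : StPk := hPk e_Pa e_Pe hPf hPg

theorem e_Pl : StPl := hPl hPi (hPj hPh hPi) e_Pk e_Pb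

theorem main_EP (g : ℕ) (hg : 1 ≤ g) :
    ∃ B₀ : ℕ, ∀ B : ℕ, B₀ ≤ B → ∃ δ : ℝ, 0 < δ ∧ ∀ᶠ H : ℕ in atTop,
      (family g B H).Finite ∧
        δ * ((family g B H).ncard : ℝ) ≤ ((trivialFamily g B H).ncard : ℝ) :=
  main Pool.Agent.Helper3.EVA.v_PosB e_Pl g hg

end Pool.Agent.Helper53.EP
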