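import Pool.Agent.Helper54.HQ.DefsQ

/-!
# Even degree hyperelliptic curves over `ℚ`: the fake 2-Selmer set

`h` is a polynomial of even degree over a field `k` and `C : y ^ 2 = h(x)` the hyperelliptic curve;
`AdjoinRoot h = k[θ]` with `h(θ) = 0`.  `IsPointValue` and `baseChange` are in
`Pool/Agent/Helper3/HY/DefsR.lean`, `PicTwoDivisible` is in `Pool/Agent/Helper3/PD/Selmer.lean`, `overQ f` is `f`
as a polynomial over `ℚ`.
-/

set_option autoImplicit false

namespace Pool.Agent.Helper53.EPR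

open Polynomial
open Pool.Agent.Helper3.HYR (IsPointValue baseChange)
open Pool.Agent.Helper3.PD (PicTwoDivisible)
open Pool.Agent.Helper54.HQR (overQ)

/-- The subgroup of the unit group of `k[θ]` generated by the values of the `x - T` map at all divisors
`(U(x) = 0, y = V(x))` of `y ^ 2 = h(x)` (of any degree), by the constants and by the squares.  Modulo
constants and squares the `x - T` map takes the value `1` at the divisor at infinity. -/
noncomputable def fakeGroup {k : Type} [Field k] (h : k[X]) : Subgroup (AdjoinRoot h)ˣ :=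
  Subgroup.closure ({z | IsPointValue h (z : AdjoinRoot h)} ∪
    {z | ∃ c : k, (z : AdjoinRoot h) = algebraMap k (AdjoinRoot h) c} ∪ Set.range fun z => z ^ 2)

/-- The elements of the unit group of `ℚ[θ]` which have square norm and whose image lies in the group
`fakeGroup` over `ℚ_p` for every prime `p` (no condition at the real place): this set contains all
representatives of the fake 2-Selmer group of the Jacobian of `y ^ 2 = h(x)`. -/
def fakeSelmerSet (h : ℚ[X]) : Set (AdjoinRoot h)ˣ :=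
  {z | IsSquare (Algebra.norm ℚ (z : AdjoinRoot h)) ∧
    ∀ (p : ℕ) [Fact p.Prime], ∃ y ∈ fakeGroup (h.map (algebraMap ℚ ℚ_[p])),
      (y : AdjoinRoot (h.map (algebraMap ℚ ℚ_[p]))) =
        baseChange (algebraMap ℚ ℚ_[p]) h (z : AdjoinRoot h)}

/-- Every element of the fake 2-Selmer set is a rational number times a square. -/
def TrivialFakeSelmer (h : ℚ[X]) : Prop :=
  ∀ z ∈ fakeSelmerSet h, ∃ (c : ℚ) (w : AdjoinRoot h),
    (z : AdjoinRoot h) = algebraMap ℚ (AdjoinRoot h) c * w ^ 2

/-- The curve `y ^ 2 = h(x)` has no affine point over any number field of odd degree. -/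
def NoOddPoint (h : ℚ[X]) : Prop :=
  ∀ (K : Type) [Field K] [Algebra ℚ K], Odd (Module.finrank ℚ K) → ∀ x y : K, y ^ 2 ≠ aeval x h

/-- The polynomials `c_0 x ^ N + c_1 x ^ (N - 1) + ... + c_N` over `ℤ`, `N = 2 g + 2`, with
`1 ≤ c_0 ≤ B` and `|c_i| ≤ H ^ i` for `i ≥ 1`. -/
def family (g B H : ℕ) : Set ℤ[X] :=
  {F | F.natDegree = 2 * g + 2 ∧ 1 ≤ F.leadingCoeff ∧ F.leadingCoeff ≤ B ∧
    ∀ i, i ≤ 2 * g + 1 → |F.coeff i| ≤ (H : ℤ) ^ (2 * g + 2 - i)}

/-- The reduction modulo `p`. -/
noncomputable def modP (p : ℕ) (f : ℤ[X]) : (ZMod p)[X] := f.map (Int.castRingHom (ZMod p))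

/-- `F = p₀ D f` with `f` monic: the curve `y ^ 2 = F(x)` is the quadratic twist by `p₀ D` of the curve
`y ^ 2 = f(x)` with a regular Weierstrass model. -/
structure IsTame (F : ℤ[X]) (p₀ : ℕ) (D : ℤ) (f : ℤ[X]) : Prop where
  eq : F = C (p₀ * D) * f
  monic : f.Monic
  prime₀ : p₀.Prime
  mod₀ : p₀ % 8 = 1
  irr₀ : Irreducible (modP p₀ f)
  pos : 0 < D
  sqf : Squarefree (p₀ * D)
  primes : ∀ p : ℕ, p.Prime → (p : ℤ) ∣ D → p % 8 = 1 ∧ Squarefree (modP p f) ∧
    ∃ a : ZMod p, (modP p f).IsRoot a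
  regular : ∀ m : Ideal ℤ[X], m.IsMaximal → f ∉ m ^ 2
  notSquare : ∀ p : ℕ, p.Prime → ¬ IsSquare (modP p f)
  two : ∃ (a : ZMod 2) (q : (ZMod 2)[X]), Irreducible q ∧ modP 2 f = (X - C a) * q
  noRealRoot : ∀ x : ℝ, aeval x f ≠ 0

/-- The polynomials `F` of the family which are irreducible over `ℚ`, such that every element of the fake
2-Selmer set of `y ^ 2 = F(x)` is a rational number times a square, the group of ideal classes of
`ℚ[x, y] / (y ^ 2 - F(x))` is divisible by two, the curve has no point over a number field of odd degree,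
and is tame. -/
def trivialFamily (g B H : ℕ) : Set ℤ[X] :=
  {F ∈ family g B H | Irreducible (overQ F) ∧ TrivialFakeSelmer (overQ F) ∧
    PicTwoDivisible (overQ F) ∧ NoOddPoint (overQ F) ∧ ∃ p₀ D f, IsTame F p₀ D f}

end Pool.Agent.Helper53.EPR
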