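import Pool.Agent.Helper53.EP.StP
import Pool.Agent.Helper53.EP.DefsE
import Pool.Agent.Helper54.HQ.Base
import Pool.Agent.Helper54.HQ.M_NO
import Pool.Agent.Helper54.HQ.M_De2
import Pool.Agent.Helper54.HQ.M_De3
import Pool.Agent.Helper54.HQ.M_De4
import Pool.Agent.Helper54.EVL.Defs
import Pool.Agent.Helper3.EV.StF

/-!
# EP: from the internal statements to the definitions of the hand-in
-/

set_option autoImplicit false

namespace Pool.Agent.Helper53.EP

open Polynomial Finset IsDedekindDomain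
open Pool.Agent.Helper54.HQ (Prm pz factPrm fK RR LL algRL th kp red TwAt EvenAt Over
  baseChange_mk_NO)
open Pool.Agent.Helper3.EV (Dbl TType AType IType Good DD TrivF GoodF FamE StPos)
open Pool.Agent.Helper54.EVL (twG TwAtE)
open Pool.Agent.Helper3.HY (baseChange twGroup IsTwPoint)
open Pool.Agent.Helper54.HQR (overQ)
open Pool.Agent.Helper53.EPR

/-! ### Scaling -/

lemma exists_eqv_Br {k : Type} [Field k] {h' h : k[X]} {D : k} (hD : D ≠ 0) (e : h' = C D * h) :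
    ∃ φ : AdjoinRoot h' ≃ₐ[k] AdjoinRoot h, ∀ p, φ (AdjoinRoot.mk h' p) = AdjoinRoot.mk h p := by
  have hs : Ideal.span {h'} = Ideal.span ({h} : Set k[X]) := by
    rw [e, mul_comm]
    exact Ideal.span_singleton_mul_right_unit (isUnit_C.mpr (isUnit_iff_ne_zero.mpr hD)) h
  exact ⟨Ideal.quotientEquivAlgOfEq k hs, fun p => rfl⟩

lemma twG_of_fakeGroup_Br {k : Type} [Field k] {h' h : k[X]} {D : k} (hD : D ≠ 0)
    (e : h' = C D * h) (φ : AdjoinRoot h' ≃ₐ[k] AdjoinRoot h)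
    (hφ : ∀ p, φ (AdjoinRoot.mk h' p) = AdjoinRoot.mk h p) {y : (AdjoinRoot h')ˣ}
    (hy : y ∈ fakeGroup h') : Units.map (φ : AdjoinRoot h' →* AdjoinRoot h) y ∈ twG h D := by
  have hle : fakeGroup h' ≤ (twG h D).comap (Units.map (φ : AdjoinRoot h' →* AdjoinRoot h)) := by
    rw [fakeGroup, Subgroup.closure_le]
    rintro z ((⟨U, V, hU, hcop, hUV, hz⟩ | ⟨c, hc⟩) | ⟨w, rfl⟩)
    · rw [SetLike.mem_coe, Subgroup.mem_comap]
      have hu : IsUnit (AdjoinRoot.mk h (C (D ^ U.natDegree))) := by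
        have : IsUnit (C (D ^ U.natDegree) : k[X]) :=
          isUnit_C.mpr (isUnit_iff_ne_zero.mpr (pow_ne_zero _ hD))
        exact this.map _
      obtain ⟨u, hu⟩ := hu
      have h1 : u * Units.map (φ : AdjoinRoot h' →* AdjoinRoot h) z ∈ twG h D := by
        apply Subgroup.subset_closure
        left; left
        refine ⟨U, V, hU, ?_, ?_, ?_⟩
        · rw [e] at hcop
          exact (isCoprime_mul_unit_left_right
            (isUnit_C.mpr (isUnit_iff_ne_zero.mpr hD)) _ _).mp hcop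
        · rw [← e]; exact hUV
        · rw [Units.val_mul, hu, Units.coe_map]
          change _ * φ (z : AdjoinRoot h') = _
          rw [hz, hφ, ← map_mul]
          congr 1
          rw [← mul_assoc, C_neg, neg_pow (C D) U.natDegree, C_pow]
          ring
      have h2 : u ∈ twG h D := by
        apply Subgroup.subset_closure
        left; right
        exact ⟨D ^ U.natDegree, by rw [hu, AdjoinRoot.mk_C]; rfl⟩
      exact (Subgroup.mul_mem_cancel_left _ h2).1 h1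
    · rw [SetLike.mem_coe, Subgroup.mem_comap]
      apply Subgroup.subset_closure
      left; right
      refine ⟨c, ?_⟩
      rw [Units.coe_map]
      change φ (z : AdjoinRoot h') = _
      rw [hc]
      exact φ.commutes c
    · rw [SetLike.mem_coe, Subgroup.mem_comap]
      apply Subgroup.subset_closure
      right
      exact ⟨Units.map (φ : AdjoinRoot h' →* AdjoinRoot h) w, by rw [map_pow]⟩
  exact hle hy

/-- The fake Selmer set. -/
theorem trivialFake_Br {F f : ℤ[X]} {D : ℤ} (hD : D ≠ 0) (hF : F = C D * f) (hT : TrivF f D) :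
    TrivialFakeSelmer (overQ F) := by
  have hDQ : (D : ℚ) ≠ 0 := by exact_mod_cast hD
  have e : overQ F = C (D : ℚ) * fK f := by
    rw [hF, overQ, Polynomial.map_mul, map_C, eq_intCast]
  obtain ⟨φ, hφ⟩ := exists_eqv_Br hDQ e
  rintro z ⟨hn, hp⟩
  set z' := Units.map (φ : AdjoinRoot (overQ F) →* AdjoinRoot (fK f)) z with hz'
  have hzv : (z' : AdjoinRoot (fK f)) = φ (z : AdjoinRoot (overQ F)) := by rw [hz', Units.coe_map]; rfl
  obtain ⟨c, β, hc⟩ := hT z' (by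
    rw [hzv, Algebra.norm_eq_of_algEquiv]
    exact hn) (by
    intro p _
    obtain ⟨y, hy, hyz⟩ := hp p
    have hDp : (algebraMap ℚ ℚ_[p] (Int.castRingHom ℚ D)) ≠ 0 := by
      rw [Ne, map_eq_zero, eq_intCast]; exact hDQ
    have e' : (overQ F).map (algebraMap ℚ ℚ_[p]) =
        C (algebraMap ℚ ℚ_[p] (Int.castRingHom ℚ D)) * (fK f).map (algebraMap ℚ ℚ_[p]) := by
      rw [e, Polynomial.map_mul, map_C, eq_intCast]
    obtain ⟨ψ, hψ⟩ := exists_eqv_Br hDp e'
    have h1 := twG_of_fakeGroup_Br hDp e' ψ hψ hy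
    unfold TwAtE
    convert h1 using 1
    apply Units.ext
    rw [Units.coe_map, Units.coe_map]
    change baseChange _ (fK f) (z' : AdjoinRoot (fK f)) = ψ y
    rw [hyz, hzv]
    obtain ⟨q, hq⟩ := AdjoinRoot.mk_surjective (g := overQ F) (z : AdjoinRoot (overQ F))
    rw [← hq, hφ, baseChange_mk_NO]
    have h2 : Pool.Agent.Helper3.HYR.baseChange (algebraMap ℚ ℚ_[p]) (overQ F)
        (AdjoinRoot.mk (overQ F) q) =
        AdjoinRoot.mk ((overQ F).map (algebraMap ℚ ℚ_[p])) (q.map (algebraMap ℚ ℚ_[p])) :=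
      baseChange_mk_NO (algebraMap ℚ ℚ_[p]) (overQ F) q
    rw [h2, hψ])
  refine ⟨(c : ℚ), φ.symm β, ?_⟩
  apply φ.injective
  rw [← hzv, hc, map_mul, map_pow, AlgEquiv.apply_symm_apply, AlgEquiv.commutes, map_intCast]

open IntermediateField in
/-- No points of odd degree. -/
theorem noOddPoint_Br {h : ℚ[X]} {n : ℕ} (hirr : Irreducible h) (hn : h.natDegree = 2 * n)
    (hev : ∀ U V : ℚ[X], U.Monic → IsCoprime U h → U ∣ h - V ^ 2 → Even U.natDegree) :
    NoOddPoint h := by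
  intro K _ _ hodd x y hxy
  have hfin : FiniteDimensional ℚ K := FiniteDimensional.of_finrank_pos hodd.pos
  have hx : IsIntegral ℚ x := Algebra.IsIntegral.isIntegral x
  set U := minpoly ℚ x with hU
  have hUm : U.Monic := minpoly.monic hx
  have hUi : Irreducible U := minpoly.irreducible hx
  have hdeg : Module.finrank ℚ ℚ⟮x⟯ = U.natDegree := IntermediateField.adjoin.finrank hx
  have hmul : Module.finrank ℚ ℚ⟮x⟯ * Module.finrank ℚ⟮x⟯ K = Module.finrank ℚ K :=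
    Module.finrank_mul_finrank ℚ ℚ⟮x⟯ K
  rw [← hmul] at hodd
  obtain ⟨h1, h2⟩ := Nat.odd_mul.mp hodd
  have hy : y ∈ ℚ⟮x⟯ := by
    have hyi : IsIntegral ℚ⟮x⟯ y := Algebra.IsIntegral.isIntegral y
    have hmem : aeval x h ∈ ℚ⟮x⟯ :=
      IntermediateField.algebra_adjoin_le_adjoin ℚ {x} (aeval_mem_adjoin_singleton ℚ x)
    have hdv : minpoly ℚ⟮x⟯ y ∣ X ^ 2 - C (⟨aeval x h, hmem⟩ : ℚ⟮x⟯) := by
      apply minpoly.dvd
      rw [map_sub, map_pow, aeval_X, aeval_C, hxy]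
      exact sub_self _
    have hle : (minpoly ℚ⟮x⟯ y).natDegree ≤ 2 := by
      have := natDegree_le_of_dvd hdv (X_pow_sub_C_ne_zero (by norm_num) _)
      rwa [natDegree_X_pow_sub_C] at this
    have hpos : 0 < (minpoly ℚ⟮x⟯ y).natDegree := minpoly.natDegree_pos hyi
    have hdvd : (minpoly ℚ⟮x⟯ y).natDegree ∣ Module.finrank ℚ⟮x⟯ K := minpoly.degree_dvd hyi
    have hne : (minpoly ℚ⟮x⟯ y).natDegree ≠ 2 := by
      intro h3
      rw [h3] at hdvd
      exact (Nat.not_even_iff_odd.mpr h2) (even_iff_two_dvd.mpr hdvd)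
    have h1' : (minpoly ℚ⟮x⟯ y).natDegree = 1 := by omega
    rw [minpoly.natDegree_eq_one_iff] at h1'
    obtain ⟨w, hw⟩ := h1'
    rw [← hw]
    exact w.2
  obtain ⟨V, hV⟩ : ∃ V : ℚ[X], y = aeval x V := by
    have h3 : y ∈ Algebra.adjoin ℚ {x} := by
      rw [← IntermediateField.adjoin_simple_toSubalgebra_of_isAlgebraic hx.isAlgebraic]
      exact hy
    rw [Algebra.adjoin_singleton_eq_range_aeval] at h3
    obtain ⟨V, hV⟩ := h3
    exact ⟨V, hV.symm⟩
  have hUV : U ∣ h - V ^ 2 := by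
    apply minpoly.dvd
    rw [map_sub, map_pow, ← hV, hxy, sub_self]
  rw [hdeg] at h1
  by_cases hcop : IsCoprime U h
  · exact (Nat.not_even_iff_odd.mpr h1) (hev U V hUm hcop hUV)
  · have hd : U ∣ h := by
      by_contra hnd
      exact hcop ((hUi.coprime_iff_not_dvd).mpr hnd)
    have ha : Associated U h := hUi.associated_of_dvd hirr hd
    have h4 : U.natDegree = h.natDegree := natDegree_eq_of_degree_eq (degree_eq_degree_of_associated ha)
    rw [h4, hn] at h1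
    exact (Nat.not_even_iff_odd.mpr h1) (even_two_mul n)

/-! ### The tame structure -/

/-- The polynomials of the region have no real root. -/
theorem noRealRoot_Br {g H : ℕ} (hH : 1 ≤ H) {f : ℤ[X]} (hf : f ∈ Pool.Agent.Helper3.EV.Reg g H)
    (x : ℝ) : aeval x f ≠ 0 := by
  obtain ⟨hm, hd, hc, h0, -⟩ := hf
  have hH1 : (1 : ℝ) ≤ H := by exact_mod_cast hH
  set M : ℝ := max |x| H with hM
  have hM1 : 1 ≤ M := hH1.trans (le_max_right _ _)
  have hMx : |x| ≤ M := le_max_left _ _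
  have hMH : (H : ℝ) ≤ M := le_max_right _ _
  have hsum : aeval x f = x ^ (2 * g + 2) + (f.coeff 0 : ℝ) +
      ∑ i ∈ range (2 * g + 1), (f.coeff (i + 1) : ℝ) * x ^ (i + 1) := by
    have hlead : f.coeff (2 * g + 2) = 1 := by rw [← hd]; exact hm.coeff_natDegree
    rw [aeval_eq_sum_range, hd, Finset.sum_range_succ, hlead, Finset.sum_range_succ']
    simp only [zsmul_eq_mul, pow_zero, mul_one, Int.cast_one, one_mul]
    ring
  have hterm : ∀ i ∈ range (2 * g + 1),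
      |(f.coeff (i + 1) : ℝ) * x ^ (i + 1)| ≤ M ^ (2 * g + 2) / 2 ^ (2 * g + 6) := by
    intro i hi
    rw [Finset.mem_range] at hi
    have h1 := hc (i + 1) (by omega) (by omega)
    have h2 : (2 : ℝ) ^ (2 * g + 6) * |(f.coeff (i + 1) : ℝ)| ≤ (H : ℝ) ^ (2 * g + 2 - (i + 1)) := by
      exact_mod_cast h1
    rw [le_div_iff₀ (by positivity), abs_mul, abs_pow]
    have h3 : (H : ℝ) ^ (2 * g + 2 - (i + 1)) ≤ M ^ (2 * g + 2 - (i + 1)) :=
      pow_le_pow_left₀ (by positivity) hMH _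
    have h4 : |x| ^ (i + 1) ≤ M ^ (i + 1) := pow_le_pow_left₀ (abs_nonneg _) hMx _
    calc |(f.coeff (i + 1) : ℝ)| * |x| ^ (i + 1) * 2 ^ (2 * g + 6)
        = (2 ^ (2 * g + 6) * |(f.coeff (i + 1) : ℝ)|) * |x| ^ (i + 1) := by ring
      _ ≤ M ^ (2 * g + 2 - (i + 1)) * M ^ (i + 1) := by
          apply mul_le_mul (h2.trans h3) h4 (by positivity) (by positivity)
      _ = M ^ (2 * g + 2) := by rw [← pow_add]; congr 1; omega
  have hS : |∑ i ∈ range (2 * g + 1), (f.coeff (i + 1) : ℝ) * x ^ (i + 1)| ≤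
      (2 * g + 1 : ℕ) * (M ^ (2 * g + 2) / 2 ^ (2 * g + 6)) := by
    refine (Finset.abs_sum_le_sum_abs _ _).trans ?_
    refine (Finset.sum_le_sum hterm).trans ?_
    rw [Finset.sum_const, Finset.card_range, nsmul_eq_mul]
  have hsmall : ((2 * g + 1 : ℕ) : ℝ) * (M ^ (2 * g + 2) / 2 ^ (2 * g + 6)) ≤ M ^ (2 * g + 2) / 4 := by
    have h5 : ((2 * g + 1 : ℕ) : ℝ) ≤ 2 ^ (2 * g + 1) := by
      exact_mod_cast (Nat.lt_two_pow_self (n := 2 * g + 1)).le
    have h6 : (0 : ℝ) < M ^ (2 * g + 2) := by positivity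
    rw [mul_div_assoc', div_le_div_iff₀ (by positivity) (by norm_num)]
    calc ((2 * g + 1 : ℕ) : ℝ) * M ^ (2 * g + 2) * 4 ≤ 2 ^ (2 * g + 1) * M ^ (2 * g + 2) * 4 := by
          gcongr
      _ ≤ M ^ (2 * g + 2) * 2 ^ (2 * g + 6) := by
          have : (2 : ℝ) ^ (2 * g + 6) = 2 ^ (2 * g + 1) * 32 := by
            rw [show 2 * g + 6 = (2 * g + 1) + 5 by ring, pow_add]; norm_num
          rw [this]
          nlinarith [mul_pos (pow_pos (by norm_num : (0 : ℝ) < 2) (2 * g + 1)) h6]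
  have hbig : M ^ (2 * g + 2) / 2 ≤ x ^ (2 * g + 2) + (f.coeff 0 : ℝ) := by
    have h7 : (H : ℝ) ^ (2 * g + 2) ≤ 2 * (f.coeff 0 : ℝ) := by exact_mod_cast h0
    have h8 : x ^ (2 * g + 2) = |x| ^ (2 * g + 2) := by
      rw [show 2 * g + 2 = 2 * (g + 1) by ring, pow_mul, pow_mul, sq_abs]
    rw [h8]
    have h9 : M ^ (2 * g + 2) ≤ |x| ^ (2 * g + 2) + (H : ℝ) ^ (2 * g + 2) := by
      rcases le_total |x| (H : ℝ) with h | h
      · rw [hM, max_eq_right h]
        have : 0 ≤ |x| ^ (2 * g + 2) := by positivity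
        linarith
      · rw [hM, max_eq_left h]
        have : (0 : ℝ) ≤ (H : ℝ) ^ (2 * g + 2) := by positivity
        linarith
    have h10 : 0 ≤ |x| ^ (2 * g + 2) := by positivity
    linarith
  have hMp : (0 : ℝ) < M ^ (2 * g + 2) := by positivity
  have := neg_abs_le (∑ i ∈ range (2 * g + 1), (f.coeff (i + 1) : ℝ) * x ^ (i + 1))
  rw [hsum]
  apply ne_of_gt
  linarith

lemma squarefree_TType_Br {k : Type} [Field k] {g : ℕ} (hg : 1 ≤ g) {h : k[X]} (hh : h ∈ TType k g) :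
    Squarefree h ∧ ∃ a, h.IsRoot a := by
  obtain ⟨a, b, p, hab, hpm, hpi, hpd, rfl⟩ := hh
  have hnd : ∀ c : k, ¬ (X - C c) ∣ p := by
    intro c hc
    have h1 := (irreducible_X_sub_C c).associated_of_dvd hpi hc
    have h2 := natDegree_eq_of_degree_eq (degree_eq_degree_of_associated h1)
    rw [natDegree_X_sub_C, hpd] at h2
    omega
  have hcop : ∀ c : k, IsCoprime (X - C c) p := fun c =>
    ((irreducible_X_sub_C c).coprime_iff_not_dvd).mpr (hnd c)
  have hab' : IsCoprime (X - C a) (X - C b) := isCoprime_X_sub_C_of_isUnit_sub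
    (sub_ne_zero.mpr hab).isUnit
  refine ⟨?_, a, ?_⟩
  · rw [squarefree_mul_iff, squarefree_mul_iff]
    exact ⟨((hcop a).mul_left (hcop b)).isRelPrime, ⟨hab'.isRelPrime,
      (irreducible_X_sub_C a).squarefree, (irreducible_X_sub_C b).squarefree⟩, hpi.squarefree⟩
  · simp [IsRoot]

lemma prod_sq_Br {P₀ : Prm} {R : Finset Prm} (h : P₀ ∉ R) :
    Squarefree (pz P₀ * ∏ P ∈ R, pz P) := by
  classical
  rw [← Finset.prod_insert h]
  apply Finset.squarefree_prod_of_pairwise_isCoprime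
  · intro P hP Q hQ hPQ
    have : Nat.Coprime (P : ℕ) (Q : ℕ) := (Nat.coprime_primes P.2 Q.2).mpr fun h => hPQ (Subtype.ext h)
    exact (Nat.isCoprime_iff_coprime.mpr this).isRelPrime
  · intro P _
    exact (Nat.prime_iff_prime_int.mp P.2).squarefree

lemma mem_of_dvd_Br {R : Finset Prm} {p : ℕ} (hp : p.Prime) (h : (p : ℤ) ∣ ∏ P ∈ R, pz P) :
    (⟨p, hp⟩ : Prm) ∈ R := by
  obtain ⟨Q, hQ, hd⟩ := (Nat.prime_iff_prime_int.mp hp).exists_mem_finset_dvd h
  have h1 : p ∣ (Q : ℕ) := Int.natCast_dvd_natCast.mp hd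
  have h2 : p = (Q : ℕ) := (Nat.prime_dvd_prime_iff_eq hp Q.2).mp h1
  have h3 : (⟨p, hp⟩ : Prm) = Q := Subtype.ext h2
  rw [h3]
  exact hQ

lemma smooth_Br {g H : ℕ} {P₀ : Prm} {T : Finset Prm} {f : ℤ[X]} (hf : f ∈ Good g H P₀ T) :
    Pool.Agent.Helper54.HQ.Smooth f := by
  refine Pool.Agent.Helper54.HQ.hDe4 f hf.1.1 fun p hp => ⟨(hf.2.2.2.2 p hp).1, ?_⟩
  rintro ⟨φ, hφ, _, hφ2, hd⟩
  exact (hf.2.2.2.2 p hp).2 ⟨φ, hφ, hφ2, hd⟩

lemma notSquare_Br {p : ℕ} (hp : p.Prime) {f : ℤ[X]} (hf : f.Monic) (hd : 4 ≤ f.natDegree)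
    (hD : ¬ Dbl p f) : ¬ IsSquare (modP p f) := by
  have := Fact.mk hp
  rintro ⟨φ, hφ⟩
  apply hD
  have hm : (modP p f).Monic := hf.map _
  have hne : φ ≠ 0 := by rintro rfl; rw [mul_zero] at hφ; exact hm.ne_zero hφ
  have hl : φ.leadingCoeff * φ.leadingCoeff = 1 := by
    rw [← leadingCoeff_mul, ← hφ]; exact hm
  have hdeg : φ.natDegree + φ.natDegree = f.natDegree := by
    rw [← natDegree_mul hne hne, ← hφ]; exact hf.natDegree_map _
  have hl0 : φ.leadingCoeff ≠ 0 := leadingCoeff_ne_zero.mpr hne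
  refine ⟨C φ.leadingCoeff * φ, ?_, ?_, ?_⟩
  · rw [Monic, leadingCoeff_mul, leadingCoeff_C, hl]
  · rw [natDegree_C_mul hl0]; omega
  · rw [mul_pow, ← C_pow, pow_two, hl, C_1, one_mul, pow_two, ← hφ]
    exact dvd_rfl

/-- The tame structure. -/
theorem tame_Br {g H : ℕ} (hg : 1 ≤ g) (hH : 1 ≤ H) {P₀ : Prm} {T R : Finset Prm}
    (h0 : (P₀ : ℕ) % 8 = 1) (hP : P₀ ∉ T) (hT : ∀ P ∈ T, (P : ℕ) % 8 = 1) (hR : R ⊆ T) {f : ℤ[X]}
    (hf : f ∈ Good g H P₀ T) : IsTame (C (DD P₀ R) * f) (P₀ : ℕ) (∏ P ∈ R, pz P) f where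
  eq := rfl
  monic := hf.1.1
  prime₀ := P₀.2
  mod₀ := h0
  irr₀ := hf.2.2.1.2.1
  pos := Finset.prod_pos fun P _ => by exact_mod_cast P.2.pos
  sqf := prod_sq_Br fun h => hP (hR h)
  primes := by
    intro p hp hd
    have h1 := mem_of_dvd_Br hp hd
    have h2 := hf.2.2.2.1 _ (hR h1)
    have : Fact p.Prime := ⟨hp⟩
    have h3 : modP p f ∈ TType (ZMod p) g := h2
    exact ⟨hT _ (hR h1), (squarefree_TType_Br hg h3).1, (squarefree_TType_Br hg h3).2⟩
  regular := smooth_Br hf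
  notSquare := fun p hp => notSquare_Br hp hf.1.1 (by rw [hf.1.2.1]; omega) (hf.2.2.2.2 p hp).2
  two := by
    obtain ⟨a, q, _, hq, _, h⟩ := hf.2.1
    exact ⟨a, q, hq, h⟩
  noRealRoot := noRealRoot_Br hH hf.1

/-- The bridge. -/
theorem mem_trivialFamily_Br (hPl : StPl) {g B H : ℕ} (hg : 1 ≤ g) {P₀ : Prm} {T : Finset Prm}
    (h0 : (P₀ : ℕ) % 8 = 1) (hP : P₀ ∉ T) (hT : ∀ P ∈ T, (P : ℕ) % 8 = 1) {F : ℤ[X]}
    (hF : F ∈ FamE g B H) (hG : GoodF g P₀ T F) : F ∈ trivialFamily g B H := by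
  obtain ⟨H₁, f, R, hH₁, hf, hR, rfl, hirr, htriv⟩ := hG
  have hfm : f.Monic := hf.1.1
  have hfd : f.natDegree = 2 * g + 2 := hf.1.2.1
  have hD₁ : 0 < ∏ P ∈ R, pz P := Finset.prod_pos fun P _ => by exact_mod_cast P.2.pos
  have hP₀ : 0 < pz P₀ := by exact_mod_cast P₀.2.pos
  have hD : 0 < DD P₀ R := mul_pos hP₀ hD₁
  have hDQ : ((DD P₀ R : ℤ) : ℚ) ≠ 0 := by exact_mod_cast hD.ne'
  have e : overQ (C (DD P₀ R) * f) = C ((DD P₀ R : ℤ) : ℚ) * fK f := by
    rw [overQ, Polynomial.map_mul, map_C, eq_intCast]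
  have hCu : IsUnit (C ((DD P₀ R : ℤ) : ℚ) : ℚ[X]) := isUnit_C.mpr (isUnit_iff_ne_zero.mpr hDQ)
  have hirrF : Irreducible (overQ (C (DD P₀ R) * f)) := by
    rw [e]; exact (irreducible_isUnit_mul hCu).mpr hirr
  have : Fact (Irreducible (fK f)) := ⟨hirr⟩
  have : IsDedekindDomain (RR f) :=
    Pool.Agent.Helper54.HQ.hDe3 f hfm (by omega) hirr (smooth_Br hf)
  have : IsFractionRing (RR f) (LL f) := Pool.Agent.Helper54.HQ.hDe2 f hfm hirr
  have h8 : (pz P₀ * ∏ P ∈ R, pz P) % 8 = 1 := by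
    have h1 : ∀ S : Finset Prm, S ⊆ T → (∏ P ∈ S, pz P) % 8 = 1 := by
      classical
      intro S
      induction S using Finset.induction_on with
      | empty => intro _; simp
      | insert P S hPS ih =>
        intro hS
        rw [Finset.prod_insert hPS, Int.mul_emod, ih ((Finset.subset_insert P S).trans hS)]
        have h2 : (pz P) % 8 = 1 := by
          have := hT P (hS (Finset.mem_insert_self P S))
          unfold pz
          omega
        rw [h2]; norm_num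
    have h3 : (pz P₀) % 8 = 1 := by unfold pz; omega
    rw [Int.mul_emod, h1 R hR, h3]; norm_num
  obtain ⟨hpic, hev⟩ := hPl g hg f hfm hfd P₀ (∏ P ∈ R, pz P) (by intro h; rw [h] at h0; omega) hD₁
    h8 (by
      intro hd
      exact hP (hR (mem_of_dvd_Br P₀.2 hd))) hf.2.2.1.2.1
    (fun P hPd => hf.2.2.2.1 _ (hR (mem_of_dvd_Br P.2 hPd)))
    (fun p hp => (hf.2.2.2.2 p hp).2) (by
      intro z hn hz
      refine htriv z hn fun p _ => ?_
      have hle : ∀ {k : Type} [Field k] (h : k[X]) (D : k), twGroup h D ≤ twG h D := by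
        intro k _ h D
        rw [twGroup, Subgroup.closure_le]
        rintro y (hy | hy)
        · exact Subgroup.subset_closure (Or.inl (Or.inl hy))
        · exact Subgroup.subset_closure (Or.inr hy)
      exact hle _ _ (hz p))
  refine ⟨hF, hirrF, trivialFake_Br hD.ne' rfl htriv, ?_, ?_, _, _, f, tame_Br hg hH₁ h0 hP hT hR hf⟩
  · rw [e]; exact hpic
  · rw [e]
    refine noOddPoint_Br (n := g + 1) (by rw [← e]; exact hirrF) ?_ ?_
    · rw [natDegree_C_mul hDQ, hfm.natDegree_map, hfd]; ring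
    · intro U V hU hcop hUV
      exact hev U V hU ((isCoprime_mul_unit_left_right hCu _ _).mp hcop) hUV

end Pool.Agent.Helper53.EP
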