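import Pool.Agent.Helper53.EP.Bridge
import Pool.Agent.Helper3.EV.M_PosB

/-!
# EP: the final theorem
-/

set_option autoImplicit false

namespace Pool.Agent.Helper53.EP

open Polynomial Finset Filter
open Pool.Agent.Helper3.EV (FamE GoodF StPosB)
open Pool.Agent.Helper53.EPR

theorem main (hPos : StPosB) (hPl : StPl) (g : ℕ) (hg : 1 ≤ g) :
    ∃ B₀ : ℕ, ∀ B : ℕ, B₀ ≤ B → ∃ δ : ℝ, 0 < δ ∧ ∀ᶠ H : ℕ in atTop,
      (family g B H).Finite ∧
        δ * ((family g B H).ncard : ℝ) ≤ ((trivialFamily g B H).ncard : ℝ) := by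
  obtain ⟨P₀, T, B₀, h0, hP, hT, -, h⟩ := hPos g hg
  refine ⟨B₀, fun B hB => ?_⟩
  obtain ⟨δ, hδ, hH⟩ := h B hB
  refine ⟨δ, hδ, ?_⟩
  filter_upwards [hH] with H h1
  have e : family g B H = FamE g B H := rfl
  have hsub : {F | F ∈ FamE g B H ∧ GoodF g P₀ T F} ⊆ trivialFamily g B H := fun F hF =>
    mem_trivialFamily_Br hPl hg h0 hP hT hF.1 hF.2
  have hfin : (trivialFamily g B H).Finite := h1.1.subset fun F hF => hF.1
  rw [e]
  refine ⟨h1.1, h1.2.trans ?_⟩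
  exact_mod_cast Set.ncard_le_ncard hsub hfin

end Pool.Agent.Helper53.EP
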