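import Pool.Agent.Helper53.EP.Main

/-!
# The norm equation for a pair of even degree

`f` monic of degree `2 n`, `U` monic of degree `2 l`, `c U` a square modulo `f`, `U ∣ D f - V ^ 2`.
-/

set_option autoImplicit false

namespace Pool.Agent.Helper53.EP

open Polynomial
open Pool.Agent.Helper3.PD

universe u

variable {k : Type u} [Field k]

/-- The form `x ^ 2 - D y ^ 2 - c z ^ 2` is isotropic. -/
def Iso3 (D c : k) : Prop := ∃ x y z : k, (x ≠ 0 ∨ y ≠ 0 ∨ z ≠ 0) ∧ x ^ 2 = D * y ^ 2 + c * z ^ 2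

lemma coeff_sq_top {p : k[X]} {t : ℕ} (hp : p ≠ 0 → p.natDegree ≤ t) :
    (p * p).coeff (2 * t) = p.coeff t ^ 2 := by
  by_cases h0 : p = 0
  · subst h0; simp
  · rw [two_mul, coeff_mul_add_eq_of_natDegree_le (hp h0) (hp h0), pow_two]

lemma coeff_mul_sq_top {p q : k[X]} {t d : ℕ} (hq : q.Monic) (hqd : q.natDegree = 2 * d)
    (hp : p ≠ 0 → d + p.natDegree ≤ t) (c : k) :
    (C c * q * (p * p)).coeff (2 * t) = c * (if d ≤ t then p.coeff (t - d) else 0) ^ 2 := by
  by_cases h0 : p = 0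
  · subst h0; simp
  · have h1 := hp h0
    have h2 : d ≤ t := by omega
    rw [if_pos h2, mul_assoc, coeff_C_mul]
    congr 1
    have h3 : 2 * t = 2 * d + ((t - d) + (t - d)) := by omega
    rw [h3, coeff_mul_add_eq_of_natDegree_le (df := 2 * d) (dg := (t - d) + (t - d)) hqd.le,
      coeff_mul_add_eq_of_natDegree_le (by omega) (by omega)]
    · have h4 : q.coeff (2 * d) = 1 := by rw [← hqd]; exact hq.coeff_natDegree
      rw [h4, one_mul, pow_two]
    · refine natDegree_mul_le.trans (by omega)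

/-- A nontrivial solution of the norm equation gives an isotropic vector. -/
lemma iso3_of_eq {f U a b r : k[X]} {D c : k} {n l : ℕ} (hf : f.Monic) (hfn : f.natDegree = 2 * n)
    (hU : U.Monic) (hUl : U.natDegree = 2 * l) (hne : a ≠ 0 ∨ b ≠ 0 ∨ r ≠ 0)
    (hab : a * a = C D * f * (b * b) + C c * U * (r * r)) : Iso3 D c := by
  classical
  have hex : ∃ t, (a ≠ 0 → a.natDegree ≤ t) ∧ (b ≠ 0 → n + b.natDegree ≤ t) ∧
      (r ≠ 0 → l + r.natDegree ≤ t) :=
    ⟨a.natDegree + (n + b.natDegree) + (l + r.natDegree), fun _ => by omega, fun _ => by omega,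
      fun _ => by omega⟩
  set t := Nat.find hex with ht
  obtain ⟨h1, h2, h3⟩ := Nat.find_spec hex
  rw [← ht] at h1 h2 h3
  have heq : (a ≠ 0 ∧ a.natDegree = t) ∨ (b ≠ 0 ∧ n + b.natDegree = t) ∨
      (r ≠ 0 ∧ l + r.natDegree = t) := by
    by_contra hno
    push Not at hno
    obtain ⟨g1, g2, g3⟩ := hno
    have htpos : 1 ≤ t := by
      rcases hne with h | h | h
      · have := h1 h; have := g1 h; omega
      · have := h2 h; have := g2 h; omega
      · have := h3 h; have := g3 h; omega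
    have := Nat.find_min hex (m := t - 1) (by omega)
    apply this
    refine ⟨fun h => ?_, fun h => ?_, fun h => ?_⟩
    · have := h1 h; have := g1 h; omega
    · have := h2 h; have := g2 h; omega
    · have := h3 h; have := g3 h; omega
  have hc := congrArg (fun p => coeff p (2 * t)) hab
  simp only [coeff_add] at hc
  rw [coeff_sq_top h1, coeff_mul_sq_top hf hfn h2, coeff_mul_sq_top hU hUl h3] at hc
  refine ⟨_, _, _, ?_, hc⟩
  rcases heq with ⟨h, e⟩ | ⟨h, e⟩ | ⟨h, e⟩
  · left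
    rw [← e, coeff_natDegree]
    exact leadingCoeff_ne_zero.mpr h
  · right; left
    rw [if_pos (by omega), show t - n = b.natDegree by omega, coeff_natDegree]
    exact leadingCoeff_ne_zero.mpr h
  · right; right
    rw [if_pos (by omega), show t - l = r.natDegree by omega, coeff_natDegree]
    exact leadingCoeff_ne_zero.mpr h

/-- The linear map with two additional functionals. -/
noncomputable def linmapE (f U V Kp : k[X]) (A B R : ℕ)
    (φ : (k[X] × k[X] × k[X]) →ₗ[k] k × k) :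
    (degreeLT k A × degreeLT k B × degreeLT k R) →ₗ[k]
      ((AdjoinRoot f × AdjoinRoot U) × (k × k)) where
  toFun x := ((AdjoinRoot.mk f (x.1 : k[X]) - AdjoinRoot.mk f (x.2.2 : k[X]) * AdjoinRoot.mk f Kp,
    AdjoinRoot.mk U ((x.1 : k[X]) + (x.2.1 : k[X]) * V)),
      φ ((x.1 : k[X]), (x.2.1 : k[X]), (x.2.2 : k[X])))
  map_add' x y := by
    have h1 : φ (((x + y).1 : k[X]), ((x + y).2.1 : k[X]), ((x + y).2.2 : k[X])) =
        φ ((x.1 : k[X]), (x.2.1 : k[X]), (x.2.2 : k[X])) +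
        φ ((y.1 : k[X]), (y.2.1 : k[X]), (y.2.2 : k[X])) := by
      rw [← map_add]; rfl
    rw [h1]
    simp only [Prod.fst_add, Prod.snd_add, Submodule.coe_add, map_add, map_mul, Prod.mk_add_mk]
    refine Prod.ext (Prod.ext ?_ ?_) rfl
    · simp only; ring
    · simp only; ring
  map_smul' c x := by
    have h1 : φ (((c • x).1 : k[X]), ((c • x).2.1 : k[X]), ((c • x).2.2 : k[X])) =
        c • φ ((x.1 : k[X]), (x.2.1 : k[X]), (x.2.2 : k[X])) := by
      rw [← map_smul]; rfl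
    rw [h1]
    simp only [Prod.smul_fst, Prod.smul_snd, Submodule.coe_smul, RingHom.id_apply, Prod.smul_mk]
    refine Prod.ext (Prod.ext ?_ ?_) rfl
    · simp only [← AdjoinRoot.smul_mk, smul_sub, smul_mul_assoc]
    · simp only [AdjoinRoot.smul_mk, smul_add, smul_mul_assoc]

/-- The space of solutions has dimension at least three. -/
lemma exists_sol {f U V Kp : k[X]} {n l : ℕ} (hf : f.Monic) (hfn : f.natDegree = 2 * n)
    (hU : U.Monic) (hUl : U.natDegree = 2 * l) (φ : (k[X] × k[X] × k[X]) →ₗ[k] k × k) :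
    ∃ a b r : k[X], (a ≠ 0 ∨ b ≠ 0 ∨ r ≠ 0) ∧ a.degree < (n + l + 1 : ℕ) ∧
      b.degree < (l + 1 : ℕ) ∧ r.degree < (n + 1 : ℕ) ∧ f ∣ a - r * Kp ∧ U ∣ a + b * V ∧
      φ (a, b, r) = 0 := by
  have := finite_AR hf
  have := finite_AR hU
  have : ∀ n, Module.Finite k (degreeLT k n) := fun n => finite_LT n
  have hlt : Module.finrank k ((AdjoinRoot f × AdjoinRoot U) × (k × k))
      < Module.finrank k (degreeLT k (n + l + 1) × degreeLT k (l + 1) × degreeLT k (n + 1)) := by
    rw [Module.finrank_prod, Module.finrank_prod, Module.finrank_prod, Module.finrank_prod,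
      Module.finrank_prod, finrank_AR hf, finrank_AR hU, finrank_LT, finrank_LT, finrank_LT,
      Module.finrank_self, hfn, hUl]
    omega
  have hker := LinearMap.ker_ne_bot_of_finrank_lt
    (f := linmapE f U V Kp (n + l + 1) (l + 1) (n + 1) φ) hlt
  obtain ⟨⟨⟨a, ha⟩, ⟨b, hb⟩, ⟨r, hr⟩⟩, hx, hx0⟩ := Submodule.exists_mem_ne_zero_of_ne_bot hker
  rw [LinearMap.mem_ker] at hx
  simp only [linmapE, LinearMap.coe_mk, AddHom.coe_mk, Prod.mk_eq_zero] at hx
  obtain ⟨⟨h1, h2⟩, h3⟩ := hx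
  rw [AdjoinRoot.mk_eq_zero] at h2
  rw [← map_mul, ← map_sub, AdjoinRoot.mk_eq_zero] at h1
  rw [mem_degreeLT] at ha hb hr
  refine ⟨a, b, r, ?_, ha, hb, hr, h1, h2, h3⟩
  by_contra hno
  push Not at hno
  obtain ⟨rfl, rfl, rfl⟩ := hno
  exact hx0 rfl

lemma natDegree_le_of_degree_lt {p : k[X]} {t : ℕ} (h : p.degree < (t + 1 : ℕ)) :
    p.natDegree ≤ t := by
  rw [natDegree_le_iff_degree_le]
  by_cases h0 : p = 0
  · subst h0; simp
  · rw [degree_eq_natDegree h0] at h ⊢
    have : p.natDegree < t + 1 := by exact_mod_cast h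
    exact_mod_cast (by omega : p.natDegree ≤ t)

/-- The identity for the solutions. -/
lemma sol_eq {f U V Kp : k[X]} {n l : ℕ} {D c : k} (hf : f.Monic) (hfn : f.natDegree = 2 * n)
    (hU : U.Monic) (hUl : U.natDegree = 2 * l) (hcop : IsCoprime U f)
    (hUV : U ∣ C D * f - V ^ 2) (hK : f ∣ C c * U - Kp ^ 2) {a b r : k[X]}
    (ha : a.degree < (n + l + 1 : ℕ)) (hb : b.degree < (l + 1 : ℕ)) (hr : r.degree < (n + 1 : ℕ))
    (h1 : f ∣ a - r * Kp) (h2 : U ∣ a + b * V) :
    a * a - C D * f * (b * b) - C c * U * (r * r) =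
      C (a.coeff (n + l) ^ 2 - D * b.coeff l ^ 2 - c * r.coeff n ^ 2) * (f * U) := by
  have ha' := natDegree_le_of_degree_lt ha
  have hb' := natDegree_le_of_degree_lt hb
  have hr' := natDegree_le_of_degree_lt hr
  have d1 : f ∣ a * a - C D * f * (b * b) - C c * U * (r * r) := by
    have e : a * a - C D * f * (b * b) - C c * U * (r * r) =
        (a - r * Kp) * (a + r * Kp) - (C c * U - Kp ^ 2) * (r * r) - f * (C D * (b * b)) := by ring
    rw [e]
    exact dvd_sub (dvd_sub (h1.mul_right _) (hK.mul_right _)) (dvd_mul_right _ _)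
  have d2 : U ∣ a * a - C D * f * (b * b) - C c * U * (r * r) := by
    have e : a * a - C D * f * (b * b) - C c * U * (r * r) =
        (a + b * V) * (a - b * V) - (C D * f - V ^ 2) * (b * b) - U * (C c * (r * r)) := by ring
    rw [e]
    exact dvd_sub (dvd_sub (h2.mul_right _) (hUV.mul_right _)) (dvd_mul_right _ _)
  have d3 : f * U ∣ a * a - C D * f * (b * b) - C c * U * (r * r) := by
    rw [mul_comm]
    exact hcop.mul_dvd d2 d1
  obtain ⟨q, hq⟩ := d3
  have hfU : (f * U).Monic := hf.mul hU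
  have hfUd : (f * U).natDegree = 2 * (n + l) := by
    rw [hf.natDegree_mul hU, hfn, hUl]; ring
  have hdeg : (a * a - C D * f * (b * b) - C c * U * (r * r)).natDegree ≤ 2 * (n + l) := by
    refine (natDegree_sub_le _ _).trans (max_le ((natDegree_sub_le _ _).trans (max_le ?_ ?_)) ?_)
    · refine natDegree_mul_le.trans (by omega)
    · refine natDegree_mul_le.trans ?_
      have := natDegree_mul_le (p := C D) (q := f)
      have := natDegree_mul_le (p := b) (q := b)
      rw [natDegree_C] at *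
      omega
    · refine natDegree_mul_le.trans ?_
      have := natDegree_mul_le (p := C c) (q := U)
      have := natDegree_mul_le (p := r) (q := r)
      rw [natDegree_C] at *
      omega
  have hqC : q = C (q.coeff 0) := by
    apply eq_C_of_natDegree_le_zero
    by_cases h0 : q = 0
    · subst h0; simp
    · rw [hq, natDegree_mul hfU.ne_zero h0, hfUd] at hdeg
      omega
  have hcoef : (a * a - C D * f * (b * b) - C c * U * (r * r)).coeff (2 * (n + l)) =
      a.coeff (n + l) ^ 2 - D * b.coeff l ^ 2 - c * r.coeff n ^ 2 := by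
    rw [coeff_sub, coeff_sub, coeff_sq_top (fun _ => ha'),
      coeff_mul_sq_top hf hfn (fun _ => by omega), coeff_mul_sq_top hU hUl (fun _ => by omega),
      if_pos (by omega), if_pos (by omega), show n + l - n = l by omega,
      show n + l - l = n by omega]
  have h3 : q.coeff 0 = a.coeff (n + l) ^ 2 - D * b.coeff l ^ 2 - c * r.coeff n ^ 2 := by
    rw [← hcoef, hq, hqC, mul_comm, coeff_C_mul, ← hfUd, hfU.coeff_natDegree, mul_one, coeff_C_zero]
  rw [hq, ← h3, mul_comm, ← hqC]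

/-- An isotropic vector gives a solution of the norm equation. -/
theorem norm_eq {f U V Kp : k[X]} {n l : ℕ} {D c : k} (hns : NS (C D * f)) (hf : f.Monic)
    (hfn : f.natDegree = 2 * n) (hU : U.Monic) (hUl : U.natDegree = 2 * l) (hcop : IsCoprime U f)
    (hUV : U ∣ C D * f - V ^ 2) (hK : f ∣ C c * U - Kp ^ 2) (hiso : Iso3 D c) :
    ∃ a b r : k[X], r ≠ 0 ∧ a * a - C D * f * (b * b) = C c * U * (r * r) ∧ U ∣ a + b * V := by
  obtain ⟨x, y, z, hne, hxyz⟩ := hiso
  -- two functionals with common kernel `k (x, y, z)`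
  have key : ∃ φ : (k × k × k) →ₗ[k] k × k, ∀ v : k × k × k, φ v = 0 →
      v.1 ^ 2 - D * v.2.1 ^ 2 - c * v.2.2 ^ 2 = 0 := by
    let p1 : (k × k × k) →ₗ[k] k := LinearMap.fst k k (k × k)
    let p2 : (k × k × k) →ₗ[k] k := (LinearMap.fst k k k).comp (LinearMap.snd k k (k × k))
    let p3 : (k × k × k) →ₗ[k] k := (LinearMap.snd k k k).comp (LinearMap.snd k k (k × k))
    rcases hne with h | h | h
    · refine ⟨(x • p2 - y • p1).prod (x • p3 - z • p1), fun v hv => ?_⟩
      simp only [LinearMap.prod_apply, Function.prod_apply, Prod.mk_eq_zero] at hv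
      have e1 : x * v.2.1 = y * v.1 := sub_eq_zero.mp hv.1
      have e2 : x * v.2.2 = z * v.1 := sub_eq_zero.mp hv.2
      have h2 : x ^ 2 * (v.1 ^ 2 - D * v.2.1 ^ 2 - c * v.2.2 ^ 2) = 0 := by
        linear_combination v.1 ^ 2 * hxyz - D * (x * v.2.1 + y * v.1) * e1 -
          c * (x * v.2.2 + z * v.1) * e2
      exact (mul_eq_zero.mp h2).resolve_left (pow_ne_zero 2 h)
    · refine ⟨(y • p1 - x • p2).prod (y • p3 - z • p2), fun v hv => ?_⟩
      simp only [LinearMap.prod_apply, Function.prod_apply, Prod.mk_eq_zero] at hv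
      have e1 : y * v.1 = x * v.2.1 := sub_eq_zero.mp hv.1
      have e2 : y * v.2.2 = z * v.2.1 := sub_eq_zero.mp hv.2
      have h2 : y ^ 2 * (v.1 ^ 2 - D * v.2.1 ^ 2 - c * v.2.2 ^ 2) = 0 := by
        linear_combination v.2.1 ^ 2 * hxyz + (y * v.1 + x * v.2.1) * e1 -
          c * (y * v.2.2 + z * v.2.1) * e2
      exact (mul_eq_zero.mp h2).resolve_left (pow_ne_zero 2 h)
    · refine ⟨(z • p1 - x • p3).prod (z • p2 - y • p3), fun v hv => ?_⟩
      simp only [LinearMap.prod_apply, Function.prod_apply, Prod.mk_eq_zero] at hv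
      have e1 : z * v.1 = x * v.2.2 := sub_eq_zero.mp hv.1
      have e2 : z * v.2.1 = y * v.2.2 := sub_eq_zero.mp hv.2
      have h2 : z ^ 2 * (v.1 ^ 2 - D * v.2.1 ^ 2 - c * v.2.2 ^ 2) = 0 := by
        linear_combination v.2.2 ^ 2 * hxyz + (z * v.1 + x * v.2.2) * e1 -
          D * (z * v.2.1 + y * v.2.2) * e2
      exact (mul_eq_zero.mp h2).resolve_left (pow_ne_zero 2 h)
  obtain ⟨φ, hφ⟩ := key
  let q1 : (k[X] × k[X] × k[X]) →ₗ[k] k := (lcoeff k (n + l)).comp (LinearMap.fst k k[X] (k[X] × k[X]))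
  let q2 : (k[X] × k[X] × k[X]) →ₗ[k] k :=
    (lcoeff k l).comp ((LinearMap.fst k k[X] k[X]).comp (LinearMap.snd k k[X] (k[X] × k[X])))
  let q3 : (k[X] × k[X] × k[X]) →ₗ[k] k :=
    (lcoeff k n).comp ((LinearMap.snd k k[X] k[X]).comp (LinearMap.snd k k[X] (k[X] × k[X])))
  obtain ⟨a, b, r, hne', ha, hb, hr, h1, h2, h3⟩ := exists_sol (V := V) (Kp := Kp) hf hfn hU hUl
    (φ.comp (q1.prod (q2.prod q3)))
  have h4 := hφ _ h3
  have h5 : a.coeff (n + l) ^ 2 - D * b.coeff l ^ 2 - c * r.coeff n ^ 2 = 0 := h4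
  have h6 := sol_eq hf hfn hU hUl hcop hUV hK ha hb hr h1 h2
  rw [h5, C_0, zero_mul, sub_eq_zero] at h6
  refine ⟨a, b, r, ?_, h6, h2⟩
  rintro rfl
  rw [zero_mul, mul_zero, sub_eq_zero] at h6
  obtain ⟨rfl, rfl⟩ := hns a b h6
  simp at hne'

/-- A rational root of `f` gives an isotropic vector. -/
theorem iso3_of_root {f U V Kp : k[X]} {n l : ℕ} {D c : k} (hf : f.Monic) (hsq : Squarefree f)
    (hfn : f.natDegree = 2 * n) (hU : U.Monic) (hUl : U.natDegree = 2 * l) (hcop : IsCoprime U f)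
    (hUV : U ∣ C D * f - V ^ 2) (hK : f ∣ C c * U - Kp ^ 2) {θ : k} (hθ : f.eval θ = 0) :
    Iso3 D c := by
  let q2 : (k[X] × k[X] × k[X]) →ₗ[k] k :=
    (leval θ).comp ((LinearMap.fst k k[X] k[X]).comp (LinearMap.snd k k[X] (k[X] × k[X])))
  let q3 : (k[X] × k[X] × k[X]) →ₗ[k] k :=
    (leval θ).comp ((LinearMap.snd k k[X] k[X]).comp (LinearMap.snd k k[X] (k[X] × k[X])))
  obtain ⟨a, b, r, hne, ha, hb, hr, h1, h2, h3⟩ := exists_sol (V := V) (Kp := Kp) hf hfn hU hUl
    (q2.prod q3)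
  have h3' : b.eval θ = 0 ∧ r.eval θ = 0 := by
    have : (b.eval θ, r.eval θ) = ((0 : k), (0 : k)) := h3
    exact Prod.mk.inj this
  obtain ⟨hbθ, hrθ⟩ := h3'
  have hfr : X - C θ ∣ f := dvd_iff_isRoot.mpr hθ
  have hb1 : X - C θ ∣ b := dvd_iff_isRoot.mpr hbθ
  have hr1 : X - C θ ∣ r := dvd_iff_isRoot.mpr hrθ
  have ha1 : X - C θ ∣ a := by
    have h4 : a = (a - r * Kp) + r * Kp := by ring
    rw [h4]
    exact dvd_add (hfr.trans h1) (hr1.mul_right _)
  have h6 := sol_eq hf hfn hU hUl hcop hUV hK ha hb hr h1 h2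
  set lam := a.coeff (n + l) ^ 2 - D * b.coeff l ^ 2 - c * r.coeff n ^ 2 with hlam
  have hl0 : lam = 0 := by
    by_contra hne0
    have h7 : (X - C θ) * (X - C θ) ∣ C lam * (f * U) := by
      rw [← h6]
      exact dvd_sub (dvd_sub (mul_dvd_mul ha1 ha1) ((mul_dvd_mul hb1 hb1).mul_left _))
        ((mul_dvd_mul hr1 hr1).mul_left _)
    obtain ⟨f1, hf1⟩ := hfr
    have hX : (X - C θ : k[X]) ≠ 0 := X_sub_C_ne_zero θ
    have h8 : X - C θ ∣ C lam * (f1 * U) := by
      rw [hf1] at h7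
      have e : C lam * ((X - C θ) * f1 * U) = (X - C θ) * (C lam * (f1 * U)) := by ring
      rw [e] at h7
      exact (mul_dvd_mul_iff_left hX).mp h7
    have hp : Prime (X - C θ : k[X]) := prime_X_sub_C θ
    rcases hp.dvd_or_dvd h8 with h9 | h9
    · have : IsUnit (C lam : k[X]) := isUnit_C.mpr (isUnit_iff_ne_zero.mpr hne0)
      exact hp.not_isUnit (isUnit_of_dvd_unit h9 this)
    · rcases hp.dvd_or_dvd h9 with h10 | h10
      · have : (X - C θ) * (X - C θ) ∣ f := by
          rw [hf1]; exact mul_dvd_mul_left _ h10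
        exact hp.not_isUnit (hsq _ this)
      · obtain ⟨u, v, huv⟩ := hcop
        have : X - C θ ∣ 1 := by
          rw [← huv]
          exact dvd_add (h10.mul_left _) ((dvd_iff_isRoot.mpr hθ).mul_left _)
        exact hp.not_isUnit (isUnit_of_dvd_one this)
  rw [hl0, C_0, zero_mul] at h6
  refine iso3_of_eq hf hfn hU hUl hne ?_
  linear_combination h6

end Pool.Agent.Helper53.EP
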