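import Pool.Agent.Helper53.EP.StP

/-! # EP, module Pj: the degrees of the divisors are even -/

set_option autoImplicit false

namespace Pool.Agent.Helper53.EP

open Polynomial Finset IsDedekindDomain
open Pool.Agent.Helper54.HQ (Prm pz factPrm fK RR LL algRL th kp red)

private theorem even_of_isSquare_Pj {p : ℕ} [Fact p.Prime] {x : ℚ} (hx : x ≠ 0) (h : IsSquare x) :
    Even (padicValRat p x) := by
  obtain ⟨y, rfl⟩ := h
  have hy : y ≠ 0 := fun h0 => hx (by rw [h0, mul_zero])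
  rw [padicValRat.mul hy hy]
  exact ⟨_, rfl⟩

theorem hPj (h1 : StPh) (h2 : StPi) : StPj := by
  intro n hn f hm hdeg P₀ hirr D₁ hD₁ U V hU hcop hdvd
  have hp : Prime (pz P₀) := Nat.prime_iff_prime_int.1 P₀.2
  have hD₁0 : D₁ ≠ 0 := by
    rintro rfl
    exact hD₁ (dvd_zero _)
  have hmK : (fK f).Monic := hm.map (Int.castRingHom ℚ)
  have hdK : (fK f).natDegree = 2 * n := by rw [hm.natDegree_map, hdeg]
  have hnt : Nontrivial (LL f) := by
    refine AdjoinRoot.nontrivial _ ?_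
    intro h0
    have h3 : (fK f).natDegree = 0 := natDegree_eq_zero_iff_degree_le_zero.2 h0.le
    omega
  have hun : IsUnit (AdjoinRoot.mk (fK f) U) := by
    obtain ⟨a, b, hab⟩ := hcop
    refine IsUnit.of_mul_eq_one (AdjoinRoot.mk (fK f) a) ?_
    have h3 := congrArg (AdjoinRoot.mk (fK f)) hab
    rw [map_add, map_mul, map_mul, AdjoinRoot.mk_self, mul_zero, add_zero, map_one, mul_comm] at h3
    exact h3
  have hz : AdjoinRoot.mk (fK f) U ≠ 0 := hun.ne_zero
  have hN : Algebra.norm ℚ (AdjoinRoot.mk (fK f) U) ≠ 0 := (hun.map (Algebra.norm ℚ)).ne_zero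
  have hD : ((pz P₀ * D₁ : ℤ) : ℚ) ≠ 0 := by
    exact_mod_cast mul_ne_zero hp.ne_zero hD₁0
  have hsq := h2 ℚ (fK f) U V ((pz P₀ * D₁ : ℤ) : ℚ) n hmK hdK hD hU hdvd
  have hev := even_of_isSquare_Pj (p := (P₀ : ℕ)) (mul_ne_zero (pow_ne_zero _ hD) hN) hsq
  rw [padicValRat.mul (pow_ne_zero _ hD) hN, padicValRat.pow] at hev
  have hv : padicValRat (P₀ : ℕ) (((pz P₀ * D₁ : ℤ) : ℚ)) = 1 := by
    rw [padicValRat.of_int, padicValInt.mul hp.ne_zero hD₁0]
    have h3 : padicValInt (P₀ : ℕ) (pz P₀) = 1 := by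
      rw [padicValInt.of_nat, padicValNat_self]
    have h4 : padicValInt (P₀ : ℕ) D₁ = 0 := padicValInt.eq_zero_of_not_dvd hD₁
    rw [h3, h4]
    norm_num
  rw [hv, mul_one] at hev
  have h5 := h1 n hn f hm hdeg P₀ hirr _ hz
  have h6 : Even ((U.natDegree : ℤ)) := by
    have h7 := hev.sub h5
    rwa [add_sub_cancel_right] at h7
  exact_mod_cast h6

end Pool.Agent.Helper53.EP
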