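import Pool.Agent.Helper3.PD.Main

/-!
# Ideal classes of `k[x, y] / (y ^ 2 - h(x))`, `h` squarefree of any degree

Adaptation of `Pool/Agent/Helper3/PD` (odd degree) to the case where `h` is not a square.
-/

set_option autoImplicit false

namespace Pool.Agent.Helper53.EP

open Polynomial
open Pool.Agent.Helper3.PD

universe u

variable {k : Type u} [Field k] {h : k[X]}

/-- `h` is not a square in `k(x)`. -/
def NS (h : k[X]) : Prop := ∀ a b : k[X], a * a = h * (b * b) → a = 0 ∧ b = 0

/-- A squarefree polynomial which is not a unit is not a square. -/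
lemma NS_of_squarefree (hsq : Squarefree h) (hu : ¬ IsUnit h) : NS h := by
  intro a b hab
  have hh : h ≠ 0 := hsq.ne_zero
  obtain ⟨q, hq, hqh⟩ := WfDvdMonoid.exists_irreducible_factor hu hh
  have hqp : Prime q := hq.prime
  by_cases hb : b = 0
  · subst hb
    simp at hab
    exact ⟨hab, rfl⟩
  exfalso
  have ha : a ≠ 0 := by
    rintro rfl
    simp at hab
    rcases hab with h1 | h1
    · exact hh h1
    · exact hb h1
  have e1 : emultiplicity q (a * a) = emultiplicity q (h * (b * b)) := by rw [hab]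
  have f1 : FiniteMultiplicity q a := FiniteMultiplicity.of_not_isUnit hqp.not_isUnit ha
  have f2 : FiniteMultiplicity q b := FiniteMultiplicity.of_not_isUnit hqp.not_isUnit hb
  have f3 : emultiplicity q h = 1 := by
    have h1 : ¬ q ^ 2 ∣ h := by
      rw [pow_two]
      intro h2
      exact hqp.not_isUnit (hsq q h2)
    have := emultiplicity_eq_coe (a := q) (b := h) (n := 1)
    rw [show (1 : ℕ∞) = ((1 : ℕ) : ℕ∞) from rfl, this]
    exact ⟨by rwa [pow_one], h1⟩
  rw [emultiplicity_mul hqp, emultiplicity_mul hqp, emultiplicity_mul hqp,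
    f1.emultiplicity_eq_multiplicity, f2.emultiplicity_eq_multiplicity, f3] at e1
  have e2 : multiplicity q a + multiplicity q a = 1 + (multiplicity q b + multiplicity q b) := by
    exact_mod_cast e1
  omega

lemma mul_eq_zeroE (hns : NS h) {α β : CR h} (hα : α ≠ 0) (hαβ : α * β = 0) :
    β = 0 := by
  obtain ⟨a, b, rfl⟩ := exists_rep α
  have hN : a * a - h * (b * b) ≠ 0 := by
    intro h0
    obtain ⟨h1, h2⟩ := hns _ _ (sub_eq_zero.mp h0)
    exact hα (by simp [h1, h2])
  apply io_mul_eq_zero hN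
  rw [← norm_rep]
  linear_combination (io h a - io h b * yy h) * hαβ


lemma exists_mumE (hns : NS h) {I : Ideal (CR h)} (hI : I ≠ ⊥) :
    ∃ d U V U' : k[X], d ≠ 0 ∧ U.Monic ∧ U * U' = h - V ^ 2 ∧
      I = Ideal.span {io h d} * mum h U V := by
  obtain ⟨d, hd⟩ := (IsPrincipalIdealRing.principal (lead I)).principal
  obtain ⟨e, he⟩ := (IsPrincipalIdealRing.principal (I.comap (io h))).principal
  rw [Ideal.submodule_span_eq] at hd he
  have hdm : d ∈ lead I := by rw [hd]; exact Ideal.mem_span_singleton_self d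
  have hem : io h e ∈ I := by
    have : e ∈ I.comap (io h) := by rw [he]; exact Ideal.mem_span_singleton_self e
    simpa using this
  have he0 : e ≠ 0 := by
    rintro rfl
    obtain ⟨α, hα, hα0⟩ := Submodule.exists_mem_ne_zero_of_ne_bot hI
    obtain ⟨a, b, rfl⟩ := exists_rep α
    have h1 : a * a - h * (b * b) ∈ I.comap (io h) := by
      rw [Ideal.mem_comap, ← norm_rep]
      exact I.mul_mem_right _ hα
    rw [he, Ideal.mem_span_singleton, zero_dvd_iff] at h1
    obtain ⟨h2, h3⟩ := hns _ _ (sub_eq_zero.mp h1)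
    exact hα0 (by simp [h2, h3])
  have hed : e ∈ lead I := by
    refine ⟨0, ?_⟩
    have := I.mul_mem_right (yy h) hem
    simpa using this
  rw [hd, Ideal.mem_span_singleton] at hed
  obtain ⟨U, rfl⟩ := hed
  have hd0 : d ≠ 0 := left_ne_zero_of_mul he0
  have hU0 : U ≠ 0 := right_ne_zero_of_mul he0
  obtain ⟨a0, ha0⟩ := hdm
  have ha0' : a0 ∈ lead I := by
    refine ⟨h * d, ?_⟩
    have := I.mul_mem_right (yy h) ha0
    convert this using 1
    simp only [map_mul]
    linear_combination (-(io h d)) * (y_sq (h := h))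
  rw [hd, Ideal.mem_span_singleton] at ha0'
  obtain ⟨V', rfl⟩ := ha0'
  obtain ⟨V, rfl⟩ : ∃ V, V' = - V := ⟨-V', by ring⟩
  have hβ : io h d * (yy h - io h V) ∈ I := by
    convert ha0 using 1
    simp only [map_mul, map_neg]
    ring
  have hUV : U ∣ h - V ^ 2 := by
    have h1 : d * (h - V ^ 2) ∈ I.comap (io h) := by
      rw [Ideal.mem_comap]
      have := I.mul_mem_right (yy h + io h V) hβ
      convert this using 1
      simp only [map_mul, map_sub, map_pow]
      linear_combination (-(io h d)) * (y_sq (h := h))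
    rw [he, Ideal.mem_span_singleton] at h1
    exact (mul_dvd_mul_iff_left hd0).mp h1
  set c := U.leadingCoeff with hc
  have hc0 : c ≠ 0 := leadingCoeff_ne_zero.mpr hU0
  have hU1 : (C c⁻¹ * U).Monic := by
    rw [Monic, leadingCoeff_mul, leadingCoeff_C]
    exact inv_mul_cancel₀ hc0
  have hUU : U = C c * (C c⁻¹ * U) := by
    rw [← mul_assoc, ← C_mul, mul_inv_cancel₀ hc0, C_1, one_mul]
  obtain ⟨U', hU'⟩ := hUV
  refine ⟨d, C c⁻¹ * U, V, C c * U', hd0, hU1, ?_, ?_⟩
  · rw [hU']
    conv_rhs => rw [hUU]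
    ring
  · apply le_antisymm
    · intro α hα
      obtain ⟨a, b, rfl⟩ := exists_rep α
      have hb : b ∈ lead I := ⟨a, hα⟩
      rw [hd, Ideal.mem_span_singleton] at hb
      obtain ⟨q, rfl⟩ := hb
      have h1 : a + q * d * V ∈ I.comap (io h) := by
        rw [Ideal.mem_comap]
        have := I.sub_mem hα (I.mul_mem_left (io h q) hβ)
        convert this using 1
        simp only [map_mul, map_add]
        ring
      rw [he, Ideal.mem_span_singleton] at h1
      obtain ⟨s, hs⟩ := h1
      have h2 : io h a + io h (d * q) * yy h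
          = io h d * (io h (C c * s) * io h (C c⁻¹ * U) + io h q * (yy h - io h V)) := by
        have h3 : io h a = io h (d * U * s - q * d * V) := by
          rw [← hs]; congr 1; ring
        have h4 : io h (C c * s) * io h (C c⁻¹ * U) = io h (U * s) := by
          rw [← map_mul]
          congr 1
          calc C c * s * (C c⁻¹ * U) = (C c * (C c⁻¹ * U)) * s := by ring
            _ = U * s := by rw [← hUU]
        rw [h3, h4]
        simp only [map_mul, map_sub]
        ring
      rw [h2]
      apply Ideal.mul_mem_mul (Ideal.mem_span_singleton_self _)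
      unfold mum
      rw [Ideal.mem_span_pair]
      exact ⟨io h (C c * s), io h q, rfl⟩
    · rw [Ideal.mul_le]
      intro r hr s hs
      rw [Ideal.mem_span_singleton] at hr
      obtain ⟨r', rfl⟩ := hr
      unfold mum at hs
      rw [Ideal.mem_span_pair] at hs
      obtain ⟨p, q, rfl⟩ := hs
      have h1 : io h d * r' * (p * io h (C c⁻¹ * U) + q * (yy h - io h V))
          = (r' * p * io h (C c⁻¹)) * io h (d * U) + (r' * q) * (io h d * (yy h - io h V)) := by
        simp only [map_mul]
        ring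
      rw [h1]
      exact I.add_mem (I.mul_mem_left _ hem) (I.mul_mem_left _ hβ)


/-- If `a ^ 2 - h b ^ 2 = c U r ^ 2` and `U ∣ a + b V` then the class of the ideal of the pair is a square. -/
theorem main_sqE (hns : NS h) (hsq : Squarefree h) (h2 : (2 : k) ≠ 0)
    {U V : k[X]} (hU : U.Monic)
    (hUV : U ∣ h - V ^ 2) {a b r : k[X]} {c : k} (hc : c ≠ 0) (hr : r ≠ 0)
    (hab : a * a - h * (b * b) = C c * U * (r * r)) (hdv : U ∣ a + b * V) :
    ∃ (J K : Ideal (CR h)) (a b c : CR h), a ≠ 0 ∧ b ≠ 0 ∧ c ≠ 0 ∧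
      Ideal.span {a} * mum h U V = Ideal.span {b} * J ^ 2 ∧ J * K = Ideal.span {c} := by
  obtain ⟨e, he⟩ := hdv
  obtain ⟨U', hU'⟩ := hUV
  set α := io h a + io h b * yy h with hα
  have hα0 : α ≠ 0 := by
    intro h0
    obtain ⟨rfl, rfl⟩ := rep_zero h0
    have h3 : C c * U * (r * r) ≠ 0 := by
      have : (C c : k[X]) ≠ 0 := C_ne_zero.mpr hc
      exact mul_ne_zero (mul_ne_zero this hU.ne_zero) (mul_ne_zero hr hr)
    apply h3
    rw [← hab]
    ring
  have hI := mum_mul_alpha hsq h2 hU'.symm he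
  set A : Ideal (CR h) := Ideal.span {io h a + io h b * yy h,
    io h (e * V + b * U') + io h e * yy h} with hA
  have hA0 : A ≠ ⊥ := by
    intro h0
    have : α ∈ A := Ideal.subset_span (by simp [hα])
    rw [h0, Ideal.mem_bot] at this
    exact hα0 this
  obtain ⟨d, W, Z, W', hd, hW, hWZ, hAd⟩ := exists_mumE hns hA0
  -- norms
  have hconj : (mum h U V * A).map (conj h) = (Ideal.span {α}).map (conj h) := by rw [hI]
  rw [Ideal.map_mul, map_mum, hAd, Ideal.map_mul, map_mum, Ideal.map_span, Ideal.map_span,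
    Set.image_singleton, Set.image_singleton, conj_io] at hconj
  have hcα : conj h α = io h a - io h b * yy h := by
    rw [hα]
    simp only [map_add, map_mul, conj_io, conj_y]
    ring
  rw [hcα] at hconj
  have hN : (Ideal.span {α} : Ideal (CR h)) * Ideal.span {io h a - io h b * yy h}
      = Ideal.span {io h (C c * U * (r * r))} := by
    rw [Ideal.span_singleton_mul_span_singleton, hα, norm_rep, hab]
  have hprod : (Ideal.span {io h (U * (d * d) * W)} : Ideal (CR h))
      = Ideal.span {io h (C c * U * (r * r))} := by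
    rw [← hN, ← hconj, ← hI, hAd]
    calc (Ideal.span {io h (U * (d * d) * W)} : Ideal (CR h))
        = Ideal.span {io h U} * (Ideal.span {io h d} * Ideal.span {io h d})
            * Ideal.span {io h W} := by
          rw [span_io_mul_span_io, span_io_mul_span_io, span_io_mul_span_io]
      _ = (mum h U V * mum h U (-V)) * (Ideal.span {io h d} * Ideal.span {io h d})
            * (mum h W Z * mum h W (-Z)) := by
          rw [mum_mul_neg hsq h2 hU'.symm, mum_mul_neg hsq h2 hWZ]
      _ = _ := by ring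
  -- the polynomial identity
  have hs : (C c⁻¹ : k[X]) * C c = 1 := by
    rw [← C_mul, inv_mul_cancel₀ hc, C_1]
  have hdv1 : d * d * W ∣ r * r := by
    have h3 : io h (U * (d * d) * W) ∣ io h (C c * U * (r * r)) := by
      rw [← Ideal.mem_span_singleton, hprod]
      exact Ideal.mem_span_singleton_self _
    obtain ⟨q, hq⟩ := io_dvd h3
    refine ⟨C c⁻¹ * q, ?_⟩
    apply mul_left_cancel₀ hU.ne_zero
    calc U * (r * r) = C c⁻¹ * (C c * U * (r * r)) := by
          linear_combination (-(U * (r * r))) * hs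
      _ = _ := by rw [hq]; ring
  have hdv2 : r * r ∣ d * d * W := by
    have h3 : io h (C c * U * (r * r)) ∣ io h (U * (d * d) * W) := by
      rw [← Ideal.mem_span_singleton, ← hprod]
      exact Ideal.mem_span_singleton_self _
    obtain ⟨q, hq⟩ := io_dvd h3
    refine ⟨C c * q, ?_⟩
    apply mul_left_cancel₀ hU.ne_zero
    calc U * (d * d * W) = U * (d * d) * W := by ring
      _ = _ := by rw [hq]; ring
  have hdr : d ∣ r := by
    have h3 : d ^ 2 ∣ r ^ 2 := by
      rw [pow_two, pow_two]
      exact (dvd_mul_right _ _).trans hdv1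
    exact (IsIntegrallyClosed.pow_dvd_pow_iff two_ne_zero).mp h3
  obtain ⟨w0, rfl⟩ := hdr
  have hw0 : w0 ≠ 0 := right_ne_zero_of_mul hr
  have hWw : Associated (w0 * w0) W := by
    apply associated_of_dvd_dvd
    · have h3 : d * d * (w0 * w0) ∣ d * d * W := by
        convert hdv2 using 1; ring
      exact (mul_dvd_mul_iff_left (mul_ne_zero hd hd)).mp h3
    · have h3 : d * d * W ∣ d * d * (w0 * w0) := by
        convert hdv1 using 1; ring
      exact (mul_dvd_mul_iff_left (mul_ne_zero hd hd)).mp h3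
  -- normalise
  have hlw : w0.leadingCoeff ≠ 0 := leadingCoeff_ne_zero.mpr hw0
  set w := C w0.leadingCoeff⁻¹ * w0 with hw
  have hwm : w.Monic := by
    rw [hw, Monic, leadingCoeff_mul, leadingCoeff_C]
    exact inv_mul_cancel₀ hlw
  have hww : W = w ^ 2 := by
    apply eq_of_monic_of_associated hW (hwm.pow 2)
    refine hWw.symm.trans ?_
    refine ⟨(Units.map (C : k →+* k[X]).toMonoidHom (Units.mk0 (w0.leadingCoeff⁻¹ ^ 2)
      (pow_ne_zero 2 (inv_ne_zero hlw)))), ?_⟩
    simp only [Units.coe_map, MonoidHom.coe_coe, Units.val_mk0, RingHom.toMonoidHom_eq_coe]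
    rw [hw, map_pow]
    ring
  subst hww
  have hJ := mum_sq hsq h2 hWZ
  have hJK := mum_mul_neg hsq h2 (h := h) (U := w) (U' := w * W') (W := Z)
    (by rw [← hWZ]; ring)
  -- `I * (d) * J ^ 2 = (α)`
  refine ⟨mum h w (-Z), mum h w Z, io h (d * w ^ 2), α, io h w, ?_, hα0, ?_, ?_, ?_⟩
  · exact io_ne_zero (mul_ne_zero hd (pow_ne_zero 2 hwm.ne_zero))
  · exact io_ne_zero hwm.ne_zero
  · rw [← hI, hAd, hJ]
    calc (Ideal.span {io h (d * w ^ 2)} : Ideal (CR h)) * mum h U V
        = (Ideal.span {io h d} * (Ideal.span {io h w} * Ideal.span {io h w})) * mum h U V := by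
          rw [span_io_mul_span_io, span_io_mul_span_io, ← pow_two w]
      _ = (Ideal.span {io h d} * ((mum h w Z * mum h w (-Z)) * (mum h w Z * mum h w (-Z))))
            * mum h U V := by rw [hJK]
      _ = _ := by ring
  · rw [mul_comm, hJK]


/-- The group of ideal classes is divisible by two if the norm equation can be solved for all pairs. -/
theorem divisibleE (hns : NS h) (hsq : Squarefree h) (h2 : (2 : k) ≠ 0)
    (hval : ∀ U V : k[X], U.Monic → IsCoprime U h → U ∣ h - V ^ 2 →
      ∃ (a b r : k[X]) (c : k), c ≠ 0 ∧ r ≠ 0 ∧ a * a - h * (b * b) = C c * U * (r * r) ∧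
        U ∣ a + b * V) (I : Ideal (CR h)) (hI : I ≠ ⊥) :
    ∃ (J : Ideal (CR h)) (a b : CR h), a ≠ 0 ∧ b ≠ 0 ∧
      Ideal.span {a} * I = Ideal.span {b} * J ^ 2 := by
  obtain ⟨d, U, V, U'', hd, hU, hUU, rfl⟩ := exists_mumE hns hI
  obtain ⟨s, U', hU', hcop⟩ := moving hsq (U := U) (V := V) ⟨U'', hUU.symm⟩
  set W := V + U * s with hW
  have hU'0 : U' ≠ 0 := by
    rintro rfl
    rw [mul_zero] at hU'
    obtain ⟨h3, h4⟩ := hns W 1 (by linear_combination hU')
    exact one_ne_zero h4
  set c := U'.leadingCoeff with hc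
  have hc0 : c ≠ 0 := leadingCoeff_ne_zero.mpr hU'0
  have hU1 : (C c⁻¹ * U').Monic := by
    rw [Monic, leadingCoeff_mul, leadingCoeff_C]
    exact inv_mul_cancel₀ hc0
  have hUc : U' = C c * (C c⁻¹ * U') := by
    rw [← mul_assoc, ← C_mul, mul_inv_cancel₀ hc0, C_1, one_mul]
  have hdv : C c⁻¹ * U' ∣ h - W ^ 2 := by
    refine ⟨C c * U, ?_⟩
    rw [← hU']
    conv_lhs => rw [hUc]
    ring
  have hcop1 : IsCoprime (C c⁻¹ * U') h := by
    exact (isCoprime_mul_unit_left_left
      (isUnit_C.mpr (isUnit_iff_ne_zero.mpr (inv_ne_zero hc0))) _ _).mpr hcop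
  obtain ⟨a', b', r', c', hc', hr', hab', hd'⟩ := hval _ W hU1 hcop1 hdv
  obtain ⟨J, K, a, b, e, ha, hb, he, h3, h4⟩ := main_sqE hns hsq h2 hU1 hdv hc' hr' hab' hd'
  rw [mum_unit (inv_ne_zero hc0)] at h3
  have h5 := mum_mul hsq h2 hU'
  rw [mum_congr hW] at h5
  have hyW : yy h - io h W ≠ 0 := by
    intro h0
    have : io h (-W) + io h 1 * yy h = 0 := by
      simp only [map_neg, map_one]; linear_combination h0
    exact one_ne_zero (rep_zero this).2
  refine ⟨K, b * e ^ 2, a * io h d * (yy h - io h W), ?_, ?_, ?_⟩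
  · intro h0
    have h6 := mul_eq_zeroE hns hb h0
    rw [pow_two] at h6
    exact he (mul_eq_zeroE hns he h6)
  · intro h0
    have h6 : (a * io h d) ≠ 0 := by
      intro h7
      exact io_ne_zero hd (mul_eq_zeroE hns ha h7)
    exact hyW (mul_eq_zeroE hns h6 h0)
  · have e1 : (Ideal.span {b * e ^ 2} : Ideal (CR h))
        = Ideal.span {b} * (Ideal.span {e} * Ideal.span {e}) := by
      rw [Ideal.span_singleton_mul_span_singleton, Ideal.span_singleton_mul_span_singleton,
        ← pow_two e]
    have e2 : (Ideal.span {a * io h d * (yy h - io h W)} : Ideal (CR h))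
        = Ideal.span {a} * Ideal.span {io h d} * Ideal.span {yy h - io h W} := by
      rw [Ideal.span_singleton_mul_span_singleton, Ideal.span_singleton_mul_span_singleton]
    rw [e1, e2, ← h5, ← h4]
    calc Ideal.span {b} * (J * K * (J * K)) * (Ideal.span {io h d} * mum h U V)
        = (Ideal.span {b} * J ^ 2) * K ^ 2 * (Ideal.span {io h d} * mum h U V) := by ring
      _ = (Ideal.span {a} * mum h U' W) * K ^ 2 * (Ideal.span {io h d} * mum h U V) := by
          rw [← h3]
      _ = _ := by ring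


end Pool.Agent.Helper53.EP
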