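import Pool.Agent.Helper53.EP.Lin
import Pool.Agent.Helper54.HQ.StI
import Pool.Agent.Helper3.EV.Defs
import Pool.Agent.Helper3.PD.Selmer

/-!
# EP: the Picard part of the project EV (statements)

`f` is monic of degree `2 n` (`= 2 g + 2`), the curve is `y² = D f(x)`.  Given that all classes in the fake
2-Selmer set are constants times squares, it is proved that all divisors have even degree and that the
Picard group of the affine curve is divisible by two.  The algebra is in `EP/Main.lean`, `EP/Lin.lean`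
(`divisibleE`, `norm_eq`, `iso3_of_root`).  Everything which is proved for HQ (`Pool/Agent/Helper54/HQ/All.lean`,
theorems `HQ.a_*`, e.g. `a_Hc`, `a_Hf`, `a_LD`, `a_IN`, `a_EI`, `a_NV`, `a_DE`) and HL may be used.
-/

set_option autoImplicit false

namespace Pool.Agent.Helper53.EP

open Polynomial Finset IsDedekindDomain
open Pool.Agent.Helper54.HQ (Prm pz factPrm fK RR LL algRL th kp red IsSym hs hs2 hsR TwAt EvenAt Over LD)
open Pool.Agent.Helper54.HL (tk IrrInt IrrBig Nr)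
open Pool.Agent.Helper3.EV (Dbl TType AType IType Good)

/-! ### Symbols -/

/-- Pa (symbols and ternary forms).  `x² = D y² + c z²`, nontrivial.  If `x, y, z ≠ 0`: Steinberg for
`D (y/x)² + c (z/x)² = 1`, squares can be dropped since `s(u², v) = 2 s(u, v) = 0`.  If `y = 0` then
`x, z ≠ 0` and `c = (x/z)²`; if `z = 0` then `D` is a square; if `x = 0` then `c = - D (y/z)²` and
`s(D, -D) = 0` (for `D ≠ 1`: `-D = (1 - D) / (1 - D⁻¹)`, Steinberg for `D + (1 - D) = 1` and for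
`D⁻¹ + (1 - D⁻¹) = 1`; for `D = 1`: `s(1, v) = 0`). -/
def StPa : Prop :=
  ∀ (K : Type) [Field K] (s : K → K → ZMod 2), IsSym K s → ∀ D c : K, D ≠ 0 → c ≠ 0 →
    Iso3 D c → s D c = 0

/-- Pb1 (Legendre's theorem, integers).  Both `hs` conditions are symmetric in `a`, `b`, and so is
`Iso3` (`x² = a y² + b z²`).  Strong induction on `|a| + |b|`.  Reduction to squarefree `a`, `b`
(`Nat.sq_mul_squarefree`/`Int`: `a = a' u²`: `hs(a, b) = hs(a', b)` by bilinearity, `Iso3` does not change).  Let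
`a, b` be squarefree, `|a| ≤ |b|`.  `|b| = 1`: then `a, b = ± 1`, not both `-1`: `x² = 1 y² + ..`.
`|b| ≥ 2`: for every odd prime `p ∣ b`, `p ∤ a`: `0 = hs p a b = lg (a mod p)` (`ur p a = a`, `v2 p a = 0`,
`v2 p b = 1`, see the lemmas `v2_int_Hf`, `ur_int_Hf` .. in `HQ/M_Hf.lean`), so `a` is a square modulo `p`; also
modulo `2` and modulo the `p ∣ a`.  By the Chinese remainder theorem `b ∣ t² - a` for some `t`, and one may
take `2 |t| ≤ |b|` (`Int.bmod`).  If `t² = a`: `(x, y, z) = (t, 1, 0)`.  Otherwise `t² - a = b b₂ u²` with `b₂`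
squarefree (or just: `t² - a = b b₁`, `b₁ ≠ 0`, without making `b₁` squarefree: the induction hypothesis is
for all integers), `|b₁| ≤ |b|/4 + 1 < |b|`.  `hs p a (b b₁) = 0` by Pa (`t² = a 1² + b b₁ 1²`), so
`hs p a b₁ = - hs p a b = 0`.  Signs: if `a < 0` then `b > 0` and `b b₁ = t² - a > 0`, so `b₁ > 0`.  Induction:
`x² = a y² + b₁ z²`, and `(t² - a)(x² - a y²) = (t x + a y)² - a (t y + x)²`, so
`(t x + a y)² = a (t y + x)² + b (b₁ z)²`, nontrivial if `z ≠ 0`; if `z = 0` then `(x, y, 0)` is a solution for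
`(a, b)`. -/
def StPb1 : Prop :=
  ∀ a b : ℤ, a ≠ 0 → b ≠ 0 → (0 < a ∨ 0 < b) →
    (∀ P : Prm, (P : ℕ) ≠ 2 → hs (P : ℕ) (((a : ℚ) : ℚ_[(P : ℕ)])) ((b : ℚ) : ℚ_[(P : ℕ)]) = 0) →
    Iso3 (a : ℚ) (b : ℚ)

/-- Pb (all places but `P₀`).  Multiply `c` by the square of its denominator: `c ∈ ℤ`.  Product formula
`HQ.StHf` (proved: `HQ.a_Hf`) for `S` = all odd primes dividing `D c` and `P₀`: `hs2 D c = 0` as `D ≡ 1 mod 8`
(`u8 D = 1`, `v2 D = 0`), `hsR D c = 0` as `D > 0`; so `hs P₀ D c = 0` too.  Now Pb1. -/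
def StPb : Prop :=
  ∀ (D : ℤ) (c : ℚ) (P₀ : Prm), 0 < D → D % 8 = 1 → c ≠ 0 → (P₀ : ℕ) ≠ 2 →
    (∀ P : Prm, (P : ℕ) ≠ 2 → P ≠ P₀ → hs (P : ℕ) ((D : ℚ) : ℚ_[(P : ℕ)]) (c : ℚ_[(P : ℕ)]) = 0) →
    Iso3 (D : ℚ) c

/-! ### The places which do not divide `D` -/

/-- Pd1 (norms).  `F` is a finite extension of `ℚ_p` which contains a square root `δ` of `D`, where `D` is not a
square modulo `p`.  Let `K = ℚ_p[x]/(x² - D)` (a field; `F` is a `K`-algebra by `x ↦ δ`).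
`N_(F/ℚ_p)(y) = N_(K/ℚ_p)(N_(F/K)(y))` (`Algebra.norm_norm`) and the norms from `K` are `a² - D b²`, with even
valuation: multiply `a`, `b` by a power of `p` such that both are in `ℤ_p` and not both divisible by `p`; then
`a² - D b²` is a unit because `D` is not a square modulo `p`.  (Or: `Iso3 D (a² - D b²)`, Pa and
`hs p D c = v2 p c`.) -/
def StPd1 : Prop :=
  ∀ (p : ℕ) [Fact p.Prime], p ≠ 2 → ∀ D : ℤ, ¬ IsSquare (D : ZMod p) →
    ∀ (F : Type) [Field F] [Algebra ℚ_[p] F] [Module.Finite ℚ_[p] F] (δ : F), δ ^ 2 = (D : F) →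
    ∀ y : F, y ≠ 0 → Even (Algebra.norm ℚ_[p] y).valuation

/-- Pd2 (points near infinity).  `U` is irreducible over `ℚ_p` and its constant coefficient dominates
(`IrrBig`), so a root `u` of `U` in `Ω = PadicAlgCl p` (`Mathlib/NumberTheory/Padics/Complex.lean`, a normed field,
the norm extends that of `ℚ_p`) has `‖u‖ > 1` (`0 = U(u)`, and `‖U_l / U_0‖ ≤ 1/p` for all `l ≥ 1`).  `f` has
coefficients in `ℤ_p` and is monic of degree `2 n`: `f(u) = u^(2n) (1 + s)` with `‖s‖ < 1`, and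
`D f(u) = V(u)²`.  For `w = V(u)/u^n` we have `w² = D (1 + s)`.  Let `δ ∈ Ω`, `δ² = D`, `‖D‖ = 1`:
`‖w - δ‖ ‖w + δ‖ = ‖D s‖ < 1`, so after a change of sign `‖w - δ‖ < 1 = ‖2 δ‖ = ‖δ - (-δ)‖`: Krasner's lemma
(`Mathlib/Analysis/Normed/Field/Krasner.lean`, the conjugates of `δ` are `± δ`) gives `δ ∈ ℚ_p(w) ⊆ ℚ_p(u)`,
and `ℚ_p(u) ≅ AdjoinRoot U`.  (Alternatively use Hensel's lemma for `x² - D` in the valuation ring of the
complete field `AdjoinRoot U`, or the binomial series.) -/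
def StPd2 : Prop :=
  ∀ (p : ℕ) [Fact p.Prime], p ≠ 2 → ∀ D : ℤ, ¬ IsSquare (D : ZMod p) →
    ∀ (n : ℕ) (f : ℤ_[p][X]), f.Monic → f.natDegree = 2 * n → ∀ U V : ℚ_[p][X], U.Monic →
    Irreducible U → IrrBig (p : ℤ_[p]) U →
    U ∣ C (D : ℚ_[p]) * f.map (algebraMap ℤ_[p] ℚ_[p]) - V ^ 2 →
    ∃ δ : AdjoinRoot U, δ ^ 2 = (D : AdjoinRoot U)

/-- Pd (points near infinity).  Pd2 and Pd1 for `F = AdjoinRoot U`, `y` = the root: the norm of the root is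
`± U(0)`. -/
def StPd : Prop :=
  ∀ (p : ℕ) [Fact p.Prime], p ≠ 2 → ∀ D : ℤ, ¬ IsSquare (D : ZMod p) →
    ∀ (n : ℕ) (f : ℤ_[p][X]), f.Monic → f.natDegree = 2 * n → ∀ U V : ℚ_[p][X], U.Monic →
    Irreducible U → IrrBig (p : ℤ_[p]) U →
    U ∣ C (D : ℚ_[p]) * f.map (algebraMap ℤ_[p] ℚ_[p]) - V ^ 2 →
    Even (U.coeff 0).valuation

/-- Pe (even valuations).  Adapt `HQ/M_Even.lean` (`HQ.hEven`, 115 lines; all modules it uses are proved:
`HQ.a_LD`, `HQ.a_IN`, `HQ.a_EI`, `HQ.a_NV`, `HQ.a_DE`, `HL.aNG`, ..).  The only change is in the case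
`IrrBig` (there the odd degree of `f` and `HL.StBG` are used): now `U = U₀ (1 + π ..)`, `U₀ = U(0)`, and by Pd
`U₀ = p^(2j) a₀` with a unit `a₀` of `ℤ_p` (also `D` is a unit).  Take an integer `a` with
`a ≡ (-D)^(deg U) a₀ mod p`; then `z = p^(2j) a ∈ LL f` has even valuation at all `q` over `P` (`a` is a unit
there: `HQ.StNV`, or since `1 = a x + p y`), and `z / ((-D)^(deg U) U(θ))` lies in `1 + π O[θ]`
(`Nr`, see `HL.StNG` for products and inverses). -/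
def StPe : Prop :=
  ∀ (n : ℕ), 1 ≤ n → ∀ (f : ℤ[X]), f.Monic → f.natDegree = 2 * n →
    ∀ [Fact (Irreducible (fK f))] [IsDedekindDomain (RR f)] [IsFractionRing (RR f) (LL f)]
      (P : Prm) (D : ℤ), (P : ℕ) ≠ 2 → ¬ IsSquare (D : ZMod (P : ℕ)) →
    ∀ z : (LL f)ˣ, TwAt f D (P : ℕ) z → ∀ q, Over P q → EvenAt q (z : LL f)

/-- Pf (a prime with odd ramification).  Suppose `c = p^v c'`, `v` odd.  Then (`c'` is a unit at all `q` over `P`,
so `EvenAt q p`) the ideal `(p)` of the Dedekind ring `R = ℤ[θ]` is a square `J²` (all exponents of its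
factorisation are even; `HeightOneSpectrum`, `valuation`, or `Associates`/`normalizedFactors`).  `p ∈ J`, and
`R/(p) = 𝔽_p[x]/f̄`, so `J` is the preimage of `(h̄)` with `h̄` monic, `h̄ ∣ f̄` (principal ideal ring).
`|R/J| = p^(deg h̄)` and `|R/J|² = |R/(p)| = p^(2n)` (`Ideal.absNorm`, multiplicative), so `deg h̄ = n`.  And
`h(θ)² ∈ J² = (p)` gives `f̄ ∣ h̄²`, so `f̄ = h̄²` and `Dbl p f` since `n ≥ 2`. -/
def StPf : Prop :=
  ∀ (n : ℕ), 2 ≤ n → ∀ (f : ℤ[X]), f.Monic → f.natDegree = 2 * n →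
    ∀ [Fact (Irreducible (fK f))] [IsDedekindDomain (RR f)] [IsFractionRing (RR f) (LL f)]
      (P : Prm), ¬ Dbl (P : ℕ) f → ∀ c : ℚ, c ≠ 0 →
    (∀ q, Over P q → EvenAt q (algebraMap ℚ (LL f) c)) → Even (padicValRat (P : ℕ) c)

/-! ### The places which divide `D` -/

/-- Pg (a root).  `f̄ = (x - a)(x - b) p`, `a ≠ b`, `p` irreducible of degree `2 g ≥ 2`, so `a` is a simple root;
it lifts by Hensel's lemma (`HQ.a_LD` gives `RootLift`, or `hensels_lemma`). -/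
def StPg : Prop :=
  ∀ (g : ℕ), 1 ≤ g → ∀ (f : ℤ[X]), f.Monic → ∀ P : Prm, f.map (red P) ∈ TType (kp P) g →
    ∃ θ : ℚ_[(P : ℕ)], ((fK f).map (algebraMap ℚ ℚ_[(P : ℕ)])).eval θ = 0

/-- Ph (norms at `P₀`).  `z = r • m(θ)` with `r ∈ ℚ`, `m ∈ ℤ[x]` primitive of degree `< 2 n`.
`N(z) = r^(2n) N(m(θ))`, and `N(m(θ)) = Res(f, m)` is an integer prime to `P₀` since its reduction is
`N(m̄(θ̄)) ≠ 0` in the field `𝔽[x]/f̄` (`m̄ ≠ 0` of degree `< 2 n`). -/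
def StPh : Prop :=
  ∀ (n : ℕ), 1 ≤ n → ∀ (f : ℤ[X]), f.Monic → f.natDegree = 2 * n → ∀ P : Prm,
    Irreducible (f.map (red P)) → ∀ z : LL f, z ≠ 0 → Even (padicValRat (P : ℕ) (Algebra.norm ℚ z))

/-- Pi (the norm of a point value).  `N(U(θ)) = ∏_(f(θ)=0) U(θ) = Res(f, U) = Res(U, f)` (even degree) and
`D^(deg U) Res(U, f) = Res(U, D f) = Res(U, V²) = (..)²`.  Compare `Helper3.PD.norm_isSquare` (which is
`(-1)^deg U`, odd degree) and `HQ/M_NMB.lean`, `HL.StNM`. -/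
def StPi : Prop :=
  ∀ (k : Type) [Field k] (f U V : k[X]) (D : k) (n : ℕ), f.Monic → f.natDegree = 2 * n → D ≠ 0 →
    U.Monic → U ∣ C D * f - V ^ 2 →
    IsSquare (D ^ U.natDegree * Algebra.norm k (AdjoinRoot.mk f U))

/-! ### Conclusion -/

/-- Pj (even degrees).  If `deg U` is odd then `D N(U(θ))` is a nonzero square (Pi; `U(θ) ≠ 0` by coprimality),
but `v(D) = 1` and `v(N(U(θ)))` is even at `P₀` (Ph). -/
def StPj : Prop :=
  ∀ (n : ℕ), 1 ≤ n → ∀ (f : ℤ[X]), f.Monic → f.natDegree = 2 * n → ∀ P₀ : Prm,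
    Irreducible (f.map (red P₀)) → ∀ D₁ : ℤ, ¬ pz P₀ ∣ D₁ → ∀ U V : ℚ[X], U.Monic →
    IsCoprime U (fK f) → U ∣ C (((pz P₀ * D₁ : ℤ) : ℚ)) * fK f - V ^ 2 → Even U.natDegree

/-- Pk (the symbols of `D` and `c`).  `z = U(θ)`, `deg U = 2 l`, `z = c β²` in `LL f`, `D = P₀ D₁`.  Let `P` be
odd, `P ≠ P₀`.  (1) `P ∣ D₁`: Pg gives a root of `f` in `ℚ_P`, `iso3_of_root` over `ℚ_P` (with
`Kp` a representative of `c β`: `f ∣ C c * U - Kp²`), Pa and `HQ.a_Hc`.  (2) `P ∤ D`, `D` a square modulo `P`: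
`hs P D c = v2 c * lg (D mod P) = 0`.  (3) `D` not a square modulo `P`: `TwAt f D P z` (`(-D)^(2l) U` is
`U(θ)` times the square of `D^l`; `HQ` lemma `baseChange_mk_NO`), so `EvenAt q z` for all `q` over `P` (Pe), hence
`EvenAt q c`, so `v(c)` is even (Pf) and `hs P D c = v2 P c * 1 = 0`. -/
def StPk : Prop :=
  ∀ (g : ℕ), 1 ≤ g → ∀ (f : ℤ[X]), f.Monic → f.natDegree = 2 * g + 2 →
    ∀ [Fact (Irreducible (fK f))] [IsDedekindDomain (RR f)] [IsFractionRing (RR f) (LL f)]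
      (P₀ : Prm) (D₁ : ℤ), D₁ ≠ 0 →
    (∀ P : Prm, pz P ∣ D₁ → f.map (red P) ∈ TType (kp P) g) →
    (∀ p : ℕ, p.Prime → ¬ Dbl p f) → ∀ U V : ℚ[X], U.Monic → Even U.natDegree →
    IsCoprime U (fK f) → U ∣ C (((pz P₀ * D₁ : ℤ) : ℚ)) * fK f - V ^ 2 → ∀ (c : ℚ) (β : LL f), c ≠ 0 →
    AdjoinRoot.mk (fK f) U = algebraMap ℚ (LL f) c * β ^ 2 → ∀ P : Prm, (P : ℕ) ≠ 2 → P ≠ P₀ →
    hs (P : ℕ) ((((pz P₀ * D₁ : ℤ) : ℚ)) : ℚ_[(P : ℕ)]) (c : ℚ_[(P : ℕ)]) = 0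

/-- Pl (conclusion).  `h = D f`, `D = P₀ D₁`.  `divisibleE` (`NS_of_squarefree`): for a pair `(U, V)`: `deg U` is
even (Pj), `z = U(θ)` has square norm (Pi) and `TwAt` at all `p`, so `z = c β²`, `c ∈ ℤ`; Pk and Pb give
`Iso3 D c`, and `norm_eq` gives the norm equation. -/
def StPl : Prop :=
  ∀ (g : ℕ), 1 ≤ g → ∀ (f : ℤ[X]), f.Monic → f.natDegree = 2 * g + 2 →
    ∀ [Fact (Irreducible (fK f))] [IsDedekindDomain (RR f)] [IsFractionRing (RR f) (LL f)]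
      (P₀ : Prm) (D₁ : ℤ), (P₀ : ℕ) ≠ 2 → 0 < D₁ → (pz P₀ * D₁) % 8 = 1 → ¬ pz P₀ ∣ D₁ →
    Irreducible (f.map (red P₀)) → (∀ P : Prm, pz P ∣ D₁ → f.map (red P) ∈ TType (kp P) g) →
    (∀ p : ℕ, p.Prime → ¬ Dbl p f) →
    (∀ z : (LL f)ˣ, IsSquare (Algebra.norm ℚ (z : LL f)) →
      (∀ (p : ℕ) [Fact p.Prime], TwAt f (pz P₀ * D₁) p z) →
      ∃ (c : ℤ) (β : LL f), (z : LL f) = (c : LL f) * β ^ 2) →
    Pool.Agent.Helper3.PD.PicTwoDivisible (C (((pz P₀ * D₁ : ℤ) : ℚ)) * fK f) ∧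
      ∀ U V : ℚ[X], U.Monic → IsCoprime U (fK f) →
        U ∣ C (((pz P₀ * D₁ : ℤ) : ℚ)) * fK f - V ^ 2 → Even U.natDegree

end Pool.Agent.Helper53.EP
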